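import Pool.Agent.Q201.AR.Stm

set_option autoImplicit false

/-! Job TERN of the project AR (helper58): from a binary to a ternary symbol. -/

open FirstOrder FirstOrder.Language Pool.Agent.Helper227.EN

namespace Q58.AR_TERN

open Q201.AR

/-- the signature with a ternary symbol -/
abbrev L3 : FirstOrder.Language.{0, 0} := Sig (fun _ : Fin 1 => 3)

/-- the formula of the ternary symbol -/
def tau (d : Defs LA LR) : Defs LA L3 where
  fn f := f.elim
  rel {_} R := (d.rel (n := 2) ⟨0, rfl⟩).relabel (fun i : Fin 2 => Fin.cast R.2 i.castSucc)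

/-- the binary symbol from the ternary one -/
def e3 : Defs L3 LR where
  fn f := f.elim
  rel {_} R := Relations.formula (L := L3) (n := 3) ⟨0, rfl⟩
    ![Term.var (Fin.cast R.2 0), Term.var (Fin.cast R.2 1), Term.var (Fin.cast R.2 1)]

theorem holds_e3 (d : Defs LA LR) (M : Type) [LA.Structure M] [L3.Structure M] [LR.Structure M]
    (h1 : (tau d).Holds M) (h2 : d.Holds M) : e3.Holds M where
  fn f := f.elim
  rel := by
    rintro n ⟨j, rfl⟩ v
    have hj : j = 0 := Subsingleton.elim _ _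
    subst hj
    have h3 := h1.rel (n := 3) ⟨0, rfl⟩ ![v 0, v 1, v 1]
    have h4 := h2.rel (n := 2) ⟨0, rfl⟩ v
    rw [← h4]
    unfold e3
    simp only [Formula.realize_rel]
    have e : (fun i => Term.realize v ((![Term.var (Fin.cast rfl 0), Term.var (Fin.cast rfl 1),
        Term.var (Fin.cast rfl 1)] : Fin 3 → L3.Term (Fin 2)) i)) = ![v 0, v 1, v 1] := by
      funext i
      fin_cases i <;> rfl
    rw [e, ← h3]
    unfold tau
    simp only [Formula.realize_relabel]
    have e' : (![v 0, v 1, v 1] ∘ fun i : Fin 2 => Fin.cast rfl i.castSucc) = v := by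
      funext i
      fin_cases i <;> rfl
    rw [e']

theorem comp_cast : Computable (fun (v : Fin 3 → ℕ) (i : Fin 2) => v i.castSucc) := by
  refine Primrec.to_comp ?_
  rw [Primrec.fin_curry]
  have h : Primrec (fun i : Fin 2 => i.castSucc) := Primrec.dom_finite _
  exact Primrec.fin_app.comp Primrec.fst (h.comp Primrec.snd)

theorem t_TERN : S_TERN := by
  intro hST hSA T₀ ⟨T, d, d', hDE, s, a, hsT, hcomp, hd', hns⟩
  obtain ⟨hO1, hO2, hDE3⟩ := hDE
  choose F hF using fun (n : ℕ) (f : LA.Functions n) => hST L3 LR e3 (Fin (n + 1)) (d'.fn f)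
  choose G hG using fun (n : ℕ) (R : LA.Relations n) => hST L3 LR e3 (Fin n) (d'.rel R)
  let σ : Defs L3 LA := ⟨fun {n} f => F n f, fun {n} R => G n R⟩
  have hσ : ∀ (M : Type) [LA.Structure M] [L3.Structure M] [LR.Structure M],
      e3.Holds M → d'.Holds M → σ.Holds M := by
    intro M _ _ _ h1 h2
    exact ⟨fun f v y => (hF _ f M h1 _).trans (h2.fn f v y),
      fun R v => (hG _ R M h1 v).trans (h2.rel R v)⟩
  obtain ⟨T', hT'⟩ := hSA hST LA L3 (fun _ => inferInstanceAs (IsEmpty Empty)) T₀ (tau d) σ (by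
    intro M _ _ _ hM hτ
    letI : LR.Structure M := ⟨fun f => f.elim, fun R v => (d.rel R).Realize v⟩
    have hd : d.Holds M := ⟨fun f => f.elim, fun R v => Iff.rfl⟩
    exact hσ M (holds_e3 d M hτ hd) ((hDE3 M).1 ⟨hM, hd⟩).2)
  refine ⟨T', tau d, σ, hT', ?_⟩
  letI : LR.Structure ℕ := s
  letI : LA.Structure ℕ := a
  letI s3 : L3.Structure ℕ := ⟨fun f => f.elim, fun R v =>
    Structure.RelMap (L := LR) (n := 2) ⟨0, rfl⟩ (fun i => v (Fin.cast R.2 i.castSucc))⟩
  have hback := (hDE3 ℕ).2 ⟨hsT, hd'⟩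
  have hτ : (tau d).Holds ℕ := by
    refine ⟨fun f => f.elim, ?_⟩
    rintro n ⟨j, rfl⟩ v
    unfold tau
    simp only [Formula.realize_relabel]
    exact hback.2.rel (n := 2) ⟨0, rfl⟩ _
  have hfin := (hT'.2.2 ℕ).1 ⟨hback.1, hτ⟩
  refine ⟨s3, a, hfin.1, ?_, hfin.2, hns⟩
  intro j
  obtain ⟨inst, hc⟩ := hcomp 0
  exact ⟨fun v => inst (fun i => v i.castSucc), hc.comp comp_cast⟩

end Q58.AR_TERN
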