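import Pool.Agent.Q37.GU.Stm
import Pool.Agent.Q37.GU.Basic

/-! Job Q5 of the project GU (helper58). -/

set_option autoImplicit false

open CategoryTheory CategoryTheory.Limits AlgebraicGeometry Topology
open scoped TensorProduct

namespace Q58.GU_Q5

open Pool.Agent.Q37.GU Pool.Agent.W481

theorem q5 (h1 : S_Q1) (h4 : S_Q4) (h13 : S_P13) (hT : S_T1) : S_Q5 := by
  intro μ hμ V hV X eX x g hg
  obtain ⟨Z, f, hf1, hf2, u, hu, z, hz, hgz⟩ := hg
  obtain ⟨A0, _, _, _, i, hi, φ, hφ⟩ := h1 V hV X eX x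
  obtain ⟨C, _, _, _, _, j, hj, hsq, hfin, het, hlift⟩ :=
    exists_cover_chart f hf2 (ℂ ⊗[Qb] A0) i hi
  have het' : Algebra.Etale (ℂ ⊗[Qb] A0) C := het hf1
  obtain ⟨w, hw⟩ := hlift z (spPt φ) (Eq.trans hz hφ.symm)
  obtain ⟨ψ₀, rfl⟩ := isHomeomorph_spPt.surjective w
  obtain ⟨v, hv⟩ := unit_chart j u
  have hft1 : Algebra.FiniteType ℂ (ℂ ⊗[Qb] A0) := inferInstance
  have hft : Algebra.FiniteType ℂ C := Algebra.FiniteType.trans hft1 inferInstance
  have hv' : ∀ χ : Sp C, vf u (chartC j χ) = χ.hom v := fun χ => hv χ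
  have u1 : IsUnit v := h13 C v fun ψ => by rw [← hv']; exact (hu _).1
  have u2 : IsUnit (v - 1) := h13 C (v - 1) fun ψ => by
    rw [map_sub, map_one, ← hv', sub_ne_zero]; exact (hu _).2.1
  have u3 : IsUnit (v - algebraMap ℂ C μ) := h13 C (v - algebraMap ℂ C μ) fun ψ => by
    have e1 : ψ.hom (algebraMap ℂ C μ) = μ := ψ.hom.commutes μ
    rw [map_sub, e1, ← hv', sub_ne_zero]; exact (hu _).2.2
  have key := h4 μ hμ A0 C v u1 u2 u3 ψ₀
  have hopen : IsOpenEmbedding (chartC j) :=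
    (isOpenEmbedding_push j).comp isHomeomorph_spPt.isOpenEmbedding
  have hz' : chartC j ψ₀ = z := hw
  have hn : 𝓝 z = Filter.map (chartC j) (𝓝 ψ₀) := by rw [hopen.map_nhds_eq, hz']
  have hev : vf u =ᶠ[𝓝 z] fun _ => ψ₀.hom v := by
    rw [Filter.EventuallyEq, hn, Filter.eventually_map]
    filter_upwards [key] with ψ h
    rw [hv', h]
  have hgm : gm (vf u) z = gm (fun _ => ψ₀.hom v) z := gm_eq_iff.2 hev
  refine ⟨ψ₀.hom v, ?_⟩
  exact (hT (Pt Z) (Pt X) (pushC f) (cover_main f hf1 hf2).1.isLocalHomeomorph z x hz).1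
    (hgz.trans hgm)

end Q58.GU_Q5
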