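import Mathlib

/-!
The degree inequality `Σ λ² d / (λ² + d)² ≥ 1 - 1/n`.
-/

namespace Q58.AM

open Finset

/-- the function `r`. -/
noncomputable def rr (l d : ℝ) : ℝ := l * (l ^ 3 - d) / (l ^ 2 + d) ^ 2

theorem rr_le {l d : ℝ} (hl : 1 ≤ l) (hd : 1 ≤ d) : rr l d ≤ rr l 1 := by
  unfold rr
  have h3 : 1 ≤ l ^ 3 := one_le_pow₀ hl
  rw [div_le_div_iff₀ (by positivity) (by positivity)]
  have h1 : (l ^ 3 - d) * (l ^ 2 + 1) ^ 2 ≤ (l ^ 3 - 1) * (l ^ 2 + 1) ^ 2 :=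
    mul_le_mul_of_nonneg_right (by linarith) (by positivity)
  have h2 : (l ^ 3 - 1) * (l ^ 2 + 1) ^ 2 ≤ (l ^ 3 - 1) * (l ^ 2 + d) ^ 2 := by
    apply mul_le_mul_of_nonneg_left _ (by linarith)
    apply pow_le_pow_left₀ (by positivity)
    linarith
  nlinarith [mul_le_mul_of_nonneg_left (h1.trans h2) (by linarith : (0 : ℝ) ≤ l)]

theorem rr_nonneg {l d : ℝ} (hl : 1 ≤ l) (hd : d ≤ l ^ 2) : 0 ≤ rr l d := by
  unfold rr
  have h3 : l ^ 2 ≤ l ^ 3 := pow_le_pow_right₀ hl (by norm_num)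
  have : 0 ≤ l * (l ^ 3 - d) := mul_nonneg (by linarith) (by linarith)
  positivity

theorem one_sub_rr (l : ℝ) : 1 - rr l 1 = (2 * l ^ 2 + l + 1) / (l ^ 2 + 1) ^ 2 := by
  unfold rr
  have : (l ^ 2 + 1) ^ 2 ≠ 0 := by positivity
  field_simp
  ring

/-- the main one-variable inequality. -/
theorem key_ineq {l d : ℝ} (hl : 1 ≤ l) (hd : l ≤ d) :
    (l + 1) / (d + 1) ≤ l * ((2 * l ^ 2 + l + 1) / (l ^ 2 + 1) ^ 2) + rr l d := by
  unfold rr
  obtain ⟨a, rfl⟩ : ∃ a, l = 1 + a := ⟨l - 1, by ring⟩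
  obtain ⟨s, rfl⟩ : ∃ s, d = 1 + a + s := ⟨d - (1 + a), by ring⟩
  have ha : 0 ≤ a := by linarith
  have hs : 0 ≤ s := by linarith
  rw [← mul_div_assoc, div_add_div _ _ (by positivity) (by positivity),
    div_le_div_iff₀ (by positivity) (by positivity)]
  have : ((1 + a) * (2 * (1 + a) ^ 2 + (1 + a) + 1) * ((1 + a) ^ 2 + (1 + a + s)) ^ 2 +
      ((1 + a) ^ 2 + 1) ^ 2 * ((1 + a) * ((1 + a) ^ 3 - (1 + a + s)))) * (1 + a + s + 1) -
      (1 + a + 1) * (((1 + a) ^ 2 + 1) ^ 2 * ((1 + a) ^ 2 + (1 + a + s)) ^ 2) =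
      8*s + 12*s^2 + 4*s^3 + 24*a + 72*a*s + 50*a*s^2 + 9*a*s^3 + 100*a^2 + 188*a^2*s
      + 73*a^2*s^2 + 7*a^2*s^3 + 174*a^3 + 243*a^3*s + 51*a^3*s^2 + 2*a^3*s^3 + 163*a^4
      + 187*a^4*s + 17*a^4*s^2 + 87*a^5 + 94*a^5*s + 2*a^5*s^2 + 25*a^6 + 33*a^6*s + 3*a^7
      + 8*a^7*s + a^8*s := by ring
  have h2 : 0 ≤ 8*s + 12*s^2 + 4*s^3 + 24*a + 72*a*s + 50*a*s^2 + 9*a*s^3 + 100*a^2 + 188*a^2*s
      + 73*a^2*s^2 + 7*a^2*s^3 + 174*a^3 + 243*a^3*s + 51*a^3*s^2 + 2*a^3*s^3 + 163*a^4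
      + 187*a^4*s + 17*a^4*s^2 + 87*a^5 + 94*a^5*s + 2*a^5*s^2 + 25*a^6 + 33*a^6*s + 3*a^7
      + 8*a^7*s + a^8*s := by positivity
  linarith

theorem h_eq {l d : ℝ} (hl : 1 ≤ l) (hd : 0 ≤ d) :
    l ^ 2 * d / (l ^ 2 + d) ^ 2 = l / (l + 1) ^ 2 - (l - d) * rr l d / (l + 1) ^ 2 := by
  unfold rr
  have h1 : (l ^ 2 + d) ≠ 0 := by positivity
  have h2 : (l + 1) ≠ 0 := by positivity
  field_simp
  ring

/-- The degree inequality. -/
theorem degree_ineq {V : Type*} [Fintype V] [DecidableEq V] (X : SimpleGraph V)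
    [DecidableRel X.Adj] (l : ℝ) (p : V → ℝ) (hl : 1 ≤ l) (hp0 : ∀ v, 0 ≤ p v)
    (hp1 : ∑ v, p v = 1) (hev : ∀ v, l * p v = ∑ w ∈ X.neighborFinset v, p w)
    (hd1 : ∀ v, 1 ≤ X.degree v) (hdl : ∀ v, (X.degree v : ℝ) ≤ l ^ 2) :
    1 - 1 / (Fintype.card V : ℝ) ≤
      ∑ v, l ^ 2 * (X.degree v : ℝ) / (l ^ 2 + X.degree v) ^ 2 := by
  obtain ⟨n, hn⟩ : ∃ n : ℝ, n = Fintype.card V := ⟨_, rfl⟩
  rw [← hn]
  obtain ⟨v0⟩ : Nonempty V := by
    by_contra hcon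
    rw [not_nonempty_iff] at hcon
    simp at hp1
  have hn1 : 1 ≤ n := by
    rw [hn]
    exact_mod_cast Fintype.card_pos_iff.2 ⟨v0⟩
  set ρ : V → ℝ := fun v => 1 - (l + 1) * p v with hρ
  have hρ0 : ∀ v, 0 ≤ ρ v := by
    intro v
    have h1 : ∑ w ∈ insert v (X.neighborFinset v), p w ≤ ∑ w, p w :=
      sum_le_sum_of_subset_of_nonneg (subset_univ _) (fun w _ _ => hp0 w)
    rw [sum_insert (by simp), ← hev v, hp1] at h1
    simp only [hρ]
    linarith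
  obtain ⟨D, hD⟩ : ∃ D : ℝ, D = n - 1 - l := ⟨_, rfl⟩
  have hsumρ : ∑ v, ρ v = D := by
    simp only [hρ]
    rw [sum_sub_distrib, ← mul_sum, hp1, hD, hn]
    simp
    ring
  have hD0 : 0 ≤ D := by rw [← hsumρ]; exact sum_nonneg (fun v _ => hρ0 v)
  set b : V → ℝ := fun v => ∑ w ∈ X.neighborFinset v, ρ w with hb
  have hb0 : ∀ v, 0 ≤ b v := fun v => sum_nonneg (fun w _ => hρ0 w)
  have hu : ∀ v, l - (X.degree v : ℝ) = l * ρ v - b v := by
    intro v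
    have h1 : b v = X.degree v - (l + 1) * (l * p v) := by
      simp only [hb, hρ]
      rw [sum_sub_distrib, ← mul_sum, ← hev v]
      simp
    rw [h1]
    simp only [hρ]
    ring
  have hB : ∑ v, b v = ∑ v, (X.degree v : ℝ) * ρ v := by
    simp only [hb]
    have h1 : ∀ v, ∑ w ∈ X.neighborFinset v, ρ w = ∑ w, if X.Adj v w then ρ w else 0 := by
      intro v
      rw [← sum_filter]
      apply sum_congr _ (fun _ _ => rfl)
      ext w
      simp
    simp only [h1]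
    rw [sum_comm]
    apply sum_congr rfl
    intro w _
    rw [← sum_filter, sum_const, nsmul_eq_mul]
    congr 2
    rw [← SimpleGraph.card_neighborFinset_eq_degree]
    congr 1
    ext v
    simp [X.adj_comm]
  have hBD : D ≤ ∑ v, b v := by
    rw [hB, ← hsumρ]
    apply sum_le_sum
    intro v _
    have : (1 : ℝ) ≤ X.degree v := by exact_mod_cast hd1 v
    nlinarith [hρ0 v]
  obtain ⟨r1, hr1⟩ : ∃ r1, r1 = rr l 1 := ⟨_, rfl⟩
  have hr1nn : 0 ≤ r1 := by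
    rw [hr1]
    exact rr_nonneg hl (one_le_pow₀ hl)
  have h1r : 1 - r1 = (2 * l ^ 2 + l + 1) / (l ^ 2 + 1) ^ 2 := by rw [hr1]; exact one_sub_rr l
  have h1r0 : 0 ≤ 1 - r1 := by rw [h1r]; positivity
  obtain ⟨T, hT⟩ : ∃ T, T = (1 - r1) * (l - 1) + D / n := ⟨_, rfl⟩
  have hT0 : 0 ≤ T := by
    rw [hT]
    have : 0 ≤ (1 - r1) * (l - 1) := mul_nonneg h1r0 (by linarith)
    have : 0 ≤ D / n := div_nonneg hD0 (by linarith)
    linarith
  obtain ⟨T0, hT0def⟩ : ∃ T0, T0 = min T r1 := ⟨_, rfl⟩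
  have hT00 : 0 ≤ T0 := by rw [hT0def]; exact le_min hT0 hr1nn
  have hper : ∀ v, (l - X.degree v) * rr l (X.degree v) ≤
      r1 * (l * ρ v - b v) + T0 * b v := by
    intro v
    have hdv : (1 : ℝ) ≤ X.degree v := by exact_mod_cast hd1 v
    have hrle := rr_le hl hdv
    rw [← hr1] at hrle
    by_cases hc : (X.degree v : ℝ) ≤ l
    · have h1 : (l - X.degree v) * rr l (X.degree v) ≤ (l - X.degree v) * r1 :=
        mul_le_mul_of_nonneg_left hrle (by linarith)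
      have h2 := mul_nonneg hT00 (hb0 v)
      rw [← hu v]
      linarith
    · push Not at hc
      have hnn := rr_nonneg hl (hdl v)
      have hkey := key_ineq hl hc.le
      rw [← h1r] at hkey
      have hdn : (X.degree v : ℝ) + 1 ≤ n := by
        rw [hn]
        exact_mod_cast X.degree_lt_card_verts v
      have h3 : (l + 1) / n ≤ (l + 1) / (X.degree v + 1) :=
        div_le_div_of_nonneg_left (by linarith) (by linarith) hdn
      have h4 : D / n = 1 - (l + 1) / n := by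
        rw [hD]
        field_simp
        ring
      have h5 : r1 - rr l (X.degree v) ≤ T := by
        rw [hT, h4]
        nlinarith
      have h6 : r1 - rr l (X.degree v) ≤ T0 := by
        rw [hT0def]
        exact le_min h5 (by linarith)
      have h7 : (X.degree v - l) * (r1 - rr l (X.degree v)) ≤ (X.degree v - l) * T0 :=
        mul_le_mul_of_nonneg_left h6 (by linarith)
      have h8 : (X.degree v : ℝ) - l ≤ b v := by
        have := hu v
        have h9 : 0 ≤ l * ρ v := mul_nonneg (by linarith) (hρ0 v)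
        linarith
      have h10 : (X.degree v - l) * T0 ≤ b v * T0 := mul_le_mul_of_nonneg_right h8 hT00
      rw [← hu v]
      nlinarith
  have hsum : ∑ v, (l - X.degree v) * rr l (X.degree v) ≤ D * (l - 1 + D / n) := by
    calc ∑ v, (l - X.degree v) * rr l (X.degree v)
        ≤ ∑ v, (r1 * (l * ρ v - b v) + T0 * b v) := sum_le_sum (fun v _ => hper v)
      _ = r1 * (l * D - ∑ v, b v) + T0 * ∑ v, b v := by
          rw [sum_add_distrib, ← mul_sum, ← mul_sum, sum_sub_distrib, ← mul_sum, hsumρ]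
      _ = r1 * l * D - (r1 - T0) * ∑ v, b v := by ring
      _ ≤ r1 * l * D - (r1 - T0) * D := by
          have : 0 ≤ r1 - T0 := by rw [hT0def]; linarith [min_le_right T r1]
          have := mul_le_mul_of_nonneg_left hBD this
          linarith
      _ = D * (r1 * (l - 1) + T0) := by ring
      _ ≤ D * (r1 * (l - 1) + T) := by
          apply mul_le_mul_of_nonneg_left _ hD0
          have : T0 ≤ T := by rw [hT0def]; exact min_le_left _ _
          linarith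
      _ = D * (l - 1 + D / n) := by rw [hT]; ring
  have hsum2 : ∑ v, l ^ 2 * (X.degree v : ℝ) / (l ^ 2 + X.degree v) ^ 2 =
      n * (l / (l + 1) ^ 2) - (∑ v, (l - X.degree v) * rr l (X.degree v)) / (l + 1) ^ 2 := by
    rw [sum_congr rfl (fun v _ => h_eq hl (Nat.cast_nonneg (X.degree v))), sum_sub_distrib,
      sum_const, card_univ, nsmul_eq_mul, ← hn, sum_div]
  rw [hsum2]
  have h1 : (∑ v, (l - X.degree v) * rr l (X.degree v)) / (l + 1) ^ 2 ≤
      D * (l - 1 + D / n) / (l + 1) ^ 2 :=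
    div_le_div_of_nonneg_right hsum (by positivity)
  have h2 : n * (l / (l + 1) ^ 2) - D * (l - 1 + D / n) / (l + 1) ^ 2 = 1 - 1 / n := by
    rw [hD]
    field_simp
    ring
  linarith

/-- The per-vertex spectral bound. -/
theorem vertex_bound (s : Finset ℝ) (p : ℝ → ℝ) (l d : ℝ) (hl : 0 < l) (hd : 0 ≤ d)
    (hp0 : ∀ θ ∈ s, 0 ≤ p θ) (hp1 : ∑ θ ∈ s, p θ = 1) (hm : ∑ θ ∈ s, θ * p θ = 0)
    (hv : ∑ θ ∈ s, θ ^ 2 * p θ = d) (hb : ∀ θ ∈ s, |θ| ≤ l) :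
    ∑ θ ∈ s, p θ ^ 2 ≤ 1 - 2 * (l ^ 2 * d / (l ^ 2 + d) ^ 2) := by
  have hne : s.Nonempty := by
    by_contra hcon
    rw [not_nonempty_iff_eq_empty] at hcon
    rw [hcon] at hp1
    simp at hp1
  obtain ⟨θ0, hθ0, hmax⟩ := exists_max_image s p hne
  have hx : l ^ 2 * d / (l ^ 2 + d) ^ 2 ≤ 1 / 4 := by
    rw [div_le_div_iff₀ (by positivity) (by norm_num)]
    nlinarith [sq_nonneg (l ^ 2 - d)]
  by_cases hc : p θ0 ≤ 1 / 2
  · have h1 : ∑ θ ∈ s, p θ ^ 2 ≤ ∑ θ ∈ s, p θ0 * p θ := by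
      apply sum_le_sum
      intro θ hθ
      rw [pow_two]
      exact mul_le_mul_of_nonneg_right (hmax θ hθ) (hp0 θ hθ)
    rw [← mul_sum, hp1] at h1
    linarith
  · push Not at hc
    obtain ⟨q, hq⟩ : ∃ q, q = 1 - p θ0 := ⟨_, rfl⟩
    set s' := s.erase θ0 with hs'
    have hsub : ∀ θ ∈ s', θ ∈ s := fun θ h => mem_of_mem_erase h
    have e0 : p θ0 + ∑ θ ∈ s', p θ = 1 := by rw [hs', add_sum_erase _ _ hθ0, hp1]
    have e1 : θ0 * p θ0 + ∑ θ ∈ s', θ * p θ = 0 := by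
      rw [hs', add_sum_erase _ (fun θ => θ * p θ) hθ0, hm]
    have e2 : θ0 ^ 2 * p θ0 + ∑ θ ∈ s', θ ^ 2 * p θ = d := by
      rw [hs', add_sum_erase _ (fun θ => θ ^ 2 * p θ) hθ0, hv]
    have e3 : p θ0 ^ 2 + ∑ θ ∈ s', p θ ^ 2 = ∑ θ ∈ s, p θ ^ 2 := by
      rw [hs', add_sum_erase _ (fun θ => p θ ^ 2) hθ0]
    have hq' : ∑ θ ∈ s', p θ = q := by linarith
    have hq0 : 0 ≤ q := by rw [← hq']; exact sum_nonneg (fun θ hθ => hp0 θ (hsub θ hθ))
    have h1 : ∑ θ ∈ s', p θ ^ 2 ≤ q ^ 2 := by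
      have h2 : ∑ θ ∈ s', p θ ^ 2 ≤ ∑ θ ∈ s', q * p θ := by
        apply sum_le_sum
        intro θ hθ
        rw [pow_two]
        apply mul_le_mul_of_nonneg_right _ (hp0 θ (hsub θ hθ))
        rw [← hq']
        exact single_le_sum (fun θ hθ => hp0 θ (hsub θ hθ)) hθ
      rw [← mul_sum, hq'] at h2
      linarith [pow_two q]
    have h2 : |θ0 * p θ0| ≤ l * q := by
      have h3 : θ0 * p θ0 = - ∑ θ ∈ s', θ * p θ := by linarith
      rw [h3, abs_neg]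
      calc |∑ θ ∈ s', θ * p θ| ≤ ∑ θ ∈ s', |θ * p θ| := abs_sum_le_sum_abs _ _
        _ ≤ ∑ θ ∈ s', l * p θ := by
            apply sum_le_sum
            intro θ hθ
            rw [abs_mul, abs_of_nonneg (hp0 θ (hsub θ hθ))]
            exact mul_le_mul_of_nonneg_right (hb θ (hsub θ hθ)) (hp0 θ (hsub θ hθ))
        _ = l * q := by rw [← mul_sum, hq']
    have h3 : (θ0 * p θ0) ^ 2 ≤ (l * q) ^ 2 := by
      rw [← sq_abs]
      exact pow_le_pow_left₀ (abs_nonneg _) h2 2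
    have h4 : ∑ θ ∈ s', θ ^ 2 * p θ ≤ l ^ 2 * q := by
      calc ∑ θ ∈ s', θ ^ 2 * p θ ≤ ∑ θ ∈ s', l ^ 2 * p θ := by
            apply sum_le_sum
            intro θ hθ
            apply mul_le_mul_of_nonneg_right _ (hp0 θ (hsub θ hθ))
            rw [← sq_abs]
            exact pow_le_pow_left₀ (abs_nonneg _) (hb θ (hsub θ hθ)) 2
        _ = l ^ 2 * q := by rw [← mul_sum, hq']
    have hp0' : 0 < p θ0 := by linarith
    have h5 : d * p θ0 ≤ l ^ 2 * q := by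
      have : d * p θ0 = (θ0 * p θ0) ^ 2 + (∑ θ ∈ s', θ ^ 2 * p θ) * p θ0 := by
        rw [← e2]; ring
      rw [this]
      have h6 : (∑ θ ∈ s', θ ^ 2 * p θ) * p θ0 ≤ l ^ 2 * q * p θ0 :=
        mul_le_mul_of_nonneg_right h4 hp0'.le
      have h7 : p θ0 = 1 - q := by linarith
      rw [h7] at h6 ⊢
      rw [h7] at h3
      nlinarith
    have hx1 : 0 < l ^ 2 + d := by positivity
    obtain ⟨x, hxd⟩ : ∃ x, x = d / (l ^ 2 + d) := ⟨_, rfl⟩
    have hxq : x ≤ q := by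
      rw [hxd, div_le_iff₀ hx1]
      have h7 : p θ0 = 1 - q := by linarith
      rw [h7] at h5
      linarith
    have hx2 : l ^ 2 * d / (l ^ 2 + d) ^ 2 = x * (1 - x) := by
      rw [hxd]
      field_simp
      ring
    have h8 : x * (1 - x) ≤ q * (1 - q) := by
      have : 0 ≤ (q - x) * (1 - q - x) := mul_nonneg (by linarith) (by linarith)
      nlinarith
    rw [hx2, ← e3]
    have h9 : p θ0 = 1 - q := by linarith
    rw [h9]
    nlinarith

end Q58.AM
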