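import Pool.Agent.Q58.AMDefs
import Pool.Agent.Q58.AM1
import Pool.Agent.Q104.Spec

/-!
Spectral part: diagonal entries of the projections, Perron vector.
-/

namespace Q58.AM

open Finset Matrix Q104.Spec

variable {V : Type*} [Fintype V] [DecidableEq V]

theorem toE_apply (A : Matrix V V ℝ) (x : EuclideanSpace ℝ V) :
    Matrix.toEuclideanLin A x = WithLp.toLp 2 (A *ᵥ WithLp.ofLp x) := rfl

theorem eigenProj_diag {A : Matrix V V ℝ} (hA : A.IsHermitian) (θ : ℝ) (v : V) :
    eigenProj A θ v v = ∑ j ∈ univ.filter (fun j => hA.eigenvalues j = θ), (ev hA j v) ^ 2 := by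
  set B := hA.eigenvectorBasis with hB
  set e : EuclideanSpace ℝ V := EuclideanSpace.single v (1 : ℝ) with he
  set K := Module.End.eigenspace (Matrix.toEuclideanLin A) θ with hK
  have hBe : ∀ j, inner ℝ (B j) e = ev hA j v := by
    intro j
    rw [he, EuclideanSpace.inner_single_right]
    simp [ev, hB]
  have hBeig : ∀ j, Matrix.toEuclideanLin A (B j) = hA.eigenvalues j • B j := by
    intro j
    rw [toE_apply]
    have := hA.mulVec_eigenvectorBasis j
    rw [← hB] at this
    rw [this]
    rfl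
  set y : EuclideanSpace ℝ V :=
    ∑ j ∈ univ.filter (fun j => hA.eigenvalues j = θ), (ev hA j v) • B j with hy
  have hyK : y ∈ K := by
    rw [hy]
    apply Submodule.sum_mem
    intro j hj
    rw [mem_filter] at hj
    apply Submodule.smul_mem
    rw [hK, Module.End.mem_eigenspace_iff, hBeig, hj.2]
  have horth : ∀ z ∈ K, inner ℝ (e - y) z = 0 := by
    intro z hz
    rw [hK, Module.End.mem_eigenspace_iff] at hz
    have h1 : ∀ j, hA.eigenvalues j ≠ θ → inner ℝ (B j) z = 0 := by
      intro j hj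
      have hsym : inner ℝ (Matrix.toEuclideanLin A (B j)) z =
          inner ℝ (B j) (Matrix.toEuclideanLin A z) :=
        (Matrix.isSymmetric_toEuclideanLin_iff.2 hA) (B j) z
      rw [hBeig, hz, inner_smul_left, inner_smul_right] at hsym
      have h2 : (hA.eigenvalues j - θ) * inner ℝ (B j) z = 0 := by
        simp only [conj_trivial] at hsym
        rw [sub_mul]
        linarith
      rcases mul_eq_zero.1 h2 with h3 | h3
      · exact absurd (sub_eq_zero.1 h3) hj
      · exact h3
    have h2 : e = ∑ j, (ev hA j v) • B j := by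
      have := B.sum_repr e
      conv_lhs => rw [← this]
      apply sum_congr rfl
      intro j _
      rw [OrthonormalBasis.repr_apply_apply, hBe]
    have h3 : e - y = ∑ j ∈ univ.filter (fun j => ¬ hA.eigenvalues j = θ), (ev hA j v) • B j := by
      rw [h2, hy, ← sum_filter_add_sum_filter_not univ (fun j => hA.eigenvalues j = θ)]
      simp
    rw [h3, sum_inner]
    apply sum_eq_zero
    intro j hj
    rw [mem_filter] at hj
    rw [inner_smul_left, h1 j hj.2, mul_zero]
  have hproj : K.starProjection e = y :=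
    Submodule.eq_starProjection_of_mem_of_inner_eq_zero hyK horth
  have : eigenProj A θ v v = inner ℝ e (K.starProjection e) := rfl
  rw [this, hproj, hy, inner_sum]
  apply sum_congr rfl
  intro j _
  rw [inner_smul_right, real_inner_comm, hBe]
  ring

/-- the spectral measure at `v`. -/
noncomputable def pm {A : Matrix V V ℝ} (hA : A.IsHermitian) (v : V) (θ : ℝ) : ℝ :=
  ∑ j ∈ univ.filter (fun j => hA.eigenvalues j = θ), (ev hA j v) ^ 2

theorem pm_nonneg {A : Matrix V V ℝ} (hA : A.IsHermitian) (v : V) (θ : ℝ) : 0 ≤ pm hA v θ :=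
  sum_nonneg (fun _ _ => sq_nonneg _)

theorem sum_pm {A : Matrix V V ℝ} (hA : A.IsHermitian) (v : V) (f : ℝ → ℝ) :
    ∑ θ ∈ univ.image hA.eigenvalues, f θ * pm hA v θ =
      ∑ j, f (hA.eigenvalues j) * (ev hA j v) ^ 2 := by
  unfold pm
  rw [← sum_fiberwise_of_maps_to (s := univ) (t := univ.image hA.eigenvalues)
    (g := hA.eigenvalues) (fun j _ => mem_image_of_mem _ (mem_univ j))]
  apply sum_congr rfl
  intro θ _
  rw [mul_sum]
  apply sum_congr rfl
  intro j hj
  rw [mem_filter] at hj
  rw [hj.2]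

theorem pm_total {A : Matrix V V ℝ} (hA : A.IsHermitian) (v : V) :
    ∑ θ ∈ univ.image hA.eigenvalues, pm hA v θ = 1 := by
  have h := sum_pm hA v (fun _ => 1)
  simp only [one_mul] at h
  rw [h]
  have h2 := sq_expand hA (Pi.single v (1 : ℝ))
  simp only [dotProduct_single, mul_one, Pi.single_eq_same] at h2
  exact h2.symm

theorem pm_mean {A : Matrix V V ℝ} (hA : A.IsHermitian) (v : V) :
    ∑ θ ∈ univ.image hA.eigenvalues, θ * pm hA v θ = A v v := by
  rw [sum_pm hA v (fun θ => θ), entry hA v v]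
  apply sum_congr rfl
  intro j _
  ring

theorem pm_second {A : Matrix V V ℝ} (hA : A.IsHermitian) (v : V) :
    ∑ θ ∈ univ.image hA.eigenvalues, θ ^ 2 * pm hA v θ = ∑ w, A w v ^ 2 := by
  rw [sum_pm hA v (fun θ => θ ^ 2)]
  have h2 := sq_expand hA (A *ᵥ (Pi.single v (1 : ℝ)))
  have h3 : (A *ᵥ (Pi.single v (1 : ℝ))) ⬝ᵥ (A *ᵥ (Pi.single v (1 : ℝ))) = ∑ w, A w v ^ 2 := by
    simp only [dotProduct, mulVec_single_one, col_apply]
    apply sum_congr rfl
    intro w _
    ring
  rw [← h3, h2]
  apply sum_congr rfl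
  intro j _
  rw [ev_dot_mulVec]
  simp only [dotProduct_single, mul_one]
  ring

theorem trace_avgMixing (X : SimpleGraph V) [DecidableRel X.Adj] :
    (avgMixing X).trace = ∑ v, ∑ θ ∈ univ.image (adj_isHermitian X).eigenvalues,
      pm (adj_isHermitian X) v θ ^ 2 := by
  unfold avgMixing Matrix.trace
  apply sum_congr rfl
  intro v _
  rw [diag_apply, Matrix.sum_apply]
  apply sum_congr rfl
  intro θ _
  rw [hadamard_apply, eigenProj_diag (adj_isHermitian X), pow_two]
  rfl

theorem sum_adj_sq (X : SimpleGraph V) [DecidableRel X.Adj] (v : V) :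
    ∑ w, (X.adjMatrix ℝ) w v ^ 2 = X.degree v := by
  simp only [SimpleGraph.adjMatrix_apply]
  have : ∀ w, (if X.Adj w v then (1 : ℝ) else 0) ^ 2 = if X.Adj w v then 1 else 0 := by
    intro w
    split_ifs <;> norm_num
  simp only [this]
  rw [sum_boole, ← SimpleGraph.card_neighborFinset_eq_degree]
  congr 2
  ext w
  simp [X.adj_comm]

/-- Perron vector of a connected graph. -/
theorem perron (X : SimpleGraph V) [DecidableRel X.Adj] (hX : X.Connected) :
    ∃ (l : ℝ) (x : V → ℝ), (∀ j, |(adj_isHermitian X).eigenvalues j| ≤ l) ∧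
      (∀ v, 0 < x v) ∧ (∀ v, l * x v = ∑ w ∈ X.neighborFinset v, x w) := by
  obtain ⟨v0⟩ := hX.nonempty
  set A := X.adjMatrix ℝ with hAdef
  set hA := adj_isHermitian X with hhA
  obtain ⟨j0, -, hj0⟩ := exists_max_image univ hA.eigenvalues ⟨v0, mem_univ v0⟩
  have hA0 : ∀ i j, 0 ≤ A i j := by
    intro i j
    rw [hAdef, SimpleGraph.adjMatrix_apply]
    split_ifs <;> norm_num
  have habs : ∀ z : V → ℝ, |z ⬝ᵥ (A *ᵥ z)| ≤ (fun i => |z i|) ⬝ᵥ (A *ᵥ (fun i => |z i|)) := by
    intro z
    simp only [dotProduct, mulVec, mul_sum]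
    refine (abs_sum_le_sum_abs _ _).trans (sum_le_sum (fun i _ => ?_))
    refine (abs_sum_le_sum_abs _ _).trans (sum_le_sum (fun j _ => ?_))
    rw [abs_mul, abs_mul, abs_of_nonneg (hA0 i j)]
  have hnorm : ∀ z : V → ℝ, (fun i => |z i|) ⬝ᵥ (fun i => |z i|) = z ⬝ᵥ z := by
    intro z
    simp only [dotProduct]
    apply sum_congr rfl
    intro i _
    exact abs_mul_abs_self (z i)
  obtain ⟨l, hl⟩ : ∃ l, l = hA.eigenvalues j0 := ⟨_, rfl⟩
  have hmax : ∀ j, hA.eigenvalues j ≤ l := fun j => by rw [hl]; exact hj0 j (mem_univ j)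
  have hlabs : ∀ j, |hA.eigenvalues j| ≤ l := by
    intro j
    have h1 := habs (ev hA j)
    rw [mulVec_ev, dotProduct_smul, ev_dot, if_pos rfl, smul_eq_mul, mul_one] at h1
    have h2 := quad_le hA hmax (fun i => |ev hA j i|)
    rw [hnorm, ev_dot, if_pos rfl, mul_one] at h2
    exact h1.trans h2
  set x : V → ℝ := fun i => |ev hA j0 i| with hx
  have hxx : x ⬝ᵥ x = 1 := by rw [hx, hnorm, ev_dot, if_pos rfl]
  have hxA : x ⬝ᵥ (A *ᵥ x) = l := by
    apply le_antisymm
    · have := quad_le hA hmax x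
      rwa [hxx, mul_one] at this
    · have h1 := habs (ev hA j0)
      rw [mulVec_ev, dotProduct_smul, ev_dot, if_pos rfl, smul_eq_mul, mul_one] at h1
      rw [hl]
      exact (le_abs_self _).trans h1
  have hcoef : ∀ j, (l - hA.eigenvalues j) * (ev hA j ⬝ᵥ x) ^ 2 = 0 := by
    have h1 : ∑ j, (l - hA.eigenvalues j) * (ev hA j ⬝ᵥ x) ^ 2 = 0 := by
      have h2 := quad_expand hA x
      have h3 := sq_expand hA x
      rw [hxA] at h2
      rw [hxx] at h3
      simp only [sub_mul]
      rw [sum_sub_distrib, ← mul_sum, ← h2, ← h3]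
      ring
    have h4 := (sum_eq_zero_iff_of_nonneg (fun j _ =>
      mul_nonneg (sub_nonneg.2 (hmax j)) (sq_nonneg _))).1 h1
    intro j
    exact h4 j (mem_univ j)
  have hAx : A *ᵥ x = l • x := by
    rw [expand hA (A *ᵥ x)]
    conv_rhs => rw [expand hA x, smul_sum]
    apply sum_congr rfl
    intro j _
    rw [ev_dot_mulVec, smul_smul]
    congr 1
    rcases mul_eq_zero.1 (hcoef j) with h | h
    · rw [show l = hA.eigenvalues j by linarith]
    · rw [pow_eq_zero_iff (by norm_num)] at h
      rw [h, mul_zero, mul_zero]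
  have hev : ∀ v, l * x v = ∑ w ∈ X.neighborFinset v, x w := by
    intro v
    have h1 := congrFun hAx v
    rw [hAdef, SimpleGraph.adjMatrix_mulVec_apply] at h1
    rw [h1]
    rfl
  have hx0 : ∀ v, 0 ≤ x v := fun v => abs_nonneg _
  have hadj : ∀ v w, X.Adj v w → x v = 0 → x w = 0 := by
    intro v w hvw hv
    have h1 := hev v
    rw [hv, mul_zero] at h1
    exact (sum_eq_zero_iff_of_nonneg (fun w _ => hx0 w)).1 h1.symm w (by simpa using hvw)
  have hpos : ∀ v, 0 < x v := by
    intro v
    rcases (hx0 v).lt_or_eq with h | h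
    · exact h
    · exfalso
      have hall : ∀ w, x w = 0 := by
        intro w
        obtain ⟨p⟩ := hX.preconnected v w
        have : ∀ (a b : V) (p : X.Walk a b), x a = 0 → x b = 0 := by
          intro a b p
          induction p with
          | nil => exact id
          | cons hadj' _ ih => exact fun h => ih (hadj _ _ hadj' h)
        exact this v w p h.symm
      have : x ⬝ᵥ x = 0 := by
        simp only [dotProduct, hall]
        simp
      rw [hxx] at this
      exact one_ne_zero this
  exact ⟨l, x, hlabs, hpos, hev⟩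

/-- The bound for connected graphs with at least two vertices. -/
theorem trace_le (X : SimpleGraph V) [DecidableRel X.Adj] (hX : X.Connected)
    (hn : 2 ≤ Fintype.card V) :
    (avgMixing X).trace ≤ (Fintype.card V : ℝ) - 2 + 2 / (Fintype.card V : ℝ) := by
  obtain ⟨l, x, hlabs, hpos, hev⟩ := perron X hX
  have hnt : Nontrivial V := Fintype.one_lt_card_iff_nontrivial.1 (by omega)
  obtain ⟨v0⟩ := hX.nonempty
  have hd1 : ∀ v, 1 ≤ X.degree v := fun v => hX.preconnected.degree_pos_of_nontrivial v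
  have hl0 : 0 ≤ l := (abs_nonneg _).trans (hlabs v0)
  have hnb : ∀ v w, X.Adj v w → x v ≤ l * x w := by
    intro v w h
    rw [hev w]
    exact single_le_sum (fun u _ => (hpos u).le) (by simpa using h.symm)
  have hdl : ∀ v, (X.degree v : ℝ) ≤ l ^ 2 := by
    intro v
    have h1 : (X.degree v : ℝ) * x v ≤ l * (l * x v) := by
      rw [hev v, mul_sum]
      calc (X.degree v : ℝ) * x v = ∑ w ∈ X.neighborFinset v, x v := by
            rw [sum_const, SimpleGraph.card_neighborFinset_eq_degree, nsmul_eq_mul]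
        _ ≤ ∑ w ∈ X.neighborFinset v, l * x w := by
            apply sum_le_sum
            intro w hw
            exact hnb v w (by simpa using hw)
    have h2 : (X.degree v : ℝ) * x v ≤ l ^ 2 * x v := by linarith [pow_two l]
    exact le_of_mul_le_mul_right h2 (hpos v)
  have hl1 : 1 ≤ l := by
    have h1 : (1 : ℝ) ≤ X.degree v0 := by exact_mod_cast hd1 v0
    have h2 := h1.trans (hdl v0)
    nlinarith
  obtain ⟨S, hS⟩ : ∃ S, S = ∑ v, x v := ⟨_, rfl⟩
  have hS0 : 0 < S := by
    rw [hS]
    exact sum_pos (fun v _ => hpos v) ⟨v0, mem_univ v0⟩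
  have hdeg := degree_ineq X l (fun v => x v / S) hl1 (fun v => (div_pos (hpos v) hS0).le)
    (by rw [← sum_div, ← hS, div_self hS0.ne'])
    (by intro v; rw [← mul_div_assoc, hev v, sum_div]) hd1 hdl
  rw [trace_avgMixing]
  have h1 : ∀ v, ∑ θ ∈ univ.image (adj_isHermitian X).eigenvalues,
      pm (adj_isHermitian X) v θ ^ 2 ≤
      1 - 2 * (l ^ 2 * (X.degree v : ℝ) / (l ^ 2 + X.degree v) ^ 2) := by
    intro v
    apply vertex_bound _ (pm (adj_isHermitian X) v) l (X.degree v) (by linarith)
      (Nat.cast_nonneg _) (fun θ _ => pm_nonneg _ v θ) (pm_total _ v)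
    · rw [pm_mean, SimpleGraph.adjMatrix_apply, if_neg (X.loopless.irrefl v)]
    · rw [pm_second, sum_adj_sq]
    · intro θ hθ
      rw [mem_image] at hθ
      obtain ⟨j, _, rfl⟩ := hθ
      exact hlabs j
  calc ∑ v, ∑ θ ∈ univ.image (adj_isHermitian X).eigenvalues, pm (adj_isHermitian X) v θ ^ 2
      ≤ ∑ v, (1 - 2 * (l ^ 2 * (X.degree v : ℝ) / (l ^ 2 + X.degree v) ^ 2)) :=
        sum_le_sum (fun v _ => h1 v)
    _ = (Fintype.card V : ℝ) - 2 * ∑ v, l ^ 2 * (X.degree v : ℝ) / (l ^ 2 + X.degree v) ^ 2 := by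
        rw [sum_sub_distrib, ← mul_sum]
        simp
    _ ≤ (Fintype.card V : ℝ) - 2 * (1 - 1 / (Fintype.card V : ℝ)) := by linarith
    _ = _ := by ring

/-- eigenvalues of the complete graph. -/
theorem complete_eig (j : V) :
    (adj_isHermitian (⊤ : SimpleGraph V)).eigenvalues j = (Fintype.card V : ℝ) - 1 ∨
      (adj_isHermitian (⊤ : SimpleGraph V)).eigenvalues j = -1 := by
  set hA := adj_isHermitian (⊤ : SimpleGraph V) with hhA
  obtain ⟨θ, hθ⟩ : ∃ θ, θ = hA.eigenvalues j := ⟨_, rfl⟩
  obtain ⟨S, hS⟩ : ∃ S, S = ∑ w, ev hA j w := ⟨_, rfl⟩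
  have h1 : ∀ i, (θ + 1) * ev hA j i = S := by
    intro i
    have h2 := congrFun (mulVec_ev hA j) i
    rw [SimpleGraph.adjMatrix_mulVec_apply, Pi.smul_apply, smul_eq_mul, ← hθ] at h2
    have h3 : ∑ u ∈ (⊤ : SimpleGraph V).neighborFinset i, ev hA j u = S - ev hA j i := by
      rw [hS, ← add_sum_erase univ (ev hA j) (mem_univ i)]
      have : (⊤ : SimpleGraph V).neighborFinset i = univ.erase i := by
        ext w
        simp [ne_comm]
      rw [this]
      ring
    rw [h3] at h2
    linarith
  rw [← hθ]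
  by_cases hc : θ = -1
  · right; exact hc
  · left
    have hne : θ + 1 ≠ 0 := fun h => hc (by linarith)
    have hS0 : S ≠ 0 := by
      intro h0
      have h2 := ev_dot hA j j
      rw [if_pos rfl] at h2
      have h3 : ev hA j = 0 := by
        funext i
        have := h1 i
        rw [h0] at this
        rcases mul_eq_zero.1 this with h | h
        · exact absurd h hne
        · exact h
      rw [h3, zero_dotProduct] at h2
      exact zero_ne_one h2
    have h2 : (θ + 1) * S = (Fintype.card V : ℝ) * S := by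
      conv_lhs => rw [hS, mul_sum]
      rw [sum_congr rfl (fun i _ => h1 i), sum_const, card_univ, nsmul_eq_mul]
    have := mul_right_cancel₀ hS0 h2
    linarith

/-- The trace for the complete graph. -/
theorem trace_complete [Nonempty V] :
    (avgMixing (⊤ : SimpleGraph V)).trace =
      ((Fintype.card V : ℝ) ^ 2 - 2 * (Fintype.card V : ℝ) + 2) / (Fintype.card V : ℝ) := by
  obtain ⟨n, hn⟩ : ∃ n : ℝ, n = Fintype.card V := ⟨_, rfl⟩
  have hn0 : 0 < n := by
    rw [hn]
    exact_mod_cast Fintype.card_pos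
  rw [trace_avgMixing]
  set hA := adj_isHermitian (⊤ : SimpleGraph V) with hhA
  have hsub : univ.image hA.eigenvalues ⊆ {n - 1, -1} := by
    intro θ hθ
    rw [mem_image] at hθ
    obtain ⟨j, _, rfl⟩ := hθ
    rcases complete_eig j with h | h
    · rw [hhA, h, ← hn]; simp
    · rw [hhA, h]; simp
  have hzero : ∀ v θ, θ ∉ univ.image hA.eigenvalues → pm hA v θ = 0 := by
    intro v θ hθ
    unfold pm
    rw [filter_false_of_mem, sum_empty]
    intro j _ hj
    exact hθ (by rw [← hj]; exact mem_image_of_mem _ (mem_univ j))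
  have hne : n - 1 ≠ -1 := by intro h; linarith
  have hv : ∀ v, ∑ θ ∈ univ.image hA.eigenvalues, pm hA v θ ^ 2 = (1 / n) ^ 2 + (1 - 1 / n) ^ 2 := by
    intro v
    have e1 : pm hA v (n - 1) + pm hA v (-1) = 1 := by
      have h1 := pm_total hA v
      rw [sum_subset hsub (fun θ _ h => hzero v θ h), sum_pair hne] at h1
      exact h1
    have e2 : (n - 1) * pm hA v (n - 1) + (-1) * pm hA v (-1) = 0 := by
      have h1 := pm_mean hA v
      rw [SimpleGraph.adjMatrix_apply, if_neg ((⊤ : SimpleGraph V).loopless.irrefl v)] at h1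
      rw [sum_subset hsub (fun θ _ h => by rw [hzero v θ h, mul_zero]), sum_pair hne] at h1
      exact h1
    have e3 : ∑ θ ∈ univ.image hA.eigenvalues, pm hA v θ ^ 2 =
        pm hA v (n - 1) ^ 2 + pm hA v (-1) ^ 2 := by
      rw [sum_subset hsub (fun θ _ h => by rw [hzero v θ h]; ring), sum_pair hne]
    have e4 : pm hA v (n - 1) = 1 / n := by
      field_simp
      linarith
    have e5 : pm hA v (-1) = 1 - 1 / n := by linarith
    rw [e3, e4, e5]
  rw [sum_congr rfl (fun v _ => hv v), sum_const, card_univ, nsmul_eq_mul, ← hn]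
  field_simp
  ring

/-- The main theorem. -/
theorem main (X : SimpleGraph V) [DecidableRel X.Adj] (hX : X.Connected) :
    (avgMixing X).trace ≤ (avgMixing (⊤ : SimpleGraph V)).trace ∧
    (avgMixing (⊤ : SimpleGraph V)).trace =
      ((Fintype.card V : ℝ) ^ 2 - 2 * (Fintype.card V : ℝ) + 2) / (Fintype.card V : ℝ) := by
  have hne := hX.nonempty
  refine ⟨?_, trace_complete⟩
  by_cases hn : 2 ≤ Fintype.card V
  · rw [trace_complete]
    refine (trace_le X hX hn).trans (le_of_eq ?_)
    have : (Fintype.card V : ℝ) ≠ 0 := by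
      have : (2 : ℝ) ≤ Fintype.card V := by exact_mod_cast hn
      linarith
    field_simp
  · have h1 : Subsingleton V := by
      rw [← Fintype.card_le_one_iff_subsingleton]
      omega
    have h2 : X = ⊤ := by
      ext a b
      simp [Subsingleton.elim a b]
    apply le_of_eq
    subst h2
    congr 2

end Q58.AM
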