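import Mathlib

/-!
The average mixing matrix of a graph.
-/

namespace Q58.AM

open Matrix

variable {V : Type*} [Fintype V] [DecidableEq V]

/-- The matrix `E_θ` of the orthogonal projection of the Euclidean space `ℝ^V` onto the
`θ`-eigenspace of the matrix `A`. -/
noncomputable def eigenProj (A : Matrix V V ℝ) (θ : ℝ) : Matrix V V ℝ :=
  Matrix.of fun v w =>
    inner ℝ (EuclideanSpace.single v (1 : ℝ))
      ((Module.End.eigenspace (Matrix.toEuclideanLin A) θ).starProjection
        (EuclideanSpace.single w (1 : ℝ)))

/-- The adjacency matrix of a graph is symmetric. -/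
theorem adj_isHermitian (X : SimpleGraph V) [DecidableRel X.Adj] :
    (X.adjMatrix ℝ).IsHermitian := by
  rw [Matrix.IsHermitian, Matrix.conjTranspose_eq_transpose_of_trivial]
  exact X.isSymm_adjMatrix

/-- The average mixing matrix `∑_r E_r ∘ E_r` with respect to the adjacency matrix: the sum runs
over the distinct eigenvalues, `∘` is the entrywise product. -/
noncomputable def avgMixing (X : SimpleGraph V) [DecidableRel X.Adj] : Matrix V V ℝ :=
  ∑ θ ∈ Finset.univ.image (adj_isHermitian X).eigenvalues,
    (eigenProj (X.adjMatrix ℝ) θ) ⊙ (eigenProj (X.adjMatrix ℝ) θ)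

end Q58.AM
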