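import Mathlib

/-!
# Zero-cycles with rational coefficients modulo rational equivalence

Schemes over a field `k`, their `k`-points, smooth proper integral curves, the genus of a curve,
zero-cycles, the rational Chow group of zero-cycles, and exterior products of zero-cycles.
For an algebraically closed field `k` and a `k`-scheme of finite type the `k`-points are exactly
the closed points.
-/

namespace Q58.Chow

open AlgebraicGeometry CategoryTheory Limits

universe u

/-- Schemes over the field `k`. -/
abbrev Sch (k : Type u) [Field k] := Over (Spec (CommRingCat.of k))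

variable {k : Type u} [Field k]

/-- The scheme `Spec k` over `k`. -/
noncomputable abbrev base (k : Type u) [Field k] : Sch k := Over.mk (𝟙 (Spec (CommRingCat.of k)))

/-- The `k`-points of a `k`-scheme. -/
noncomputable abbrev Pt (X : Sch k) := base k ⟶ X

/-- The point of the underlying topological space defined by a `k`-point. -/
noncomputable def Pt.point {X : Sch k} (P : Pt X) : X.left := P.left (IsLocalRing.closedPoint k)

/-- A smooth proper integral curve over `k`. -/
class IsCurve (C : Sch k) : Prop where
  isIntegral : IsIntegral C.left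
  smooth : SmoothOfRelativeDimension 1 C.hom
  isProper : IsProper C.hom

instance (C : Sch k) [h : IsCurve C] : IsIntegral C.left := h.isIntegral

instance (C : Sch k) [h : IsCurve C] : IsProper C.hom := h.isProper

instance (C : Sch k) [IsCurve C] : IsLocallyNoetherian C.left where
  component_noetherian U := by
    have h1 := LocallyOfFiniteType.finiteType_appLE C.hom
      (isAffineOpen_top (Spec (CommRingCat.of k))) U.2 le_top
    let _ := (C.hom.appLE ⊤ U.1 le_top).hom.toAlgebra
    have h2 : Algebra.FiniteType Γ(Spec (CommRingCat.of k), ⊤) Γ(C.left, U.1) := h1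
    have h3 : IsNoetherianRing Γ(Spec (CommRingCat.of k), ⊤) :=
      isNoetherianRing_of_ringEquiv k
        (Scheme.ΓSpecIso (CommRingCat.of k)).symm.commRingCatIsoToRingEquiv
    exact Algebra.FiniteType.isNoetherianRing Γ(Spec (CommRingCat.of k), ⊤) Γ(C.left, U.1)

/-- `h` is a nonzero rational function on the curve `C` with divisor `D`. -/
def IsDivisorOf (C : Sch k) [IsCurve C] (h : C.left.functionField) (D : Pt C →₀ ℚ) : Prop :=
  h ≠ 0 ∧ ∀ P : Pt C, D P = (Scheme.ord h P.point : ℚ)

/-- The push-forward of zero-cycles along a morphism. -/
noncomputable def push {X Y : Sch k} (f : X ⟶ Y) (z : Pt X →₀ ℚ) : Pt Y →₀ ℚ :=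
  z.mapDomain fun P => P ≫ f

/-- The rational subspace of zero-cycles generated by the push-forwards of divisors of rational
functions along all morphisms from smooth proper integral curves. -/
noncomputable def ratTrivial (X : Sch k) : Submodule ℚ (Pt X →₀ ℚ) :=
  Submodule.span ℚ {z | ∃ (C : Sch k) (_ : IsCurve C) (f : C ⟶ X) (h : C.left.functionField)
    (D : Pt C →₀ ℚ), IsDivisorOf C h D ∧ z = push f D}

/-- The Chow group of zero-cycles with rational coefficients (for a proper `k`-scheme `X` over an
algebraically closed field `k`). -/
noncomputable abbrev CH0 (X : Sch k) := (Pt X →₀ ℚ) ⧸ ratTrivial X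

/-- The class of a zero-cycle. -/
noncomputable def cl (X : Sch k) : (Pt X →₀ ℚ) →ₗ[ℚ] CH0 X := (ratTrivial X).mkQ

/-- The germ at the generic point of a global function. -/
noncomputable def genericGerm (X : Scheme.{u}) [IsIntegral X] : Γ(X, ⊤) ⟶ X.functionField :=
  X.presheaf.germ ⊤ (genericPoint X) trivial

/-- The constants as global functions on a `k`-scheme. -/
noncomputable def globalConstants (X : Sch k) : CommRingCat.of k ⟶ Γ(X.left, ⊤) :=
  (Scheme.ΓSpecIso (CommRingCat.of k)).inv ≫ X.hom.appTop

/-- The inclusion of the constants in the function field of a curve. -/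
noncomputable def constants (C : Sch k) [IsCurve C] : k →+* C.left.functionField :=
  (globalConstants C ≫ genericGerm C.left).hom

/-- The structure of a `k`-vector space on the function field of a curve. -/
@[reducible] noncomputable def functionFieldModule (C : Sch k) [IsCurve C] :
    Module k C.left.functionField :=
  Module.compHom _ (constants C)

/-- The nonzero elements `h` of the Riemann-Roch space `L(D)`: those with `div h + D` effective. -/
def rrSet (C : Sch k) [IsCurve C] (D : Pt C →₀ ℤ) : Set C.left.functionField :=
  {h | h ≠ 0 ∧ ∃ E : Pt C →₀ ℕ, ∀ P : Pt C, Scheme.ord h P.point + D P = E P}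

/-- The dimension `ℓ(D)` of the Riemann-Roch space `L(D)` over `k`. -/
noncomputable def ell (C : Sch k) [IsCurve C] (D : Pt C →₀ ℤ) : ℕ :=
  letI := functionFieldModule C
  Module.finrank k (Submodule.span k (rrSet C D))

/-- The genus of the curve `C`: the supremum of the numbers `deg D + 1 - ℓ(D)` over all divisors
`D` on `C` (for `D = 0` this number is `0`). -/
noncomputable def genus (C : Sch k) [IsCurve C] : ℕ∞ :=
  ⨆ D : Pt C →₀ ℤ, (((D.sum fun _ a => a) + 1 - ell C D).toNat : ℕ∞)

end Q58.Chow

namespace Q58

variable {Pt : Type*} {ι : Type*} [Fintype ι] [DecidableEq ι]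

/-- The exterior product of finitely supported functions on `Pt`: the multiplicity of the tuple
`(x_i)` is the product of the multiplicities of the `x_i`. -/
noncomputable def extProd (a : ι → (Pt →₀ ℚ)) : (ι → Pt) →₀ ℚ :=
  Finsupp.onFinset (Fintype.piFinset fun i => (a i).support) (fun x => ∏ i, a i (x i)) (by
    intro x hx
    rw [Fintype.mem_piFinset]
    intro i
    rw [Finsupp.mem_support_iff]
    intro h
    exact hx (Finset.prod_eq_zero (Finset.mem_univ i) h))

end Q58

namespace Q58.Chow

open AlgebraicGeometry CategoryTheory Limits

universe u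

variable {k : Type u} [Field k]

/-- The product `X × Y` of two `k`-schemes (over `k`). -/
noncomputable def prodS (X Y : Sch k) : Sch k := X ⨯ Y

/-- The first projection. -/
noncomputable def fstS (X Y : Sch k) : prodS X Y ⟶ X := prod.fst

/-- The second projection. -/
noncomputable def sndS (X Y : Sch k) : prodS X Y ⟶ Y := prod.snd

/-- The `n`-th power `X^n` of a `k`-scheme (over `k`). -/
noncomputable def powS (X : Sch k) (n : ℕ) : Sch k := ∏ᶜ fun _ : Fin n => X

/-- The point `(x_1, ..., x_n)` of `X^n`. -/
noncomputable def tuple {X : Sch k} {n : ℕ} (x : Fin n → Pt X) : Pt (powS X n) := Pi.lift x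

/-- The exterior product `a_1 × ... × a_n` of zero-cycles on `X`, a zero-cycle on `X^n`: the sum
of `a_1(x_1) ⋯ a_n(x_n) (x_1, ..., x_n)` over all `n`-tuples of points. -/
noncomputable def extCycle {X : Sch k} {n : ℕ} (a : Fin n → (Pt X →₀ ℚ)) :
    Pt (powS X n) →₀ ℚ :=
  (extProd a).mapDomain tuple

end Q58.Chow
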