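import Mathlib

/-!
# Functions on the symmetric group killed by antisymmetrisers

A function `f` on `Perm (Fin n)` is `g`-alternating when its alternating sums over the right cosets
of the symmetric groups of all `(g+1)`-subsets vanish.  Such a function is a sum of the elementary
functions `σ ↦ [w' ∘ σ = w] m`, for words `w, w'` in `g` letters.
-/

namespace Q58

open Finset Equiv

variable {ι : Type*} [Fintype ι] [DecidableEq ι] {n : ℕ} {M : Type*} [AddCommGroup M]

/-- The permutations of `ι` that fix every point outside `T`. -/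
def symOn (T : Finset (ι)) : Finset (Perm (ι)) :=
  univ.filter fun π => ∀ i, i ∉ T → π i = i

lemma mem_symOn {T : Finset (ι)} {π : Perm (ι)} :
    π ∈ symOn T ↔ ∀ i, i ∉ T → π i = i := by simp [symOn]

/-- `f` is killed by the antisymmetrisers of all subsets with `g + 1` elements. -/
def AltFun (g : ℕ) (f : Perm (ι) → M) : Prop :=
  ∀ T : Finset (ι), T.card = g + 1 → ∀ σ : Perm (ι),
    ∑ π ∈ symOn T, ((Perm.sign π : ℤˣ) : ℤ) • f (σ * π) = 0

/-- The elementary function attached to two words. -/
def wordFun {g : ℕ} (w w' : ι → Fin g) (m : M) : Perm (ι) → M :=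
  fun σ => if w' ∘ σ = w then m else 0

lemma AltFun.add {g : ℕ} {f f' : Perm (ι) → M} (hf : AltFun g f) (hf' : AltFun g f') :
    AltFun g (f + f') := by
  intro T hT σ
  have h1 := hf T hT σ
  have h2 := hf' T hT σ
  simp only [Pi.add_apply, smul_add, sum_add_distrib, h1, h2, add_zero]

lemma AltFun.neg {g : ℕ} {f : Perm (ι) → M} (hf : AltFun g f) : AltFun g (-f) := by
  intro T hT σ
  have h1 := hf T hT σ
  simp only [Pi.neg_apply, smul_neg, sum_neg_distrib, h1, neg_zero]

lemma AltFun.sub {g : ℕ} {f f' : Perm (ι) → M} (hf : AltFun g f) (hf' : AltFun g f') :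
    AltFun g (f - f') := by
  rw [sub_eq_add_neg]; exact hf.add hf'.neg

lemma altFun_wordFun {g : ℕ} (w w' : ι → Fin g) (m : M) : AltFun g (wordFun w w' m) := by
  intro T hT σ
  -- two positions of `T` carry the same letter
  obtain ⟨s, hs, t, ht, hst, hw⟩ : ∃ s ∈ T, ∃ t ∈ T, s ≠ t ∧ w s = w t := by
    have : (univ : Finset (Fin g)).card < T.card := by rw [hT]; simp
    obtain ⟨s, hs, t, ht, hne, h⟩ := Finset.exists_ne_map_eq_of_card_lt_of_maps_to this
      (f := w) (fun _ _ => mem_univ _)
    exact ⟨s, hs, t, ht, hne, h⟩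
  refine Finset.sum_involution (fun π _ => π * Equiv.swap s t) ?_ ?_ ?_ ?_
  · intro π hπ
    have hsgn : (Perm.sign (π * Equiv.swap s t) : ℤˣ) = - Perm.sign π := by
      rw [Perm.sign_mul, Perm.sign_swap hst]; simp
    have hval : wordFun w w' m (σ * (π * Equiv.swap s t)) = wordFun w w' m (σ * π) := by
      unfold wordFun
      have hiff : (w' ∘ ⇑(σ * (π * Equiv.swap s t)) = w) ↔ (w' ∘ ⇑(σ * π) = w) := by
        constructor
        · intro h
          funext i
          have := congrFun h (Equiv.swap s t i)
          simp only [Function.comp_apply, Perm.coe_mul, Equiv.swap_apply_self] at this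
          simp only [Function.comp_apply, Perm.coe_mul, this]
          by_cases h1 : i = s
          · subst h1; rw [Equiv.swap_apply_left]; exact hw.symm
          · by_cases h2 : i = t
            · subst h2; rw [Equiv.swap_apply_right]; exact hw
            · rw [Equiv.swap_apply_of_ne_of_ne h1 h2]
        · intro h
          funext i
          have := congrFun h (Equiv.swap s t i)
          simp only [Function.comp_apply, Perm.coe_mul] at this
          simp only [Function.comp_apply, Perm.coe_mul, this]
          by_cases h1 : i = s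
          · subst h1; rw [Equiv.swap_apply_left]; exact hw.symm
          · by_cases h2 : i = t
            · subst h2; rw [Equiv.swap_apply_right]; exact hw
            · rw [Equiv.swap_apply_of_ne_of_ne h1 h2]
      by_cases h : w' ∘ ⇑(σ * π) = w
      · rw [if_pos h, if_pos (hiff.2 h)]
      · rw [if_neg h, if_neg (fun h' => h (hiff.1 h'))]
    rw [hsgn, hval]
    simp
  · intro π hπ _ h
    have : Equiv.swap s t = 1 := by
      have := congrArg (fun x => π⁻¹ * x) h
      simpa using this
    rw [Equiv.swap_eq_one_iff] at this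
    exact hst this
  · intro π hπ
    rw [mem_symOn] at hπ ⊢
    intro i hi
    have h1 : i ≠ s := fun h => hi (h ▸ hs)
    have h2 : i ≠ t := fun h => hi (h ▸ ht)
    rw [Perm.mul_apply, Equiv.swap_apply_of_ne_of_ne h1 h2]
    exact hπ i hi
  · intro π hπ
    simp [mul_assoc]

/-- Lexicographic comparison of permutations. -/
def lexLT (σ τ : Perm (Fin n)) : Prop := toLex (σ : Fin n → Fin n) < toLex (τ : Fin n → Fin n)

lemma lexLT_iff {σ τ : Perm (Fin n)} :
    lexLT σ τ ↔ ∃ t, (∀ s, s < t → σ s = τ s) ∧ σ t < τ t := Iff.rfl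

/-- A permutation that is decreasing on `T` gets smaller when we permute the positions of `T`. -/
lemma lexLT_of_antitone {σ π : Perm (Fin n)} {T : Finset (Fin n)}
    (hσ : ∀ i ∈ T, ∀ j ∈ T, i < j → σ j < σ i) (hπ : ∀ i, i ∉ T → π i = i) (hne : π ≠ 1) :
    lexLT (σ * π) σ := by
  classical
  have hex : ∃ t, π t ≠ t := by
    by_contra h
    push Not at h
    exact hne (Equiv.ext h)
  have hfin : (univ.filter fun t => π t ≠ t).Nonempty := by
    obtain ⟨t, ht⟩ := hex
    exact ⟨t, by simp [ht]⟩
  set t := (univ.filter fun t => π t ≠ t).min' hfin with ht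
  have ht1 : π t ≠ t := by
    have := Finset.min'_mem _ hfin
    rw [← ht] at this
    simpa using this
  have ht2 : ∀ s, s < t → π s = s := by
    intro s hs
    by_contra h
    have : t ≤ s := Finset.min'_le _ _ (by simp [h])
    exact absurd hs (not_lt.2 this)
  have htT : t ∈ T := by
    by_contra h
    exact ht1 (hπ t h)
  have hπtT : π t ∈ T := by
    by_contra h
    have := hπ (π t) h
    exact ht1 (π.injective this)
  have hlt : t < π t := by
    rcases lt_trichotomy (π t) t with h | h | h
    · have := ht2 _ h
      exact absurd (π.injective this) ht1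
    · exact absurd h ht1
    · exact h
  rw [lexLT_iff]
  refine ⟨t, fun s hs => ?_, ?_⟩
  · rw [Perm.mul_apply, ht2 s hs]
  · rw [Perm.mul_apply]
    exact hσ t htT (π t) hπtT hlt

/-- `β` is increasing on the positions of each letter of `w`. -/
def GoodWord {g : ℕ} (β : Perm (Fin n)) (w : Fin n → Fin g) : Prop :=
  ∀ i j, i < j → w i = w j → β i < β j

lemma lexLT_of_goodWord {g : ℕ} {β γ : Perm (Fin n)} {w : Fin n → Fin g} (hβ : GoodWord β w)
    (hγ : (w ∘ ⇑β⁻¹) ∘ ⇑γ = w) (hne : γ ≠ β) : lexLT β γ := by
  classical
  -- write `γ = β ρ`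
  obtain ⟨ρ, rfl⟩ : ∃ ρ, γ = β * ρ := ⟨β⁻¹ * γ, by simp⟩
  have hρw : ∀ i, w (ρ i) = w i := by
    intro i
    have := congrFun hγ i
    simpa using this
  have hρ1 : ρ ≠ 1 := by
    rintro rfl
    exact hne (by simp)
  have hex : ∃ t, ρ t ≠ t := by
    by_contra h
    push Not at h
    exact hρ1 (Equiv.ext h)
  have hfin : (univ.filter fun t => ρ t ≠ t).Nonempty := by
    obtain ⟨t, ht⟩ := hex
    exact ⟨t, by simp [ht]⟩
  set t := (univ.filter fun t => ρ t ≠ t).min' hfin with ht
  have ht1 : ρ t ≠ t := by
    have := Finset.min'_mem _ hfin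
    rw [← ht] at this
    simpa using this
  have ht2 : ∀ s, s < t → ρ s = s := by
    intro s hs
    by_contra h
    have : t ≤ s := Finset.min'_le _ _ (by simp [h])
    exact absurd hs (not_lt.2 this)
  have hlt : t < ρ t := by
    rcases lt_trichotomy (ρ t) t with h | h | h
    · have := ht2 _ h
      exact absurd (ρ.injective this) ht1
    · exact absurd h ht1
    · exact h
  rw [lexLT_iff]
  refine ⟨t, fun s hs => ?_, ?_⟩
  · rw [Perm.mul_apply, ht2 s hs]
  · rw [Perm.mul_apply]
    exact hβ t (ρ t) hlt (hρw t).symm

/-- Either a permutation is a union of `g` increasing sequences, or it has a decreasing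
sequence of length `g + 1`. -/
lemma goodWord_or_decreasing (g : ℕ) (σ : Perm (Fin n)) :
    (∃ w : Fin n → Fin g, GoodWord σ w) ∨
      ∃ T : Finset (Fin n), T.card = g + 1 ∧ ∀ i ∈ T, ∀ j ∈ T, i < j → σ j < σ i := by
  classical
  -- decreasing sets with largest position `j`
  let D : Fin n → Finset (Finset (Fin n)) := fun j =>
    univ.filter fun T => j ∈ T ∧ (∀ i ∈ T, i ≤ j) ∧ ∀ i ∈ T, ∀ i' ∈ T, i < i' → σ i' < σ i
  have hD : ∀ j, ({j} : Finset (Fin n)) ∈ D j := by
    intro j
    simp only [D, mem_filter, mem_univ, true_and, mem_singleton]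
    refine ⟨fun i hi => hi.le, fun i hi i' hi' h => ?_⟩
    subst hi; subst hi'; exact absurd h (lt_irrefl _)
  let c : Fin n → ℕ := fun j => (D j).sup Finset.card
  have hc : ∀ j, ∃ T ∈ D j, T.card = c j := by
    intro j
    obtain ⟨T, hT, h⟩ := Finset.exists_mem_eq_sup (D j) ⟨_, hD j⟩ Finset.card
    exact ⟨T, hT, h.symm⟩
  have hc1 : ∀ j, 1 ≤ c j := fun j => by
    have : ({j} : Finset (Fin n)).card ≤ c j := Finset.le_sup (f := Finset.card) (hD j)
    simpa using this
  by_cases hall : ∀ j, c j ≤ g
  · left
    refine ⟨fun j => ⟨c j - 1, ?_⟩, ?_⟩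
    · have := hall j; have := hc1 j; omega
    · intro i j hij hw
      by_contra hlt
      have hne : σ i ≠ σ j := fun h => hij.ne (σ.injective h)
      have hlt' : σ j < σ i := lt_of_le_of_ne (not_lt.1 hlt) hne.symm
      obtain ⟨T, hT, hTc⟩ := hc i
      simp only [D, mem_filter, mem_univ, true_and] at hT
      obtain ⟨hiT, hle, hdec⟩ := hT
      have hjT : j ∉ T := fun h => absurd (hle j h) (not_le.2 hij)
      have hmem : insert j T ∈ D j := by
        simp only [D, mem_filter, mem_univ, true_and]
        refine ⟨mem_insert_self _ _, ?_, ?_⟩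
        · intro a ha
          rcases mem_insert.1 ha with rfl | ha
          · exact le_rfl
          · exact (hle a ha).trans hij.le
        · intro a ha b hb hab
          rcases mem_insert.1 ha with ha' | ha'
          · subst ha'
            rcases mem_insert.1 hb with hb' | hb'
            · subst hb'; exact absurd hab (lt_irrefl _)
            · exact absurd ((hle b hb').trans_lt hij) (not_lt.2 hab.le)
          · rcases mem_insert.1 hb with hb' | hb'
            · subst hb'
              rcases (hle a ha').eq_or_lt with h | h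
              · subst h; exact hlt'
              · exact hlt'.trans (hdec a ha' i hiT h)
            · exact hdec a ha' b hb' hab
      have hge : (insert j T).card ≤ c j := Finset.le_sup (f := Finset.card) hmem
      rw [card_insert_of_notMem hjT, hTc] at hge
      have h1 := hc1 i
      have h2 := hc1 j
      have h3 : c i - 1 = c j - 1 := by
        have := congrArg Fin.val hw
        simpa using this
      omega
  · right
    push Not at hall
    obtain ⟨j, hj⟩ := hall
    obtain ⟨T, hT, hTc⟩ := hc j
    simp only [D, mem_filter, mem_univ, true_and] at hT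
    obtain ⟨U, hUT, hU⟩ := Finset.exists_subset_card_eq (s := T) (n := g + 1) (by omega)
    exact ⟨U, hU, fun a ha b hb hab => hT.2.2 a (hUT ha) b (hUT hb) hab⟩

/-- Structure of alternating functions on `Perm (Fin n)`. -/
theorem AltFun.mem_closure_fin {g : ℕ} {f : Perm (Fin n) → M} (hf : AltFun g f) :
    f ∈ AddSubgroup.closure {F : Perm (Fin n) → M | ∃ (w w' : Fin n → Fin g) (m : M),
      F = wordFun w w' m} := by
  classical
  -- induction on the size of the upper closure of the support
  suffices H : ∀ (N : ℕ) (f : Perm (Fin n) → M), AltFun g f →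
      (univ.filter fun σ : Perm (Fin n) => ∃ τ, (τ = σ ∨ lexLT τ σ) ∧ f τ ≠ 0).card = N →
      f ∈ AddSubgroup.closure {F : Perm (Fin n) → M | ∃ (w w' : Fin n → Fin g) (m : M),
        F = wordFun w w' m} from H _ f hf rfl
  intro N
  induction N using Nat.strong_induction_on with
  | _ N ih =>
  intro f hf hN
  by_cases hzero : f = 0
  · rw [hzero]; exact AddSubgroup.zero_mem _
  -- the smallest element of the support
  have hne : (univ.filter fun σ : Perm (Fin n) => f σ ≠ 0).Nonempty := by
    by_contra h
    rw [not_nonempty_iff_eq_empty] at h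
    apply hzero
    funext σ
    by_contra hσ
    have : σ ∈ (univ.filter fun σ : Perm (Fin n) => f σ ≠ 0) := by simpa using hσ
    rw [h] at this
    simp at this
  obtain ⟨β, hβmem, hβmin⟩ := Finset.exists_min_image _
    (fun σ : Perm (Fin n) => toLex (σ : Fin n → Fin n)) hne
  have hβ : f β ≠ 0 := by simpa using hβmem
  have hmin : ∀ τ, lexLT τ β → f τ = 0 := by
    intro τ hτ
    by_contra h
    have := hβmin τ (by simpa using h)
    exact absurd hτ (not_lt.2 this)
  rcases goodWord_or_decreasing g β with ⟨w, hw⟩ | ⟨T, hT, hdec⟩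
  · set F : Perm (Fin n) → M := wordFun w (w ∘ ⇑β⁻¹) (f β) with hF
    have hFβ : F β = f β := by
      simp only [hF, wordFun]
      rw [if_pos]
      funext i; simp
    have hF0 : ∀ γ, γ ≠ β → ¬ lexLT β γ → F γ = 0 := by
      intro γ hγ hlt
      simp only [hF, wordFun]
      rw [if_neg]
      intro h
      exact hlt (lexLT_of_goodWord hw h hγ)
    have hlt_card : (univ.filter fun σ : Perm (Fin n) =>
        ∃ τ, (τ = σ ∨ lexLT τ σ) ∧ (f - F) τ ≠ 0).card < N := by
      rw [← hN]
      apply Finset.card_lt_card
      -- all elements of the new support are larger than β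
      have hnew : ∀ τ, (f - F) τ ≠ 0 → lexLT β τ := by
        intro τ hτ
        by_contra hlt
        by_cases hτβ : τ = β
        · apply hτ; rw [hτβ]; simp [hFβ]
        · have hlt' : lexLT τ β := by
            unfold lexLT at hlt ⊢
            rcases lt_trichotomy (toLex (τ : Fin n → Fin n)) (toLex (β : Fin n → Fin n)) with h | h | h
            · exact h
            · exfalso; apply hτβ
              exact DFunLike.coe_injective (toLex.injective h)
            · exact absurd h hlt
          apply hτ
          simp [hmin τ hlt', hF0 τ hτβ hlt]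
      rw [Finset.ssubset_iff_of_subset]
      · refine ⟨β, ?_, ?_⟩
        · simp only [mem_filter, mem_univ, true_and]
          exact ⟨β, Or.inl rfl, hβ⟩
        · simp only [mem_filter, mem_univ, true_and, not_exists, not_and]
          intro τ hτ h
          have h2 := hnew τ h
          rcases hτ with rfl | hτ
          · exact lt_irrefl _ h2
          · exact lt_irrefl _ (lt_trans h2 hτ)
      · intro σ hσ
        simp only [mem_filter, mem_univ, true_and] at hσ ⊢
        obtain ⟨τ, hτ, h⟩ := hσ
        have h2 := hnew τ h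
        refine ⟨β, Or.inr ?_, hβ⟩
        rcases hτ with rfl | hτ
        · exact h2
        · exact lt_trans h2 hτ
    have hmem := ih _ hlt_card (f - F) (hf.sub (altFun_wordFun _ _ _)) rfl
    have hFmem : F ∈ AddSubgroup.closure {F : Perm (Fin n) → M | ∃ (w w' : Fin n → Fin g) (m : M),
        F = wordFun w w' m} := AddSubgroup.subset_closure ⟨_, _, _, hF⟩
    have := AddSubgroup.add_mem _ hmem hFmem
    simpa using this
  · exfalso
    apply hβ
    have h1 := hf T hT β
    have hone : (1 : Perm (Fin n)) ∈ symOn T := by rw [mem_symOn]; simp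
    rw [← Finset.add_sum_erase _ _ hone] at h1
    have h2 : ∑ π ∈ (symOn T).erase 1, ((Perm.sign π : ℤˣ) : ℤ) • f (β * π) = 0 := by
      apply Finset.sum_eq_zero
      intro π hπ
      rw [mem_erase, mem_symOn] at hπ
      rw [hmin (β * π) (lexLT_of_antitone hdec hπ.2 hπ.1), smul_zero]
    rw [h2] at h1
    simpa using h1

/-- **Structure of alternating functions.** -/
theorem AltFun.mem_closure {g : ℕ} {f : Perm ι → M} (hf : AltFun g f) :
    f ∈ AddSubgroup.closure {F : Perm ι → M | ∃ (w w' : ι → Fin g) (m : M),
      F = wordFun w w' m} := by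
  classical
  let e := Fintype.equivFin ι
  let f' : Perm (Fin (Fintype.card ι)) → M := fun σ => f (e.symm.permCongr σ)
  have hf' : AltFun g f' := by
    intro T hT σ
    have h1 := hf (T.map e.symm.toEmbedding) (by rw [card_map]; exact hT) (e.symm.permCongr σ)
    rw [← h1]
    refine Finset.sum_bij (fun π _ => e.symm.permCongr π) ?_ ?_ ?_ ?_
    · intro π hπ
      rw [mem_symOn] at hπ ⊢
      intro i hi
      have : e i ∉ T := by
        intro h
        apply hi
        rw [mem_map_equiv]
        simpa using h
      simp only [Equiv.permCongr_apply, Equiv.symm_symm]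
      rw [hπ _ this]; simp
    · intro π _ π' _ h
      exact (Equiv.injective _) h
    · intro π hπ
      rw [mem_symOn] at hπ
      refine ⟨e.permCongr π, ?_, ?_⟩
      · rw [mem_symOn]
        intro i hi
        have : e.symm i ∉ T.map e.symm.toEmbedding := by
          rw [mem_map_equiv]
          simpa using hi
        simp only [Equiv.permCongr_apply]
        rw [hπ _ this]; simp
      · ext i; simp
    · intro π _
      have hs : Perm.sign (e.symm.permCongr π) = Perm.sign π := Perm.sign_permCongr _ _
      rw [hs]
      congr 1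
      simp only [f']
      congr 1
      ext i; simp
  have h2 := hf'.mem_closure_fin
  -- transport back
  have h3 : ∀ F ∈ AddSubgroup.closure {F : Perm (Fin (Fintype.card ι)) → M |
      ∃ (w w' : Fin (Fintype.card ι) → Fin g) (m : M), F = wordFun w w' m},
      (fun σ : Perm ι => F (e.permCongr σ)) ∈ AddSubgroup.closure {F : Perm ι → M |
        ∃ (w w' : ι → Fin g) (m : M), F = wordFun w w' m} := by
    intro F hF
    refine AddSubgroup.closure_induction (p := fun (F : Perm (Fin (Fintype.card ι)) → M) _ =>
      (fun σ : Perm ι => F (e.permCongr σ)) ∈ AddSubgroup.closure {F : Perm ι → M |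
        ∃ (w w' : ι → Fin g) (m : M), F = wordFun w w' m}) ?_ ?_ ?_ ?_ hF
    · rintro _ ⟨w, w', m, rfl⟩
      apply AddSubgroup.subset_closure
      refine ⟨w ∘ e, w' ∘ e, m, ?_⟩
      funext σ
      unfold wordFun
      have hiff : (w' ∘ ⇑(e.permCongr σ) = w) ↔ ((w' ∘ e) ∘ ⇑σ = w ∘ e) := by
        constructor
        · intro h
          funext i
          have := congrFun h (e i)
          simpa [Equiv.permCongr_apply] using this
        · intro h
          funext i
          have := congrFun h (e.symm i)
          simpa [Equiv.permCongr_apply] using this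
      by_cases h : w' ∘ ⇑(e.permCongr σ) = w
      · rw [if_pos h, if_pos (hiff.1 h)]
      · rw [if_neg h, if_neg (fun h' => h (hiff.2 h'))]
    · exact AddSubgroup.zero_mem _
    · intro F F' _ _ h h'
      exact AddSubgroup.add_mem _ h h'
    · intro F _ h
      exact AddSubgroup.neg_mem _ h
  have h4 := h3 f' h2
  have h5 : (fun σ : Perm ι => f' (e.permCongr σ)) = f := by
    funext σ
    simp only [f']
    congr 1
    ext i; simp
  rwa [h5] at h4

/-- Two alternating functions on `Perm (Fin n)`, with `n > g₁ g₂`, have vanishing signed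
pairing along the diagonal. -/
theorem signed_diagonal_eq_zero {g₁ g₂ : ℕ} (hn : g₁ * g₂ < n) {M₁ M₂ M₃ : Type*}
    [AddCommGroup M₁] [AddCommGroup M₂] [AddCommGroup M₃] (B : M₁ →+ M₂ →+ M₃)
    {f₁ : Perm (Fin n) → M₁} {f₂ : Perm (Fin n) → M₂} (h₁ : AltFun g₁ f₁) (h₂ : AltFun g₂ f₂) :
    ∑ σ : Perm (Fin n), ((Perm.sign σ : ℤˣ) : ℤ) • B (f₁ σ) (f₂ σ) = 0 := by
  classical
  have key : ∀ (w w' : Fin n → Fin g₁) (v v' : Fin n → Fin g₂) (m₁ : M₁) (m₂ : M₂),
      ∑ σ : Perm (Fin n), ((Perm.sign σ : ℤˣ) : ℤ) •
        B (wordFun w w' m₁ σ) (wordFun v v' m₂ σ) = 0 := by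
    intro w w' v v' m₁ m₂
    obtain ⟨s, t, hst, hw⟩ : ∃ s t, s ≠ t ∧ (w s, v s) = (w t, v t) := by
      have : Fintype.card (Fin g₁ × Fin g₂) < Fintype.card (Fin n) := by simpa using hn
      obtain ⟨s, t, hne, h⟩ := Fintype.exists_ne_map_eq_of_card_lt (fun i => (w i, v i)) this
      exact ⟨s, t, hne, h⟩
    have hws : w s = w t := (Prod.ext_iff.1 hw).1
    have hvs : v s = v t := (Prod.ext_iff.1 hw).2
    have inv : ∀ {g : ℕ} (u u' : Fin n → Fin g) (σ : Perm (Fin n)), u s = u t →
        (u' ∘ ⇑(σ * Equiv.swap s t) = u ↔ u' ∘ ⇑σ = u) := by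
      intro g u u' σ hu
      have hswap : ∀ i, u (Equiv.swap s t i) = u i := by
        intro i
        by_cases h1 : i = s
        · subst h1; rw [Equiv.swap_apply_left]; exact hu.symm
        · by_cases h2 : i = t
          · subst h2; rw [Equiv.swap_apply_right]; exact hu
          · rw [Equiv.swap_apply_of_ne_of_ne h1 h2]
      constructor
      · intro h
        funext i
        have := congrFun h (Equiv.swap s t i)
        simp only [Function.comp_apply, Perm.coe_mul, Equiv.swap_apply_self] at this
        simp only [Function.comp_apply, this, hswap]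
      · intro h
        funext i
        have := congrFun h (Equiv.swap s t i)
        simp only [Function.comp_apply] at this
        simp only [Function.comp_apply, Perm.coe_mul, this, hswap]
    refine Finset.sum_involution (fun σ _ => σ * Equiv.swap s t) ?_ ?_ ?_ ?_
    · intro σ _
      have hsgn : (Perm.sign (σ * Equiv.swap s t) : ℤˣ) = - Perm.sign σ := by
        rw [Perm.sign_mul, Perm.sign_swap hst]; simp
      have e1 : wordFun w w' m₁ (σ * Equiv.swap s t) = wordFun w w' m₁ σ := by
        unfold wordFun
        by_cases h : w' ∘ ⇑σ = w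
        · rw [if_pos h, if_pos ((inv w w' σ hws).2 h)]
        · rw [if_neg h, if_neg (fun h' => h ((inv w w' σ hws).1 h'))]
      have e2 : wordFun v v' m₂ (σ * Equiv.swap s t) = wordFun v v' m₂ σ := by
        unfold wordFun
        by_cases h : v' ∘ ⇑σ = v
        · rw [if_pos h, if_pos ((inv v v' σ hvs).2 h)]
        · rw [if_neg h, if_neg (fun h' => h ((inv v v' σ hvs).1 h'))]
      rw [hsgn, e1, e2]
      simp
    · intro σ _ _ h
      have : Equiv.swap s t = 1 := by
        have := congrArg (fun x => σ⁻¹ * x) h
        simpa using this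
      rw [Equiv.swap_eq_one_iff] at this
      exact hst this
    · intro σ _; exact mem_univ _
    · intro σ _
      simp [mul_assoc]
  -- linearity in the first and in the second function
  refine AddSubgroup.closure_induction (p := fun (F : Perm (Fin n) → M₁) _ =>
    ∑ σ : Perm (Fin n), ((Perm.sign σ : ℤˣ) : ℤ) • B (F σ) (f₂ σ) = 0) ?_ ?_ ?_ ?_ h₁.mem_closure
  · rintro _ ⟨w, w', m₁, rfl⟩
    refine AddSubgroup.closure_induction (p := fun (F : Perm (Fin n) → M₂) _ =>
      ∑ σ : Perm (Fin n), ((Perm.sign σ : ℤˣ) : ℤ) • B (wordFun w w' m₁ σ) (F σ) = 0)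
      ?_ ?_ ?_ ?_ h₂.mem_closure
    · rintro _ ⟨v, v', m₂, rfl⟩
      exact key w w' v v' m₁ m₂
    · simp
    · intro F F' _ _ h h'
      simp only [Pi.add_apply, map_add, smul_add, sum_add_distrib, h, h', add_zero]
    · intro F _ h
      simp only [Pi.neg_apply, map_neg, smul_neg, sum_neg_distrib, h, neg_zero]
  · simp
  · intro F F' _ _ h h'
    simp only [Pi.add_apply, map_add, AddMonoidHom.add_apply, smul_add, sum_add_distrib, h, h',
      add_zero]
  · intro F _ h
    simp only [Pi.neg_apply, map_neg, AddMonoidHom.neg_apply, smul_neg, sum_neg_distrib, h,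
      neg_zero]

end Q58
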