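import Pool.Agent.Q37.GU.Stm

/-! Job Q2a of the project GU (helper58): descent of étale algebras. -/

set_option autoImplicit false

open CategoryTheory CategoryTheory.Limits AlgebraicGeometry Topology
open scoped TensorProduct

namespace Q58.GU_Q2a

section gen

variable {k K : Type} [Field k] [Field K] [Algebra k K]

/-- the map `S ⊗ A0 → K ⊗ A0` -/
noncomputable def ph (A0 : Type) [CommRing A0] [Algebra k A0] (S : Subalgebra k K) :
    S ⊗[k] A0 →ₐ[k] K ⊗[k] A0 := Algebra.TensorProduct.map S.val (AlgHom.id k A0)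

theorem ph_inj (A0 : Type) [CommRing A0] [Algebra k A0] (S : Subalgebra k K) :
    Function.Injective (ph A0 S) := by
  have h := Module.Flat.rTensor_preserves_injective_linearMap (M := A0) S.val.toLinearMap
    Subtype.val_injective
  exact h

theorem ph_mono (A0 : Type) [CommRing A0] [Algebra k A0] {S T : Subalgebra k K} (h : S ≤ T) :
    (ph A0 S).range ≤ (ph A0 T).range := by
  rintro _ ⟨x, rfl⟩
  refine ⟨Algebra.TensorProduct.map (Subalgebra.inclusion h) (AlgHom.id k A0) x, ?_⟩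
  have : (ph A0 T).comp (Algebra.TensorProduct.map (Subalgebra.inclusion h) (AlgHom.id k A0)) =
      ph A0 S := by
    unfold ph
    rw [← Algebra.TensorProduct.map_comp]
    rfl
  exact DFunLike.congr_fun this x

theorem ph_fg (A0 : Type) [CommRing A0] [Algebra k A0] (x : K ⊗[k] A0) :
    ∃ S : Subalgebra k K, S.FG ∧ x ∈ (ph A0 S).range := by
  induction x using TensorProduct.induction_on with
  | zero => exact ⟨⊥, Subalgebra.fg_bot, Subalgebra.zero_mem _⟩
  | tmul z a =>
    refine ⟨Algebra.adjoin k {z}, ⟨{z}, by simp⟩, ?_⟩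
    exact ⟨(⟨z, Algebra.self_mem_adjoin_singleton k z⟩ : Algebra.adjoin k {z}) ⊗ₜ a, rfl⟩
  | add x y hx hy =>
    obtain ⟨S, hS, hx⟩ := hx
    obtain ⟨T, hT, hy⟩ := hy
    exact ⟨S ⊔ T, hS.sup hT, Subalgebra.add_mem _ (ph_mono A0 le_sup_left hx)
      (ph_mono A0 le_sup_right hy)⟩

theorem ph_fg_finset (A0 : Type) [CommRing A0] [Algebra k A0] (F : Finset (K ⊗[k] A0)) :
    ∃ S : Subalgebra k K, S.FG ∧ ∀ x ∈ F, x ∈ (ph A0 S).range := by
  classical
  induction F using Finset.induction_on with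
  | empty => exact ⟨⊥, Subalgebra.fg_bot, by simp⟩
  | insert x F _ ih =>
    obtain ⟨S, hS, h⟩ := ih
    obtain ⟨T, hT, hx⟩ := ph_fg A0 x
    refine ⟨S ⊔ T, hS.sup hT, fun y hy => ?_⟩
    rcases Finset.mem_insert.1 hy with rfl | hy
    · exact ph_mono A0 le_sup_right hx
    · exact ph_mono A0 le_sup_left (h y hy)

end gen

section desc

variable {R A' B0 C : Type} [CommRing R] [CommRing A'] [CommRing B0] [CommRing C]
  [Algebra A' R] [Algebra A' B0] [Algebra R C]

theorem adj (e : C ≃ₐ[R] R ⊗[A'] B0) (G0 : Set B0) (hG0 : Algebra.adjoin A' G0 = ⊤) :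
    Algebra.adjoin R ((fun b => e.symm ((1 : R) ⊗ₜ[A'] b)) '' G0) = ⊤ := by
  have h1 : ∀ b : B0, e.symm ((1 : R) ⊗ₜ[A'] b) ∈
      Algebra.adjoin R ((fun b => e.symm ((1 : R) ⊗ₜ[A'] b)) '' G0) := by
    intro b
    have hb : b ∈ Algebra.adjoin A' G0 := by rw [hG0]; exact Algebra.mem_top
    induction hb using Algebra.adjoin_induction with
    | mem x hx => exact Algebra.subset_adjoin ⟨x, hx, rfl⟩
    | algebraMap r =>
      have : e.symm ((1 : R) ⊗ₜ[A'] algebraMap A' B0 r) = algebraMap R C (algebraMap A' R r) := by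
        rw [← e.symm.commutes, Algebra.TensorProduct.algebraMap_apply,
          Algebra.algebraMap_eq_smul_one (A := B0), TensorProduct.tmul_smul,
          TensorProduct.smul_tmul', ← Algebra.algebraMap_eq_smul_one (A := R)]
        rfl
      rw [this]
      exact Subalgebra.algebraMap_mem _ _
    | add x y _ _ hx hy =>
      rw [TensorProduct.tmul_add, map_add]
      exact Subalgebra.add_mem _ hx hy
    | mul x y _ _ hx hy =>
      have : (1 : R) ⊗ₜ[A'] (x * y) = ((1 : R) ⊗ₜ[A'] x) * ((1 : R) ⊗ₜ[A'] y) := by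
        rw [Algebra.TensorProduct.tmul_mul_tmul, one_mul]
      rw [this, map_mul]
      exact Subalgebra.mul_mem _ hx hy
  rw [eq_top_iff]
  intro c _
  have h2 : ∀ w : R ⊗[A'] B0, e.symm w ∈
      Algebra.adjoin R ((fun b => e.symm ((1 : R) ⊗ₜ[A'] b)) '' G0) := by
    intro w
    induction w using TensorProduct.induction_on with
    | zero => rw [map_zero]; exact Subalgebra.zero_mem _
    | tmul r b =>
      have : r ⊗ₜ[A'] b = r • ((1 : R) ⊗ₜ[A'] b) := by
        rw [TensorProduct.smul_tmul', smul_eq_mul, mul_one]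
      rw [this, map_smul]
      exact Subalgebra.smul_mem _ (h1 b) _
    | add x y hx hy => rw [map_add]; exact Subalgebra.add_mem _ hx hy
  have := h2 (e c)
  rwa [AlgEquiv.symm_apply_apply] at this

theorem desc [Algebra.Etale A' B0] (e : C ≃ₐ[R] R ⊗[A'] B0) {T : Type} [CommRing T]
    (φ : T →+* R) (hφ : Function.Injective φ) (a : A' →+* T)
    (ha : ∀ x, φ (a x) = algebraMap A' R x) (G0 : Set B0) (hG0 : Algebra.adjoin A' G0 = ⊤) :
    ∃ (D : Type) (_ : CommRing D) (_ : Algebra T D) (_ : Algebra.Etale T D)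
      (j : D →+* C) (_ : Function.Injective j)
      (_ : ∀ t : T, j (algebraMap T D t) = algebraMap R C (φ t)),
      j.range = Subring.closure (Set.range (fun t : T => algebraMap R C (φ t)) ∪
        ((fun b => e.symm ((1 : R) ⊗ₜ[A'] b)) '' G0)) := by
  letI : Algebra A' T := a.toAlgebra
  let φ' : T →ₐ[A'] R := { φ with commutes' := ha }
  let m : T ⊗[A'] B0 →ₐ[A'] R ⊗[A'] B0 := Algebra.TensorProduct.map φ' (AlgHom.id A' B0)
  have hfl : Module.Flat A' B0 := inferInstance
  have hm : Function.Injective m := by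
    have h := Module.Flat.rTensor_preserves_injective_linearMap (M := B0) φ'.toLinearMap hφ
    exact h
  let j : T ⊗[A'] B0 →+* C := (e.symm : R ⊗[A'] B0 →+* C).comp (m : T ⊗[A'] B0 →+* R ⊗[A'] B0)
  have hj1 : ∀ t : T, j (t ⊗ₜ 1) = algebraMap R C (φ t) := by
    intro t
    rw [← e.symm.commutes, Algebra.TensorProduct.algebraMap_apply]
    rfl
  have hj2 : ∀ b : B0, j ((1 : T) ⊗ₜ b) = e.symm ((1 : R) ⊗ₜ[A'] b) := by
    intro b
    show e.symm (m ((1 : T) ⊗ₜ b)) = _
    have : m ((1 : T) ⊗ₜ b) = (φ' 1) ⊗ₜ b := rfl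
    rw [this, map_one]
  refine ⟨T ⊗[A'] B0, inferInstance, inferInstance, inferInstance, j,
    e.symm.injective.comp hm, fun t => hj1 t, ?_⟩
  apply le_antisymm
  · rintro _ ⟨w, rfl⟩
    have h1 : ∀ b : B0, j ((1 : T) ⊗ₜ b) ∈ Subring.closure
        (Set.range (fun t : T => algebraMap R C (φ t)) ∪
          ((fun b => e.symm ((1 : R) ⊗ₜ[A'] b)) '' G0)) := by
      intro b
      have hb : b ∈ Algebra.adjoin A' G0 := by rw [hG0]; exact Algebra.mem_top
      induction hb using Algebra.adjoin_induction with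
      | mem x hx => rw [hj2]; exact Subring.subset_closure (Or.inr ⟨x, hx, rfl⟩)
      | algebraMap r =>
        have : (1 : T) ⊗ₜ[A'] algebraMap A' B0 r = (algebraMap A' T r) ⊗ₜ 1 := by
          rw [Algebra.algebraMap_eq_smul_one, TensorProduct.tmul_smul, TensorProduct.smul_tmul',
            ← Algebra.algebraMap_eq_smul_one]
        rw [this, hj1]
        exact Subring.subset_closure (Or.inl ⟨_, rfl⟩)
      | add x y _ _ hx hy =>
        rw [TensorProduct.tmul_add, map_add]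
        exact Subring.add_mem _ hx hy
      | mul x y _ _ hx hy =>
        have : (1 : T) ⊗ₜ[A'] (x * y) = ((1 : T) ⊗ₜ[A'] x) * ((1 : T) ⊗ₜ[A'] y) := by
          rw [Algebra.TensorProduct.tmul_mul_tmul, one_mul]
        rw [this, map_mul]
        exact Subring.mul_mem _ hx hy
    induction w using TensorProduct.induction_on with
    | zero => rw [map_zero]; exact Subring.zero_mem _
    | tmul t b =>
      have : t ⊗ₜ[A'] b = (t ⊗ₜ 1) * ((1 : T) ⊗ₜ[A'] b) := by
        rw [Algebra.TensorProduct.tmul_mul_tmul, one_mul, mul_one]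
      rw [this, map_mul]
      refine Subring.mul_mem _ ?_ (h1 b)
      rw [hj1]
      exact Subring.subset_closure (Or.inl ⟨_, rfl⟩)
    | add x y hx hy => rw [map_add]; exact Subring.add_mem _ hx hy
  · rw [Subring.closure_le]
    rintro _ (⟨t, rfl⟩ | ⟨b, _, rfl⟩)
    · exact ⟨t ⊗ₜ 1, hj1 t⟩
    · exact ⟨1 ⊗ₜ b, hj2 b⟩

end desc

theorem gen (k K : Type) [Field k] [Field K] [Algebra k K] (A0 : Type) [CommRing A0]
    [Algebra k A0] (C : Type) [CommRing C]
    [Algebra (K ⊗[k] A0) C] [Algebra.Etale (K ⊗[k] A0) C] :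
  ∃ (S₀ : Subalgebra k K) (_ : S₀.FG) (g : Finset C)
    (_ : Algebra.adjoin (K ⊗[k] A0) (g : Set C) = ⊤), ∀ (S : Subalgebra k K), S₀ ≤ S →
  ∃ (D : Type) (_ : CommRing D) (_ : Algebra (S ⊗[k] A0) D) (_ : Algebra.Etale (S ⊗[k] A0) D)
    (j : D →+* C) (_ : Function.Injective j) (_ : ∀ t : S ⊗[k] A0,
      j (algebraMap (S ⊗[k] A0) D t) =
        algebraMap (K ⊗[k] A0) C (Algebra.TensorProduct.map S.val (AlgHom.id k A0) t)),
    j.range = Subring.closure (Set.range (fun t : S ⊗[k] A0 =>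
      algebraMap (K ⊗[k] A0) C (Algebra.TensorProduct.map S.val (AlgHom.id k A0) t)) ∪ g) := by
  classical
  obtain ⟨A', B0, _, _, hA', hB0, ⟨e⟩⟩ :=
    Algebra.Etale.exists_subalgebra_fg (R := k) (A := K ⊗[k] A0) (B := C)
  obtain ⟨FA, hFA⟩ := hA'
  obtain ⟨S₀, hS₀, hFS⟩ := ph_fg_finset A0 FA
  have hA'S : A' ≤ (ph A0 S₀).range := by
    rw [← hFA]
    exact Algebra.adjoin_le fun x hx => hFS x hx
  have hft : Algebra.FiniteType A' B0 := inferInstance
  obtain ⟨G0, hG0⟩ := hft.out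
  refine ⟨S₀, hS₀, G0.image fun b => e.symm ((1 : K ⊗[k] A0) ⊗ₜ[A'] b), ?_, fun S hS => ?_⟩
  · rw [Finset.coe_image]
    exact adj e _ hG0
  · rw [Finset.coe_image]
    let i := AlgEquiv.ofInjective (ph A0 S) (ph_inj A0 S)
    let a : A' →+* S ⊗[k] A0 := (i.symm : (ph A0 S).range →+* S ⊗[k] A0).comp
      (Subalgebra.inclusion (hA'S.trans (ph_mono A0 hS)) : A' →+* (ph A0 S).range)
    have ha : ∀ x, (ph A0 S : S ⊗[k] A0 →+* K ⊗[k] A0) (a x) = algebraMap A' (K ⊗[k] A0) x := by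
      intro x
      have h := i.apply_symm_apply (Subalgebra.inclusion (hA'S.trans (ph_mono A0 hS)) x)
      exact congrArg Subtype.val h
    exact desc e (ph A0 S : S ⊗[k] A0 →+* K ⊗[k] A0) (ph_inj A0 S) a ha G0 hG0

open Pool.Agent.Q37.GU Pool.Agent.W481

theorem q2a : S_Q2a := by
  intro A0 _ _ C _ _ _
  exact gen Qb ℂ A0 C

end Q58.GU_Q2a
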