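import Pool.Agent.Q61.MH.Stm

/-!
# Project MH, job VAR: four one-variable inequalities
-/

set_option autoImplicit false

open Real

namespace Pool.Agent.Q58.MH

open Pool.Agent.Q61.MH

theorem exp_ge (d : ℝ) (hd : 0 ≤ d) : 1 + d + d ^ 2 / 2 + d ^ 3 / 6 ≤ Real.exp d := by
  have h := Real.sum_le_exp_of_nonneg hd 4
  simp only [Finset.sum_range_succ, Finset.sum_range_zero, Nat.factorial] at h
  norm_num at h
  linarith

theorem key (d R : ℝ) (hd : 0 ≤ d) (hR0 : 0 ≤ R)
    (h : 1 + d ≤ R * (1 + d + d ^ 2 / 2 + d ^ 3 / 6)) :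
    (1 + d) * Real.exp (1 - (1 + d)) ≤ R := by
  have h1 : 1 + d ≤ R * Real.exp d :=
    h.trans (mul_le_mul_of_nonneg_left (exp_ge d hd) hR0)
  have e : Real.exp (1 - (1 + d)) = (Real.exp d)⁻¹ := by
    rw [← Real.exp_neg]; congr 1; ring
  rw [e, ← div_eq_mul_inv, div_le_iff₀ (Real.exp_pos d)]
  exact h1

theorem le_one' (t : ℝ) : t * Real.exp (1 - t) ≤ 1 := by
  have h := Real.add_one_le_exp (t - 1)
  have e : Real.exp (1 - t) = (Real.exp (t - 1))⁻¹ := by
    rw [← Real.exp_neg]; congr 1; ring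
  rw [e, ← div_eq_mul_inv, div_le_one (Real.exp_pos _)]
  linarith

theorem var : S_var := by
  refine ⟨?_, ?_, ?_, ?_⟩
  · intro t h0 h1
    rcases le_or_gt t 1 with ht | ht
    · have := le_one' t
      nlinarith
    · obtain ⟨d, rfl⟩ : ∃ d, t = 1 + d := ⟨t - 1, by ring⟩
      have hd : 0 ≤ d := by linarith
      have hd1 : d ≤ 1 / 5 := by linarith
      refine key d _ hd (by nlinarith) ?_
      have e3 : 0 ≤ d ^ 3 := by positivity
      have a1 : 0 ≤ d ^ 3 * (1 / 5 - d) := mul_nonneg e3 (by linarith)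
      have a2 : 0 ≤ d ^ 4 * (1 / 5 - d) := mul_nonneg (by positivity) (by linarith)
      nlinarith [sq_nonneg (d - 0.0145)]
  · intro t h0 h1
    rcases le_or_gt t 1 with ht | ht
    · have := le_one' t
      nlinarith
    · obtain ⟨d, rfl⟩ : ∃ d, t = 1 + d := ⟨t - 1, by ring⟩
      have hd : 0 ≤ d := by linarith
      have hd1 : d ≤ 3 / 5 := by linarith
      refine key d _ hd (by nlinarith) ?_
      have e3 : 0 ≤ d ^ 3 := by positivity
      have a1 : 0 ≤ d ^ 3 * (3 / 5 - d) := mul_nonneg e3 (by linarith)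
      have a2 : 0 ≤ d ^ 4 * (3 / 5 - d) := mul_nonneg (by positivity) (by linarith)
      nlinarith [sq_nonneg (d - 0.0167)]
  · intro t h0 h1
    rcases le_or_gt t 1 with ht | ht
    · have := le_one' t
      nlinarith
    · obtain ⟨d, rfl⟩ : ∃ d, t = 1 + d := ⟨t - 1, by ring⟩
      have hd : 0 ≤ d := by linarith
      have hd1 : d ≤ 3 / 5 := by linarith
      refine key d _ hd (by nlinarith) ?_
      have e3 : 0 ≤ d ^ 3 := by positivity
      have a1 : 0 ≤ d ^ 3 * (3 / 5 - d) := mul_nonneg e3 (by linarith)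
      have a2 : 0 ≤ d ^ 4 * (3 / 5 - d) := mul_nonneg (by positivity) (by linarith)
      nlinarith [sq_nonneg (d - 0.0025)]
  · intro t h0 h1
    rcases le_or_gt t 1 with ht | ht
    · have := le_one' t
      have h2 : t ^ 2 ≤ 1 := by nlinarith
      have h4 : t ^ 4 ≤ 1 := by nlinarith [sq_nonneg (t ^ 2)]
      nlinarith
    · obtain ⟨d, rfl⟩ : ∃ d, t = 1 + d := ⟨t - 1, by ring⟩
      have hd : 0 ≤ d := by linarith
      have hd4 : d ≤ 4 := by linarith
      rcases le_or_gt d 2 with h2 | h2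
      · have hm2 : (1 + d) ^ 2 ≤ 9 := by nlinarith
        have hm4 : (1 + d) ^ 4 ≤ 81 := by
          have : (1 + d) ^ 4 = ((1 + d) ^ 2) ^ 2 := by ring
          rw [this]
          nlinarith [sq_nonneg (1 + d)]
        refine key d _ hd (by linarith) ?_
        have a3 : 0 ≤ d ^ 3 * (2 - d) := mul_nonneg (by positivity) (by linarith)
        have a4 : 0 ≤ d ^ 4 * (2 - d) := mul_nonneg (by positivity) (by linarith)
        have a5 : 0 ≤ d ^ 5 * (2 - d) := mul_nonneg (by positivity) (by linarith)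
        have a6 : 0 ≤ d ^ 6 * (2 - d) := mul_nonneg (by positivity) (by linarith)
        have e3 : 0 ≤ d ^ 3 := by positivity
        nlinarith [sq_nonneg (d - 0.0249)]
      · rcases le_or_gt d 3 with h3 | h3
        · have hm2 : (1 + d) ^ 2 ≤ 16 := by nlinarith
          have hm4 : (1 + d) ^ 4 ≤ 256 := by
            have : (1 + d) ^ 4 = ((1 + d) ^ 2) ^ 2 := by ring
            rw [this]
            nlinarith [sq_nonneg (1 + d)]
          have := key d 0.48 hd (by norm_num) (by nlinarith [mul_pos (sub_pos.2 h2) (sub_pos.2 h2), pow_pos (sub_pos.2 h2) 3])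
          linarith
        · have hm2 : (1 + d) ^ 2 ≤ 25 := by nlinarith
          have hm4 : (1 + d) ^ 4 ≤ 625 := by
            have : (1 + d) ^ 4 = ((1 + d) ^ 2) ^ 2 := by ring
            rw [this]
            nlinarith [sq_nonneg (1 + d)]
          have := key d 0.336 hd (by norm_num) (by nlinarith [mul_pos (sub_pos.2 h3) (sub_pos.2 h3), pow_pos (sub_pos.2 h3) 3])
          linarith

end Pool.Agent.Q58.MH
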