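import Mathlib

/-!
# Power sums determine products, and the ideal generated by power sums of principal divisors
-/

namespace Q58

open Finset MvPolynomial

variable {Pt : Type*}

/-- Two families with the same power sums have the same shifted product. -/
theorem prod_sub_eq_of_psum {R : Type*} [CommRing R] [Algebra ℚ R] {ι : Type*} [Fintype ι]
    (u v : ι → R) (h : ∀ j, 1 ≤ j → ∑ i, u i ^ j = ∑ i, v i ^ j) (r : R) :
    ∏ i, (r - u i) = ∏ i, (r - v i) := by
  classical
  have hp : ∀ j, 1 ≤ j → aeval u (psum ι ℚ j) = aeval v (psum ι ℚ j) := by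
    intro j hj
    simp only [psum, map_sum, map_pow, aeval_X]
    exact h j hj
  have he : ∀ k, aeval u (esymm ι ℚ k) = aeval v (esymm ι ℚ k) := by
    intro k
    induction k using Nat.strong_induction_on with
    | _ k ih =>
    rcases Nat.eq_zero_or_pos k with rfl | hk
    · simp
    have hN := mul_esymm_eq_sum ι ℚ k
    have hu := congrArg (aeval u) hN
    have hv := congrArg (aeval v) hN
    simp only [map_mul, map_sum, map_pow, map_neg, map_one, map_natCast] at hu hv
    have hsum : ∑ a ∈ antidiagonal k with a.1 < k, (-1 : R) ^ a.1 * (aeval u) (esymm ι ℚ a.1) *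
          (aeval u) (psum ι ℚ a.2) =
        ∑ a ∈ antidiagonal k with a.1 < k, (-1 : R) ^ a.1 * (aeval v) (esymm ι ℚ a.1) *
          (aeval v) (psum ι ℚ a.2) := by
      apply Finset.sum_congr rfl
      intro a ha
      rw [mem_filter, HasAntidiagonal.mem_antidiagonal] at ha
      rw [ih a.1 ha.2, hp a.2 (by omega)]
    rw [hsum, ← hv] at hu
    have hkR : IsUnit ((k : ℕ) : R) := by
      have : ((k : ℕ) : R) = algebraMap ℚ R (k : ℚ) := by simp
      rw [this]
      exact (IsUnit.mk0 (k : ℚ) (by exact_mod_cast hk.ne')).map _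
    exact hkR.mul_left_cancel hu
  have hexp : ∀ w : ι → R, ∏ i, (r - w i) =
      (-1) ^ (Fintype.card ι) * ∑ j ∈ range (Fintype.card ι + 1),
        aeval w (esymm ι ℚ j) * (-r) ^ (Fintype.card ι - j) := by
    intro w
    have h1 := prod_C_add_X_eq_sum_esymm ℚ ι
    have h2 := congrArg (Polynomial.eval₂ ((aeval w : MvPolynomial ι ℚ →ₐ[ℚ] R) :
      MvPolynomial ι ℚ →+* R) (-r)) h1
    rw [Polynomial.eval₂_finsetProd, Polynomial.eval₂_finsetSum] at h2
    simp only [Polynomial.eval₂_add, Polynomial.eval₂_X, Polynomial.eval₂_C, Polynomial.eval₂_mul,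
      Polynomial.eval₂_pow, RingHom.coe_coe, aeval_X] at h2
    rw [← h2, Fintype.card, ← Finset.prod_const, ← Finset.prod_mul_distrib]
    apply Finset.prod_congr rfl
    intro i _
    ring
  rw [hexp u, hexp v]
  simp only [he]

/-- A multiset of cardinality `card ι` is the image of a family indexed by `ι`. -/
lemma exists_family {ι : Type*} [Fintype ι] (S : Multiset Pt) (hS : Multiset.card S = Fintype.card ι) :
    ∃ v : ι → Pt, (univ : Finset ι).val.map v = S := by
  classical
  let e := Fintype.equivFin ι
  have hl : S.toList.length = Fintype.card ι := by simp [hS]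
  refine ⟨fun i => S.toList.get (Fin.cast hl.symm (e i)), ?_⟩
  have h1 : (univ : Finset ι).val.map (fun i => S.toList.get (Fin.cast hl.symm (e i))) =
      (univ : Finset (Fin S.toList.length)).val.map S.toList.get := by
    have h2 := Multiset.map_univ_val_equiv (e.trans (finCongr hl.symm))
    rw [← h2, Multiset.map_map]
    rfl
  rw [h1, Fin.univ_val_map, List.ofFn_get, Multiset.coe_toList]

/-- The `j`-th power sum of a zero-cycle. -/
noncomputable def pw (j : ℕ) (D : Pt →₀ ℚ) : MvPolynomial Pt ℚ := D.sum fun x a => a • X x ^ j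

lemma pw_add (j : ℕ) (D D' : Pt →₀ ℚ) : pw j (D + D') = pw j D + pw j D' := by
  unfold pw
  rw [Finsupp.sum_add_index']
  · intro; simp
  · intro a b c; rw [add_smul]

lemma pw_single (j : ℕ) (x : Pt) (a : ℚ) : pw j (Finsupp.single x a) = a • X x ^ j := by
  unfold pw
  rw [Finsupp.sum_single_index]; simp

lemma pw_neg (j : ℕ) (D : Pt →₀ ℚ) : pw j (-D) = - pw j D := by
  unfold pw
  rw [Finsupp.sum_neg_index]
  · simp [Finsupp.sum]
  · intro; simp

lemma pw_sub (j : ℕ) (D D' : Pt →₀ ℚ) : pw j (D - D') = pw j D - pw j D' := by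
  rw [sub_eq_add_neg, pw_add, pw_neg, sub_eq_add_neg]

lemma pw_sum {κ : Type*} (s : Finset κ) (j : ℕ) (D : κ → Pt →₀ ℚ) :
    pw j (∑ i ∈ s, D i) = ∑ i ∈ s, pw j (D i) := by
  classical
  induction s using Finset.induction_on with
  | empty => simp [pw]
  | insert a s ha ih => rw [sum_insert ha, sum_insert ha, pw_add, ih]

/-- The ideal generated by the power sums of the principal divisors. -/
noncomputable def powIdeal (Prin : Set (Pt →₀ ℚ)) : Ideal (MvPolynomial Pt ℚ) :=
  Ideal.span {f | ∃ j, ∃ D ∈ Prin, f = pw j D}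

/-- Key vanishing: if every family of points indexed by `ι`, minus any point, is linearly
equivalent to an effective divisor, then products of differences of points vanish. -/
theorem prod_X_sub_mem {ι : Type*} [Fintype ι] (Prin : Set (Pt →₀ ℚ))
    (hR : ∀ (s : ι → Pt) (o : Pt), ∃ E : Multiset Pt,
      (∑ i, Finsupp.single (s i) (1 : ℚ) - Finsupp.single o 1 -
        (E.map fun x => Finsupp.single x (1 : ℚ)).sum) ∈ Prin)
    (s : ι → Pt) (o : Pt) :
    ∏ i, (X (s i) - X o) ∈ powIdeal (Pt := Pt) Prin := by
  classical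
  obtain ⟨E, hE⟩ := hR s o
  have hpwE : ∀ j, pw j ((E.map fun x => Finsupp.single x (1 : ℚ)).sum) =
      (E.map fun x => (X x : MvPolynomial Pt ℚ) ^ j).sum := by
    intro j
    clear hE
    induction E using Multiset.induction_on with
    | empty => simp [pw]
    | cons a E ih =>
      simp only [Multiset.map_cons, Multiset.sum_cons]
      rw [pw_add, pw_single, ih, one_smul]
  have hmem : ∀ j, (∑ i, (X (s i) : MvPolynomial Pt ℚ) ^ j - X o ^ j -
      (E.map fun x => (X x : MvPolynomial Pt ℚ) ^ j).sum) ∈ powIdeal Prin := by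
    intro j
    have : pw j (∑ i, Finsupp.single (s i) (1 : ℚ) - Finsupp.single o 1 -
        (E.map fun x => Finsupp.single x (1 : ℚ)).sum) ∈ powIdeal Prin :=
      Ideal.subset_span ⟨j, _, hE, rfl⟩
    rw [pw_sub, pw_sub, pw_sum, hpwE, pw_single] at this
    simpa [pw_single] using this
  by_cases hdeg : Multiset.card E + 1 = Fintype.card ι
  · obtain ⟨v, hv⟩ := exists_family (ι := ι) (o ::ₘ E) (by simpa using hdeg)
    have hpows : ∀ j, ∑ i, (X (v i) : MvPolynomial Pt ℚ) ^ j =
        X o ^ j + (E.map fun x => (X x : MvPolynomial Pt ℚ) ^ j).sum := by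
      intro j
      have h1 : ∑ i, (X (v i) : MvPolynomial Pt ℚ) ^ j =
          (((univ : Finset ι).val.map v).map fun x => (X x : MvPolynomial Pt ℚ) ^ j).sum := by
        rw [Multiset.map_map]; rfl
      rw [h1, hv, Multiset.map_cons, Multiset.sum_cons]
    have hkey : ∏ i, ((Ideal.Quotient.mk (powIdeal Prin)) (X o) -
          (Ideal.Quotient.mk (powIdeal Prin)) (X (s i))) =
        ∏ i, ((Ideal.Quotient.mk (powIdeal Prin)) (X o) -
          (Ideal.Quotient.mk (powIdeal Prin)) (X (v i))) := by
      apply prod_sub_eq_of_psum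
      intro j _
      simp only [← map_pow, ← map_sum]
      rw [Ideal.Quotient.eq, hpows j, ← sub_sub]
      exact hmem j
    have hzero : ∏ i, ((Ideal.Quotient.mk (powIdeal Prin)) (X o) -
          (Ideal.Quotient.mk (powIdeal Prin)) (X (v i))) = 0 := by
      have ho : o ∈ (univ : Finset ι).val.map v := by rw [hv]; simp
      rw [Multiset.mem_map] at ho
      obtain ⟨i, _, hi⟩ := ho
      apply Finset.prod_eq_zero (mem_univ i)
      rw [hi, sub_self]
    rw [hzero] at hkey
    have : (Ideal.Quotient.mk (powIdeal Prin)) (∏ i, (X (s i) - X o)) = 0 := by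
      rw [map_prod]
      have h2 : ∏ i, (Ideal.Quotient.mk (powIdeal Prin)) (X (s i) - X o) =
          (-1) ^ (Fintype.card ι) * ∏ i, ((Ideal.Quotient.mk (powIdeal Prin)) (X o) -
            (Ideal.Quotient.mk (powIdeal Prin)) (X (s i))) := by
        rw [Fintype.card, ← Finset.prod_const, ← Finset.prod_mul_distrib]
        apply Finset.prod_congr rfl
        intro i _
        rw [map_sub]; ring
      rw [h2, hkey, mul_zero]
    rwa [Ideal.Quotient.eq_zero_iff_mem] at this
  · -- the principal divisor has nonzero degree, so the ideal is everything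
    have h0 := hmem 0
    have htop : powIdeal Prin = ⊤ := by
      apply Ideal.eq_top_of_isUnit_mem _ h0
      have : (∑ i, (X (s i) : MvPolynomial Pt ℚ) ^ 0 - X o ^ 0 -
          (E.map fun x => (X x : MvPolynomial Pt ℚ) ^ 0).sum) =
          C ((Fintype.card ι : ℚ) - 1 - (Multiset.card E : ℚ)) := by
        simp [← Finset.card_univ]
      rw [this]
      apply IsUnit.map
      apply IsUnit.mk0
      intro h
      apply hdeg
      have h3 : ((Multiset.card E : ℚ) + 1) = (Fintype.card ι : ℚ) := by linarith
      exact_mod_cast h3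
    rw [htop]; exact Submodule.mem_top

end Q58
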