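import Mathlib
import Pool.Agent.Q58.Comb
import Pool.Agent.Q58.Newton
import Pool.Agent.Q58.ChowDefs

/-!
# Exterior products of zero-cycles in several slots, modulo diagonal relations
-/

namespace Q58

open Finset MvPolynomial Equiv

variable {Pt : Type*} {ι : Type*} [Fintype ι] [DecidableEq ι]

@[simp] lemma extProd_apply (a : ι → (Pt →₀ ℚ)) (x : ι → Pt) :
    extProd a x = ∏ i, a i (x i) := rfl

/-- `extProd` as a multilinear map. -/
noncomputable def extProdM (Pt : Type*) (ι : Type*) [Fintype ι] [DecidableEq ι] :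
    MultilinearMap ℚ (fun _ : ι => (Pt →₀ ℚ)) ((ι → Pt) →₀ ℚ) :=
  MultilinearMap.mk' extProd
    (by
      intro m i x y
      ext z
      simp only [extProd_apply, Finsupp.add_apply]
      rw [← Finset.mul_prod_erase _ _ (mem_univ i), ← Finset.mul_prod_erase _ _ (mem_univ i),
        ← Finset.mul_prod_erase _ _ (mem_univ i)]
      simp only [Function.update_self, Finsupp.add_apply]
      have : ∀ w : Pt →₀ ℚ, ∏ j ∈ univ.erase i, (Function.update m i w j) (z j) =
          ∏ j ∈ univ.erase i, (m j) (z j) := by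
        intro w
        apply Finset.prod_congr rfl
        intro j hj
        rw [Function.update_of_ne (ne_of_mem_erase hj)]
      rw [this, this, this, add_mul])
    (by
      intro m i c x
      ext z
      simp only [extProd_apply, Finsupp.smul_apply, smul_eq_mul]
      rw [← Finset.mul_prod_erase _ _ (mem_univ i), ← Finset.mul_prod_erase _ _ (mem_univ i)]
      simp only [Function.update_self, Finsupp.smul_apply, smul_eq_mul]
      have : ∀ w : Pt →₀ ℚ, ∏ j ∈ univ.erase i, (Function.update m i w j) (z j) =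
          ∏ j ∈ univ.erase i, (m j) (z j) := by
        intro w
        apply Finset.prod_congr rfl
        intro j hj
        rw [Function.update_of_ne (ne_of_mem_erase hj)]
      rw [this, this, mul_assoc])

@[simp] lemma extProdM_apply (a : ι → (Pt →₀ ℚ)) : extProdM Pt ι a = extProd a := rfl

lemma extProd_single (x : ι → Pt) :
    extProd (fun i => Finsupp.single (x i) (1 : ℚ)) = Finsupp.single x 1 := by
  classical
  ext z
  rw [extProd_apply]
  by_cases h : x = z
  · subst h; simp
  · rw [Finsupp.single_eq_of_ne (fun h' => h h'.symm)]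
    obtain ⟨i, hi⟩ := Function.ne_iff.1 h
    apply Finset.prod_eq_zero (mem_univ i)
    rw [Finsupp.single_eq_of_ne (fun h' => hi h'.symm)]

/-- The array equal to `x` on `A` and to `z` elsewhere. -/
def diagArr (z : ι → Pt) (A : Finset ι) (x : Pt) : ι → Pt := fun i => if i ∈ A then x else z i

/-- The relations coming from the diagonal-type maps `x ↦ diagArr z A x`. -/
noncomputable def diagRel (ι : Type*) [Fintype ι] [DecidableEq ι] (Prin : Set (Pt →₀ ℚ)) :
    Submodule ℚ ((ι → Pt) →₀ ℚ) :=
  Submodule.span ℚ {f | ∃ (z : ι → Pt) (A : Finset ι), ∃ D ∈ Prin,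
    f = Finsupp.mapDomain (diagArr z A) D}

/-- The quotient by the diagonal relations. -/
abbrev SlotQuot (ι : Type*) [Fintype ι] [DecidableEq ι] (Prin : Set (Pt →₀ ℚ)) :=
  ((ι → Pt) →₀ ℚ) ⧸ diagRel ι Prin

/-- Two families with the same formal sum differ by a permutation. -/
lemma exists_perm_of_sum_eq {κ : Type*} [Fintype κ] (y y' : κ → Pt)
    (h : ∑ t, Finsupp.single (y t) 1 = ∑ t, (Finsupp.single (y' t) 1 : Pt →₀ ℕ)) :
    ∃ ρ : Perm κ, y' = y ∘ ρ := by
  classical
  have hcard : ∀ c, Fintype.card {t // y' t = c} = Fintype.card {t // y t = c} := by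
    intro c
    have h1 := DFunLike.congr_fun h c
    simp only [Finsupp.finsetSum_apply, Finsupp.single_apply] at h1
    rw [Fintype.card_subtype, Fintype.card_subtype, Finset.card_filter, Finset.card_filter]
    exact h1.symm
  have e : ∀ c, {t // y' t = c} ≃ {t // y t = c} := fun c => Fintype.equivOfCardEq (hcard c)
  refine ⟨Equiv.ofFiberEquiv e, ?_⟩
  funext t
  exact (Equiv.ofFiberEquiv_map e t).symm

/-- A finitely supported function of degree `card κ` is the sum of a family. -/
lemma exists_family_finsupp {κ : Type*} [Fintype κ] (μ : Pt →₀ ℕ)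
    (h : μ.sum (fun _ a => a) = Fintype.card κ) :
    ∃ y : κ → Pt, ∑ t, (Finsupp.single (y t) 1 : Pt →₀ ℕ) = μ := by
  classical
  obtain ⟨v, hv⟩ := exists_family (ι := κ) (Finsupp.toMultiset μ) (by
    rw [Finsupp.card_toMultiset]; exact h)
  refine ⟨v, ?_⟩
  apply (Function.LeftInverse.injective Finsupp.toMultiset_toFinsupp)
  rw [← hv, map_sum]
  simp only [Finsupp.toMultiset_single, one_smul]
  rw [Finset.sum_eq_multiset_sum, ← Multiset.sum_map_singleton ((univ : Finset κ).val.map v),
    Multiset.map_map]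
  rfl

section

variable {W : Type*} [AddCommGroup W] [Module ℚ W] {κ : Type*} [Fintype κ] [DecidableEq κ]

open Classical in
/-- The linear map on polynomials attached to a symmetrised function on families of points. -/
noncomputable def symL (Φ : (κ → Pt) → W) : MvPolynomial Pt ℚ →ₗ[ℚ] W :=
  (MvPolynomial.basisMonomials Pt ℚ).constr ℚ fun μ =>
    if h : ∃ y : κ → Pt, ∑ t, (Finsupp.single (y t) 1 : Pt →₀ ℕ) = μ then
      ∑ π : Perm κ, Φ (h.choose ∘ π) else 0

lemma symL_monomial_of_sum (Φ : (κ → Pt) → W) (y : κ → Pt) :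
    symL Φ (monomial (∑ t, (Finsupp.single (y t) 1 : Pt →₀ ℕ)) 1) = ∑ π : Perm κ, Φ (y ∘ π) := by
  classical
  have h : ∃ y' : κ → Pt, ∑ t, (Finsupp.single (y' t) 1 : Pt →₀ ℕ) =
    ∑ t, (Finsupp.single (y t) 1 : Pt →₀ ℕ) := ⟨y, rfl⟩
  have h1 : symL Φ (monomial (∑ t, (Finsupp.single (y t) 1 : Pt →₀ ℕ)) 1) =
      ∑ π : Perm κ, Φ (h.choose ∘ π) := by
    unfold symL
    rw [show (monomial (∑ t, (Finsupp.single (y t) 1 : Pt →₀ ℕ)) (1 : ℚ)) =
      MvPolynomial.basisMonomials Pt ℚ (∑ t, (Finsupp.single (y t) 1 : Pt →₀ ℕ)) from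
      (congrFun (MvPolynomial.coe_basisMonomials Pt ℚ) _).symm]
    rw [Module.Basis.constr_basis]
    rw [dif_pos h]
  rw [h1]
  obtain ⟨ρ, hρ⟩ := exists_perm_of_sum_eq y h.choose h.choose_spec.symm
  rw [hρ]
  rw [← Equiv.sum_comp (Equiv.mulLeft ρ) (fun π : Perm κ => Φ (y ∘ π))]
  rfl

lemma symL_monomial_of_not (Φ : (κ → Pt) → W) (μ : Pt →₀ ℕ)
    (h : μ.sum (fun _ a => a) ≠ Fintype.card κ) : symL Φ (monomial μ 1) = 0 := by
  classical
  unfold symL
  rw [show (monomial μ (1 : ℚ)) = MvPolynomial.basisMonomials Pt ℚ μ from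
      (congrFun (MvPolynomial.coe_basisMonomials Pt ℚ) _).symm]
  rw [Module.Basis.constr_basis]
  rw [dif_neg]
  rintro ⟨y, hy⟩
  apply h
  rw [← hy]
  have : ∀ s : Finset κ, (∑ t ∈ s, (Finsupp.single (y t) 1 : Pt →₀ ℕ)).sum (fun _ a => a) =
      s.card := by
    intro s
    induction s using Finset.induction_on with
    | empty => simp
    | insert a s ha ih =>
      rw [sum_insert ha, Finsupp.sum_add_index' (fun _ => rfl) (fun _ _ _ => rfl), ih,
        Finsupp.sum_single_index rfl, card_insert_of_notMem ha]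
      omega
  rw [this univ, card_univ]

lemma symL_prod_X (Φ : (κ → Pt) → W) (y : κ → Pt) :
    symL Φ (∏ t, X (y t)) = ∑ π : Perm κ, Φ (y ∘ π) := by
  rw [← symL_monomial_of_sum]
  rw [MvPolynomial.monomial_sum_one]
  rfl

/-- `symL` kills the multiples of the power sums of a principal divisor if `Φ` kills the
diagonal relations. -/
lemma symL_mul_pw (Φ : (κ → Pt) → W) (D : Pt →₀ ℚ)
    (hΦ : ∀ (A : Finset κ) (z : κ → Pt), D.sum (fun x a => a • Φ (diagArr z A x)) = 0)
    (μ : Pt →₀ ℕ) (j : ℕ) : symL Φ (monomial μ 1 * pw j D) = 0 := by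
  classical
  have hexp : monomial μ (1 : ℚ) * pw j D =
      D.sum fun x a => a • (monomial (μ + Finsupp.single x j) (1 : ℚ)) := by
    unfold pw Finsupp.sum
    rw [Finset.mul_sum]
    apply Finset.sum_congr rfl
    intro x _
    rw [mul_smul_comm, X_pow_eq_monomial, monomial_mul, one_mul]
  rw [hexp]
  by_cases hdeg : μ.sum (fun _ a => a) + j = Fintype.card κ
  · -- enumerate
    obtain ⟨A, hA⟩ := Finset.exists_subset_card_eq (s := (univ : Finset κ)) (n := j)
      (by rw [card_univ]; omega)
    obtain ⟨u, hu⟩ := exists_family_finsupp (κ := {t // t ∉ A}) μ (by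
      rw [Fintype.card_subtype_compl]
      simp only [Fintype.card_coe]
      omega)
    by_cases hne : Nonempty Pt
    · obtain ⟨p0⟩ := hne
      let z : κ → Pt := fun t => if h : t ∉ A then u ⟨t, h⟩ else p0
      have hz : ∀ x, ∑ t, (Finsupp.single (diagArr z A x t) 1 : Pt →₀ ℕ) =
          μ + Finsupp.single x j := by
        intro x
        rw [← Finset.sum_add_sum_compl A, add_comm]
        congr 1
        · rw [← hu]
          rw [Finset.sum_subtype (s := Aᶜ) (p := fun t => t ∉ A) (by simp)
            (fun t => (Finsupp.single (diagArr z A x t) 1 : Pt →₀ ℕ))]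
          apply Finset.sum_congr rfl
          intro t _
          simp only [diagArr, z, if_neg t.2, dif_pos t.2]
        · have : ∀ t ∈ A, (Finsupp.single (diagArr z A x t) 1 : Pt →₀ ℕ) =
              Finsupp.single x 1 := by
            intro t ht
            simp only [diagArr, if_pos ht]
          rw [Finset.sum_congr rfl this, Finset.sum_const, hA.2]
          simp
      have hterm : ∀ x, symL Φ (monomial (μ + Finsupp.single x j) 1) =
          ∑ π : Perm κ, Φ (diagArr z A x ∘ π) := by
        intro x
        rw [← hz x, symL_monomial_of_sum]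
      unfold Finsupp.sum
      rw [map_sum]
      simp only [map_smul, hterm, Finset.smul_sum]
      rw [Finset.sum_comm]
      apply Finset.sum_eq_zero
      intro π _
      have hcomp : ∀ x, diagArr z A x ∘ π = diagArr (z ∘ π) (univ.filter fun t => π t ∈ A) x := by
        intro x
        funext t
        simp only [diagArr, Function.comp_apply, mem_filter, mem_univ, true_and]
      simp only [hcomp]
      exact hΦ _ _
    · have : IsEmpty Pt := not_nonempty_iff.1 hne
      have hD : D = 0 := by ext x; exact (this.false x).elim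
      rw [hD]; simp
  · unfold Finsupp.sum
    rw [map_sum]
    apply Finset.sum_eq_zero
    intro x _
    rw [map_smul, symL_monomial_of_not, smul_zero]
    rw [Finsupp.sum_add_index' (fun _ => rfl) (fun _ _ _ => rfl), Finsupp.sum_single_index rfl]
    exact hdeg

lemma symL_eq_zero_of_mem (Φ : (κ → Pt) → W) (Prin : Set (Pt →₀ ℚ))
    (hΦ : ∀ D ∈ Prin, ∀ (A : Finset κ) (z : κ → Pt),
      D.sum (fun x a => a • Φ (diagArr z A x)) = 0)
    {f : MvPolynomial Pt ℚ} (hf : f ∈ powIdeal Prin) : symL Φ f = 0 := by
  classical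
  have hgen : ∀ D ∈ Prin, ∀ j, ∀ r : MvPolynomial Pt ℚ, symL Φ (r * pw j D) = 0 := by
    intro D hD j r
    induction r using MvPolynomial.induction_on' with
    | monomial μ a =>
      have : monomial μ a = a • monomial μ (1 : ℚ) := by
        rw [MvPolynomial.smul_monomial, smul_eq_mul, mul_one]
      rw [this, smul_mul_assoc, map_smul, symL_mul_pw Φ D (hΦ D hD), smul_zero]
    | add p q hp hq => rw [add_mul, map_add, hp, hq, add_zero]
  suffices H : ∀ r : MvPolynomial Pt ℚ, symL Φ (r * f) = 0 by
    have := H 1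
    rwa [one_mul] at this
  unfold powIdeal at hf
  induction hf using Submodule.span_induction with
  | mem x hx =>
    obtain ⟨j, D, hD, rfl⟩ := hx
    exact hgen D hD j
  | zero => intro r; simp
  | add x y _ _ hx hy => intro r; rw [mul_add, map_add, hx, hy, add_zero]
  | smul a x _ hx => intro r; rw [smul_eq_mul, ← mul_assoc]; exact hx _

/-- The linear map `D ↦ ∑ D(x) X_x`. -/
noncomputable def linX (Pt : Type*) : (Pt →₀ ℚ) →ₗ[ℚ] MvPolynomial Pt ℚ :=
  Finsupp.linearCombination ℚ (fun x => (X x : MvPolynomial Pt ℚ))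

lemma linX_single (x : Pt) : linX Pt (Finsupp.single x 1) = X x := by
  unfold linX
  rw [Finsupp.linearCombination_single, one_smul]

/-- The symmetrised multilinear map is the value of `symL` on a product. -/
lemma symL_prod_linX (E : MultilinearMap ℚ (fun _ : κ => (Pt →₀ ℚ)) W) (D : κ → (Pt →₀ ℚ)) :
    symL (fun y => E fun t => Finsupp.single (y t) 1) (∏ t, linX Pt (D t)) =
      ∑ π : Perm κ, E (fun t => D (π t)) := by
  classical
  let F : MultilinearMap ℚ (fun _ : κ => (Pt →₀ ℚ)) W :=
    (symL (fun y => E fun t => Finsupp.single (y t) 1)).compMultilinearMap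
      ((MultilinearMap.mkPiAlgebra ℚ κ (MvPolynomial Pt ℚ)).compLinearMap fun _ => linX Pt)
  let G : MultilinearMap ℚ (fun _ : κ => (Pt →₀ ℚ)) W :=
    ∑ π : Perm κ, E.domDomCongr π
  have hFG : F = G := by
    apply Module.Basis.ext_multilinear (fun _ => Finsupp.basisSingleOne)
    intro v
    simp only [F, G, LinearMap.compMultilinearMap_apply, MultilinearMap.compLinearMap_apply,
      MultilinearMap.mkPiAlgebra_apply, Finsupp.coe_basisSingleOne, linX_single,
      _root_.sum_apply, MultilinearMap.domDomCongr_apply]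
    rw [symL_prod_X]
    rfl
  have := congrArg (fun H => H D) hFG
  simp only [F, G, LinearMap.compMultilinearMap_apply, MultilinearMap.compLinearMap_apply,
    MultilinearMap.mkPiAlgebra_apply, _root_.sum_apply,
    MultilinearMap.domDomCongr_apply] at this
  exact this

end

/-- The diagonal relation with arbitrary cycles in the outer slots. -/
lemma diag_sum_mem (Prin : Set (Pt →₀ ℚ)) (A : Finset ι) (D : Pt →₀ ℚ) (hD : D ∈ Prin)
    (D' : {i // i ∉ A} → (Pt →₀ ℚ)) :
    D.sum (fun x a => a • (diagRel ι Prin).mkQ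
      (extProd fun i => if h : i ∈ A then Finsupp.single x 1 else D' ⟨i, h⟩)) = 0 := by
  classical
  let F : MultilinearMap ℚ (fun _ : {i // i ∉ A} => (Pt →₀ ℚ)) (SlotQuot ι Prin) :=
    ∑ x ∈ D.support, D x • (diagRel ι Prin).mkQ.compMultilinearMap
      ((extProdM Pt ι).domDomRestrict (fun i => i ∉ A)
        (fun _ => Finsupp.single x (1 : ℚ)))
  have hF : F = 0 := by
    apply Module.Basis.ext_multilinear (fun _ => Finsupp.basisSingleOne)
    intro v
    simp only [F, _root_.sum_apply, _root_.smul_apply,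
      LinearMap.compMultilinearMap_apply, MultilinearMap.domDomRestrict_apply,
      Finsupp.coe_basisSingleOne, _root_.zero_apply, extProdM_apply]
    by_cases hne : Nonempty Pt
    · obtain ⟨p0⟩ := hne
      let z : ι → Pt := fun i => if h : i ∉ A then v ⟨i, h⟩ else p0
      have h1 : ∀ x, (extProd fun j => if h : j ∉ A then Finsupp.single (v ⟨j, h⟩) (1 : ℚ)
          else Finsupp.single x 1) = Finsupp.single (diagArr z A x) 1 := by
        intro x
        rw [← extProd_single]
        congr 1
        funext i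
        by_cases h : i ∈ A
        · simp [diagArr, h]
        · simp [diagArr, h, z]
      simp only [h1]
      simp only [← map_smul, ← map_sum]
      rw [Submodule.mkQ_apply, Submodule.Quotient.mk_eq_zero]
      apply Submodule.subset_span
      refine ⟨z, A, D, hD, ?_⟩
      rw [Finsupp.mapDomain, Finsupp.sum]
      apply Finset.sum_congr rfl
      intro x _
      rw [Finsupp.smul_single, smul_eq_mul, mul_one]
    · have : IsEmpty Pt := not_nonempty_iff.1 hne
      have hD0 : D = 0 := by ext x; exact (this.false x).elim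
      rw [hD0]; simp
  have := congrArg (fun H => H D') hF
  simp only [F, _root_.sum_apply, _root_.smul_apply,
      LinearMap.compMultilinearMap_apply, MultilinearMap.domDomRestrict_apply,
      _root_.zero_apply, extProdM_apply] at this
  rw [Finsupp.sum, ← this]
  apply Finset.sum_congr rfl
  intro x _
  congr 2
  congr 1
  funext i
  by_cases h : i ∈ A
  · simp [h]
  · simp [h]

/-- Symmetrisation over the slots of `T`, with differences of points in these slots. -/
theorem sum_perm_extProd_eq_zero (Prin : Set (Pt →₀ ℚ)) (T : Finset ι)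
    (hR : ∀ (s : {i // i ∈ T} → Pt) (o : Pt), ∃ E : Multiset Pt,
      (∑ i, Finsupp.single (s i) (1 : ℚ) - Finsupp.single o 1 -
        (E.map fun x => Finsupp.single x (1 : ℚ)).sum) ∈ Prin)
    (D : ι → (Pt →₀ ℚ)) (o : Pt)
    (hD : ∀ i ∈ T, ∃ x, D i = Finsupp.single x 1 - Finsupp.single o 1) :
    ∑ π : Perm {i // i ∈ T}, (diagRel ι Prin).mkQ
      (extProd fun i => if h : i ∈ T then D (π ⟨i, h⟩) else D i) = 0 := by
  classical
  let E : MultilinearMap ℚ (fun _ : {i // i ∈ T} => (Pt →₀ ℚ)) (SlotQuot ι Prin) :=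
    (diagRel ι Prin).mkQ.compMultilinearMap
      ((extProdM Pt ι).domDomRestrict (fun i => i ∈ T) (fun i => D i))
  have h1 := symL_prod_linX E (fun t => D t)
  have h2 : symL (fun y => E fun t => Finsupp.single (y t) 1)
      (∏ t : {i // i ∈ T}, linX Pt (D t)) = 0 := by
    have hne : Nonempty Pt := ⟨o⟩
    choose! x hx using hD
    have hprod : ∏ t : {i // i ∈ T}, linX Pt (D t) =
        ∏ t : {i // i ∈ T}, (X (x t) - X o) := by
      apply Finset.prod_congr rfl
      intro t _
      rw [hx t t.2, map_sub, linX_single, linX_single]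
    rw [hprod]
    apply symL_eq_zero_of_mem _ Prin
    · intro D0 hD0 A z
      let A' : Finset ι := A.map (Function.Embedding.subtype _)
      have hA' : ∀ i, i ∈ A' ↔ ∃ h : i ∈ T, (⟨i, h⟩ : {i // i ∈ T}) ∈ A := by
        intro i
        simp [A']
      have h3 := diag_sum_mem Prin A' D0 hD0
        (fun i => if h : i.1 ∈ T then Finsupp.single (z ⟨i.1, h⟩) 1 else D i.1)
      rw [← h3]
      apply Finsupp.sum_congr
      intro p _
      congr 1
      simp only [E, LinearMap.compMultilinearMap_apply, MultilinearMap.domDomRestrict_apply,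
        extProdM_apply]
      congr 2
      funext i
      by_cases h : i ∈ T
      · rw [dif_pos h]
        by_cases h' : (⟨i, h⟩ : {i // i ∈ T}) ∈ A
        · have hmem : i ∈ A' := (hA' i).2 ⟨h, h'⟩
          rw [dif_pos hmem]
          simp only [diagArr, if_pos h']
        · have hmem : i ∉ A' := fun hh => by
            obtain ⟨h4, h5⟩ := (hA' i).1 hh
            exact h' h5
          rw [dif_neg hmem, dif_pos h]
          simp only [diagArr, if_neg h']
      · have hmem : i ∉ A' := fun hh => by
            obtain ⟨h4, h5⟩ := (hA' i).1 hh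
            exact h h4
        rw [dif_neg h, dif_neg hmem, dif_neg h]
    · exact prod_X_sub_mem Prin hR (fun t => x t) o
  rw [h2] at h1
  rw [h1]
  rfl

/-- **Alternation in several slots.**  For differences of points, the signed exterior product modulo
diagonal relations is an alternating function of the permutation of the slots. -/
theorem altFun_extProd (Prin : Set (Pt →₀ ℚ)) (g : ℕ)
    (hR : ∀ (s : Multiset Pt) (o : Pt), Multiset.card s = g + 1 → ∃ E : Multiset Pt,
      ((s.map fun x => Finsupp.single x (1 : ℚ)).sum - Finsupp.single o 1 -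
        (E.map fun x => Finsupp.single x (1 : ℚ)).sum) ∈ Prin)
    (x : ι → Pt) (o : Pt) :
    AltFun g (fun σ : Perm ι => ((Perm.sign σ : ℤˣ) : ℤ) • (diagRel ι Prin).mkQ
      (extProd fun i => (Finsupp.single (x (σ i)) (1 : ℚ) - Finsupp.single o 1))) := by
  classical
  intro T hT σ
  have hR' : ∀ (s : {i // i ∈ T} → Pt) (o : Pt), ∃ E : Multiset Pt,
      (∑ i, Finsupp.single (s i) (1 : ℚ) - Finsupp.single o 1 -
        (E.map fun x => Finsupp.single x (1 : ℚ)).sum) ∈ Prin := by
    intro s o
    obtain ⟨E, hE⟩ := hR (univ.val.map s) o (by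
      rw [Multiset.card_map]
      change Fintype.card {i // i ∈ T} = g + 1
      rw [Fintype.card_coe, hT])
    refine ⟨E, ?_⟩
    rw [Multiset.map_map] at hE
    exact hE
  have h1 := sum_perm_extProd_eq_zero Prin T hR'
    (fun i => Finsupp.single (x (σ i)) (1 : ℚ) - Finsupp.single o 1) o
    (fun i _ => ⟨x (σ i), rfl⟩)
  have h2 : ∑ π ∈ symOn T, (diagRel ι Prin).mkQ
      (extProd fun i => (Finsupp.single (x ((σ * π) i)) (1 : ℚ) - Finsupp.single o 1)) = 0 := by
    rw [← h1]
    symm
    refine Finset.sum_bij (fun (π : Perm {i // i ∈ T}) _ => Perm.ofSubtype π) ?_ ?_ ?_ ?_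
    · intro π _
      rw [mem_symOn]
      intro i hi
      exact Perm.ofSubtype_apply_of_not_mem π hi
    · intro π _ π' _ h
      exact Perm.ofSubtype_injective h
    · intro π hπ
      rw [mem_symOn] at hπ
      refine ⟨Perm.subtypePerm π ?_, mem_univ _, ?_⟩
      · intro i
        constructor
        · intro hi
          by_contra h
          have := hπ i h
          rw [this] at hi
          exact h hi
        · intro hi
          by_contra h
          have h3 := hπ (π i) h
          have h4 := π.injective h3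
          rw [h4] at h
          exact h hi
      · ext i
        by_cases hi : i ∈ T
        · rw [Perm.ofSubtype_apply_of_mem _ hi]; rfl
        · rw [Perm.ofSubtype_apply_of_not_mem _ hi, hπ i hi]
    · intro π _
      congr 2
      funext i
      by_cases hi : i ∈ T
      · rw [dif_pos hi, Perm.mul_apply, Perm.ofSubtype_apply_of_mem _ hi]
      · rw [dif_neg hi, Perm.mul_apply, Perm.ofSubtype_apply_of_not_mem _ hi]
  have h3 : ∀ π ∈ symOn T, ((Perm.sign π : ℤˣ) : ℤ) • (((Perm.sign (σ * π) : ℤˣ) : ℤ) •
      (diagRel ι Prin).mkQ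
      (extProd fun i => (Finsupp.single (x ((σ * π) i)) (1 : ℚ) - Finsupp.single o 1))) =
      ((Perm.sign σ : ℤˣ) : ℤ) • (diagRel ι Prin).mkQ
      (extProd fun i => (Finsupp.single (x ((σ * π) i)) (1 : ℚ) - Finsupp.single o 1)) := by
    intro π _
    rw [smul_smul, Perm.sign_mul]
    congr 1
    have := Int.units_mul_self (Perm.sign π)
    have h5 : ((Perm.sign π : ℤˣ) : ℤ) * ((Perm.sign π : ℤˣ) : ℤ) = 1 := by
      rw [← Units.val_mul, this]; rfl
    push_cast
    calc ((Perm.sign π : ℤˣ) : ℤ) * (((Perm.sign σ : ℤˣ) : ℤ) * ((Perm.sign π : ℤˣ) : ℤ))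
        = ((Perm.sign σ : ℤˣ) : ℤ) * (((Perm.sign π : ℤˣ) : ℤ) * ((Perm.sign π : ℤˣ) : ℤ)) := by
          ring
      _ = _ := by rw [h5, mul_one]
  rw [Finset.sum_congr rfl h3, ← Finset.smul_sum, h2, smul_zero]

end Q58
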