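import Mathlib
import Pool.Agent.Q58.ChowDefs
import Pool.Agent.Q58.Slots

/-!
# Zero-cycles on powers of a product of two curves
-/

namespace Q58.Chow

open AlgebraicGeometry CategoryTheory Limits Equiv

universe u

/-- A multilinear map that vanishes on generators vanishes on the spans. -/
lemma multilinear_eq_zero_of_span {ι : Type*} [Finite ι] {M W : Type*}
    [AddCommGroup M] [Module ℚ M] [AddCommGroup W] [Module ℚ W]
    (F : MultilinearMap ℚ (fun _ : ι => M) W) (G : ι → Set M)
    (h : ∀ v : ι → M, (∀ i, v i ∈ G i) → F v = 0) :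
    ∀ v : ι → M, (∀ i, v i ∈ Submodule.span ℚ (G i)) → F v = 0 := by
  classical
  cases nonempty_fintype ι
  have key : ∀ (T : Finset ι) (v : ι → M), (∀ i, i ∉ T → v i ∈ G i) →
      (∀ i ∈ T, v i ∈ Submodule.span ℚ (G i)) → F v = 0 := by
    intro T
    induction T using Finset.induction_on with
    | empty => intro v hv _; exact h v fun i => hv i (by simp)
    | insert j T hj ih =>
      intro v hv hvT
      have hvj := hvT j (Finset.mem_insert_self _ _)
      have hupd : v = Function.update v j (v j) := by simp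
      rw [hupd]
      generalize v j = w at hvj
      induction hvj using Submodule.span_induction with
      | mem x hx =>
        apply ih
        · intro i hi
          by_cases hij : i = j
          · subst hij; simpa using hx
          · rw [Function.update_of_ne hij]
            exact hv i (by simp [hij, hi])
        · intro i hi
          have hij : i ≠ j := fun h' => hj (h' ▸ hi)
          rw [Function.update_of_ne hij]
          exact hvT i (Finset.mem_insert_of_mem hi)
      | zero => exact F.map_update_zero v j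
      | add x y _ _ hx hy => rw [F.map_update_add, hx, hy, add_zero]
      | smul a x _ hx => rw [F.map_update_smul, hx, smul_zero]
  intro v hv
  exact key Finset.univ v (fun i hi => absurd (Finset.mem_univ i) hi) fun i _ => hv i

variable {k : Type u} [Field k]

/-- The morphism to a product. -/
noncomputable def liftS {Z X Y : Sch k} (f : Z ⟶ X) (g : Z ⟶ Y) : Z ⟶ prodS X Y := prod.lift f g

@[reassoc] lemma liftS_fst {Z X Y : Sch k} (f : Z ⟶ X) (g : Z ⟶ Y) : liftS f g ≫ fstS X Y = f :=
  prod.lift_fst f g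

@[reassoc] lemma liftS_snd {Z X Y : Sch k} (f : Z ⟶ X) (g : Z ⟶ Y) : liftS f g ≫ sndS X Y = g :=
  prod.lift_snd f g

lemma hom_extS {Z X Y : Sch k} {f g : Z ⟶ prodS X Y} (h₁ : f ≫ fstS X Y = g ≫ fstS X Y)
    (h₂ : f ≫ sndS X Y = g ≫ sndS X Y) : f = g :=
  prod.hom_ext h₁ h₂

/-- The morphism to a power. -/
noncomputable def liftP {Z X : Sch k} {n : ℕ} (f : Fin n → (Z ⟶ X)) : Z ⟶ powS X n := Pi.lift f

/-- The projections of a power. -/
noncomputable def projP (X : Sch k) (n : ℕ) (i : Fin n) : powS X n ⟶ X := Pi.π _ i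

@[reassoc] lemma liftP_proj {Z X : Sch k} {n : ℕ} (f : Fin n → (Z ⟶ X)) (i : Fin n) :
    liftP f ≫ projP X n i = f i := by
  have h : (Pi.lift f : Z ⟶ ∏ᶜ fun _ : Fin n => X) ≫ Pi.π (fun _ : Fin n => X) i = f i := by
    simp only [limit.lift_π, Fan.mk_π_app]
  exact h

lemma hom_extP {Z X : Sch k} {n : ℕ} {f g : Z ⟶ powS X n}
    (h : ∀ i, f ≫ projP X n i = g ≫ projP X n i) : f = g :=
  Pi.hom_ext _ _ h

lemma tuple_eq {X : Sch k} {n : ℕ} (x : Fin n → Pt X) : tuple x = liftP x := rfl

/-- The structure morphism to the base. -/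
noncomputable def toBase (X : Sch k) : X ⟶ base k := Over.homMk X.hom

lemma pt_comp_toBase {X : Sch k} (P : Pt X) : P ≫ toBase X = 𝟙 _ := by
  apply Over.OverMorphism.ext
  simp only [toBase, Over.comp_left, Over.homMk_left, Over.id_left, Over.mk_left]
  simp

lemma pt_comp_const {X Y : Sch k} (P : Pt X) (Q : Pt Y) : P ≫ toBase X ≫ Q = Q := by
  rw [← Category.assoc, pt_comp_toBase, Category.id_comp]

lemma push_single {X Y : Sch k} (f : X ⟶ Y) (P : Pt X) (a : ℚ) :
    push f (Finsupp.single P a) = Finsupp.single (P ≫ f) a := by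
  unfold push; rw [Finsupp.mapDomain_single]

lemma push_push {X Y Z : Sch k} (f : X ⟶ Y) (g : Y ⟶ Z) (z : Pt X →₀ ℚ) :
    push g (push f z) = push (f ≫ g) z := by
  unfold push
  rw [← Finsupp.mapDomain_comp]
  congr 1

/-- `push` as a linear map. -/
noncomputable def pushL {X Y : Sch k} (f : X ⟶ Y) : (Pt X →₀ ℚ) →ₗ[ℚ] (Pt Y →₀ ℚ) :=
  Finsupp.lmapDomain ℚ ℚ fun P => P ≫ f

lemma pushL_apply {X Y : Sch k} (f : X ⟶ Y) (z : Pt X →₀ ℚ) : pushL f z = push f z := rfl

lemma push_mem {X Y : Sch k} (f : X ⟶ Y) {z : Pt X →₀ ℚ} (hz : z ∈ ratTrivial X) :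
    push f z ∈ ratTrivial Y := by
  rw [← pushL_apply]
  unfold ratTrivial at hz
  induction hz using Submodule.span_induction with
  | mem x hx =>
    obtain ⟨C, hC, g, h, D, hD, rfl⟩ := hx
    rw [pushL_apply, push_push]
    exact Submodule.subset_span ⟨C, hC, g ≫ f, h, D, hD, rfl⟩
  | zero => rw [map_zero]; exact Submodule.zero_mem _
  | add x y _ _ hx hy => rw [map_add]; exact Submodule.add_mem _ hx hy
  | smul a x _ hx => rw [map_smul]; exact Submodule.smul_mem _ _ hx

/-- The divisors of functions and their negatives. -/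
def Prin (C : Sch k) [IsCurve C] : Set (Pt C →₀ ℚ) :=
  {D | ∃ h : C.left.functionField, IsDivisorOf C h (-D)}

/-- Riemann's inequality in the form that is needed. -/
lemma exists_effective (C : Sch k) [IsCurve C] {g : ℕ} (hg : genus C = g)
    (s : Multiset (Pt C)) (o : Pt C) (hs : Multiset.card s = g + 1) :
    ∃ E : Multiset (Pt C),
      ((s.map fun x => Finsupp.single x (1 : ℚ)).sum - Finsupp.single o 1 -
        (E.map fun x => Finsupp.single x (1 : ℚ)).sum) ∈ Prin C := by
  classical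
  set D : Pt C →₀ ℤ := (s.map fun x => Finsupp.single x (1 : ℤ)).sum - Finsupp.single o 1 with hD
  have hdeg : (D.sum fun _ a => a) = g := by
    have h1 : ∀ t : Multiset (Pt C), ((t.map fun x => Finsupp.single x (1 : ℤ)).sum.sum
        fun _ a => a) = Multiset.card t := by
      intro t
      induction t using Multiset.induction_on with
      | empty => simp
      | cons a t ih =>
        rw [Multiset.map_cons, Multiset.sum_cons, Finsupp.sum_add_index' (fun _ => rfl)
          (fun _ _ _ => rfl), ih, Finsupp.sum_single_index rfl, Multiset.card_cons]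
        push_cast; ring
    have h2 : (D.sum fun _ a => a) = (((s.map fun x => Finsupp.single x (1 : ℤ)).sum.sum
        fun _ a => a)) - ((Finsupp.single o (1 : ℤ)).sum fun _ a => a) := by
      rw [hD]
      exact Finsupp.sum_sub_index (fun _ _ _ => rfl)
    rw [h2, h1, hs, Finsupp.sum_single_index rfl]
    push_cast; ring
  have hle : (g : ℤ) + 1 - ell C D ≤ g := by
    have h1 : ((((D.sum fun _ a => a) + 1 - ell C D).toNat : ℕ) : ℕ∞) ≤ genus C :=
      le_iSup (fun D : Pt C →₀ ℤ => ((((D.sum fun _ a => a) + 1 - ell C D).toNat : ℕ) : ℕ∞)) D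
    rw [hg, hdeg] at h1
    have h2 : ((g : ℤ) + 1 - ell C D).toNat ≤ g := by exact_mod_cast h1
    exact Int.toNat_le.1 h2
  have hell : 1 ≤ ell C D := by
    have : (1 : ℤ) ≤ ell C D := by linarith
    exact_mod_cast this
  have hne : (rrSet C D).Nonempty := by
    by_contra h
    rw [Set.not_nonempty_iff_eq_empty] at h
    have h0 : ell C D = 0 := by
      let _ : Module k C.left.functionField := Module.compHom _ (constants C)
      change Module.finrank k (Submodule.span k (rrSet C D)) = 0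
      rw [h, Submodule.span_empty]
      exact finrank_bot _ _
    omega
  obtain ⟨h, hh0, E, hE⟩ := hne
  refine ⟨Finsupp.toMultiset E, h, hh0, fun P => ?_⟩
  have hcast : ∀ t : Multiset (Pt C), ((t.map fun x => Finsupp.single x (1 : ℚ)).sum) P =
      (((t.map fun x => Finsupp.single x (1 : ℤ)).sum P : ℤ) : ℚ) := by
    intro t
    induction t using Multiset.induction_on with
    | empty => simp
    | cons a t ih =>
      simp only [Multiset.map_cons, Multiset.sum_cons, Finsupp.add_apply, ih]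
      push_cast
      congr 1
      by_cases hap : a = P
      · subst hap; simp
      · rw [Finsupp.single_eq_of_ne (fun h' => hap h'.symm),
          Finsupp.single_eq_of_ne (fun h' => hap h'.symm)]; simp
  have hEsum : (((Finsupp.toMultiset E).map fun x => Finsupp.single x (1 : ℚ)).sum) P = E P := by
    have : ∀ t : Multiset (Pt C), ((t.map fun x => Finsupp.single x (1 : ℚ)).sum) P =
        ((t.count P : ℕ) : ℚ) := by
      intro t
      induction t using Multiset.induction_on with
      | empty => simp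
      | cons a t ih =>
        simp only [Multiset.map_cons, Multiset.sum_cons, Finsupp.add_apply, ih]
        by_cases hap : a = P
        · subst hap; simp; ring
        · rw [Finsupp.single_eq_of_ne (fun h' => hap h'.symm),
            Multiset.count_cons_of_ne (fun h' => hap h'.symm)]; simp
    rw [this, Finsupp.count_toMultiset]
  have hEP := hE P
  have hD' : (D P : ℤ) = ((s.map fun x => Finsupp.single x (1 : ℤ)).sum P) -
      (Finsupp.single o (1 : ℤ)) P := by rw [hD]; rfl
  have hsing : (Finsupp.single o (1 : ℚ)) P = (((Finsupp.single o (1 : ℤ)) P : ℤ) : ℚ) := by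
    by_cases hap : o = P
    · subst hap; simp
    · rw [Finsupp.single_eq_of_ne (fun h' => hap h'.symm),
          Finsupp.single_eq_of_ne (fun h' => hap h'.symm)]; simp
  simp only [Finsupp.neg_apply, Finsupp.sub_apply]
  rw [hcast, hEsum, hsing]
  have h3 : (Scheme.ord h P.point : ℤ) = E P - D P := by linarith
  rw [h3, hD']
  push_cast
  ring

section

variable {C₁ C₂ : Sch k} {n : ℕ}

/-- The point `((x_i, y_i))_i` of `(C₁ × C₂)^n`. -/
noncomputable def ptArr (x : Fin n → Pt C₁) (y : Fin n → Pt C₂) :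
    Pt (powS (prodS C₁ C₂) n) :=
  liftP fun i => liftS (x i) (y i)

/-- The bilinear map on cycles of arrays. -/
noncomputable def bil (C₁ C₂ : Sch k) (n : ℕ) :
    ((Fin n → Pt C₁) →₀ ℚ) →ₗ[ℚ] ((Fin n → Pt C₂) →₀ ℚ) →ₗ[ℚ]
      CH0 (powS (prodS C₁ C₂) n) :=
  Finsupp.linearCombination ℚ fun x =>
    Finsupp.linearCombination ℚ fun y => cl _ (Finsupp.single (ptArr x y) 1)

lemma bil_single (x : Fin n → Pt C₁) (y : Fin n → Pt C₂) :
    bil C₁ C₂ n (Finsupp.single x 1) (Finsupp.single y 1) =
      cl _ (Finsupp.single (ptArr x y) 1) := by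
  unfold bil
  rw [Finsupp.linearCombination_single, one_smul, Finsupp.linearCombination_single, one_smul]

lemma cl_eq_zero {X : Sch k} {z : Pt X →₀ ℚ} : cl X z = 0 ↔ z ∈ ratTrivial X := by
  unfold cl
  rw [Submodule.mkQ_apply, Submodule.Quotient.mk_eq_zero]

lemma bil_left [IsCurve C₁] (f : (Fin n → Pt C₁) →₀ ℚ) (hf : f ∈ diagRel (Fin n) (Prin C₁)) :
    bil C₁ C₂ n f = 0 := by
  classical
  unfold diagRel at hf
  induction hf using Submodule.span_induction with
  | mem x hx =>
    obtain ⟨z, A, D, ⟨h, hh⟩, rfl⟩ := hx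
    apply Finsupp.lhom_ext'
    intro y
    ext
    simp only [LinearMap.comp_apply, Finsupp.lsingle_apply, LinearMap.zero_apply]
    let φ : C₁ ⟶ powS (prodS C₁ C₂) n :=
      liftP fun i => liftS (if i ∈ A then 𝟙 C₁ else toBase C₁ ≫ z i) (toBase C₁ ≫ y i)
    have hφ : ∀ P : Pt C₁, P ≫ φ = ptArr (diagArr z A P) y := by
      intro P
      apply hom_extP
      intro i
      simp only [φ, ptArr, Category.assoc, liftP_proj]
      apply hom_extS
      · simp only [Category.assoc, liftS_fst]
        by_cases hi : i ∈ A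
        · simp only [diagArr, if_pos hi, Category.comp_id]
        · simp only [diagArr, if_neg hi, pt_comp_const]
      · simp only [Category.assoc, liftS_snd, pt_comp_const]
    have h1 : bil C₁ C₂ n (Finsupp.mapDomain (diagArr z A) D) (Finsupp.single y 1) =
        cl _ (push φ D) := by
      rw [Finsupp.mapDomain, Finsupp.sum, map_sum, LinearMap.sum_apply, push, Finsupp.mapDomain,
        Finsupp.sum, map_sum]
      apply Finset.sum_congr rfl
      intro P _
      have h2 : (Finsupp.single (diagArr z A P) (D P) : (Fin n → Pt C₁) →₀ ℚ) =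
          D P • Finsupp.single (diagArr z A P) 1 := by simp
      have h3 : (Finsupp.single (P ≫ φ) (D P) : Pt (powS (prodS C₁ C₂) n) →₀ ℚ) =
          D P • Finsupp.single (P ≫ φ) 1 := by simp
      rw [h2, h3, map_smul, map_smul, LinearMap.smul_apply, bil_single, hφ]
    rw [h1, cl_eq_zero]
    have h4 : push φ (-D) ∈ ratTrivial (powS (prodS C₁ C₂) n) :=
      Submodule.subset_span ⟨C₁, inferInstance, φ, h, -D, hh, rfl⟩
    rw [← pushL_apply, map_neg, Submodule.neg_mem_iff] at h4
    exact h4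
  | zero => simp
  | add x y _ _ hx hy => rw [map_add, hx, hy, add_zero]
  | smul a x _ hx => rw [map_smul, hx, smul_zero]

lemma bil_right [IsCurve C₂] (f : (Fin n → Pt C₂) →₀ ℚ) (hf : f ∈ diagRel (Fin n) (Prin C₂)) :
    (bil C₁ C₂ n).flip f = 0 := by
  classical
  unfold diagRel at hf
  induction hf using Submodule.span_induction with
  | mem x hx =>
    obtain ⟨z, A, D, ⟨h, hh⟩, rfl⟩ := hx
    apply Finsupp.lhom_ext'
    intro y
    ext
    simp only [LinearMap.comp_apply, Finsupp.lsingle_apply, LinearMap.zero_apply,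
      LinearMap.flip_apply]
    let φ : C₂ ⟶ powS (prodS C₁ C₂) n :=
      liftP fun i => liftS (toBase C₂ ≫ y i) (if i ∈ A then 𝟙 C₂ else toBase C₂ ≫ z i)
    have hφ : ∀ P : Pt C₂, P ≫ φ = ptArr y (diagArr z A P) := by
      intro P
      apply hom_extP
      intro i
      simp only [φ, ptArr, Category.assoc, liftP_proj]
      apply hom_extS
      · simp only [Category.assoc, liftS_fst, pt_comp_const]
      · simp only [Category.assoc, liftS_snd]
        by_cases hi : i ∈ A
        · simp only [diagArr, if_pos hi, Category.comp_id]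
        · simp only [diagArr, if_neg hi, pt_comp_const]
    have h1 : bil C₁ C₂ n (Finsupp.single y 1) (Finsupp.mapDomain (diagArr z A) D) =
        cl _ (push φ D) := by
      rw [Finsupp.mapDomain, Finsupp.sum, map_sum, push, Finsupp.mapDomain,
        Finsupp.sum, map_sum]
      apply Finset.sum_congr rfl
      intro P _
      have h2 : (Finsupp.single (diagArr z A P) (D P) : (Fin n → Pt C₂) →₀ ℚ) =
          D P • Finsupp.single (diagArr z A P) 1 := by simp
      have h3 : (Finsupp.single (P ≫ φ) (D P) : Pt (powS (prodS C₁ C₂) n) →₀ ℚ) =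
          D P • Finsupp.single (P ≫ φ) 1 := by simp
      rw [h2, h3, map_smul, map_smul, bil_single, hφ]
    rw [h1, cl_eq_zero]
    have h4 : push φ (-D) ∈ ratTrivial (powS (prodS C₁ C₂) n) :=
      Submodule.subset_span ⟨C₂, inferInstance, φ, h, -D, hh, rfl⟩
    rw [← pushL_apply, map_neg, Submodule.neg_mem_iff] at h4
    exact h4
  | zero => simp
  | add x y _ _ hx hy => rw [map_add, hx, hy, add_zero]
  | smul a x _ hx => rw [map_smul, hx, smul_zero]

/-- The bilinear map on the quotients. -/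
noncomputable def bilQ (C₁ C₂ : Sch k) [IsCurve C₁] [IsCurve C₂] (n : ℕ) :
    SlotQuot (Fin n) (Prin C₁) →ₗ[ℚ] SlotQuot (Fin n) (Prin C₂) →ₗ[ℚ]
      CH0 (powS (prodS C₁ C₂) n) :=
  ((diagRel (Fin n) (Prin C₂)).liftQ
    (((diagRel (Fin n) (Prin C₁)).liftQ (bil C₁ C₂ n) (fun f hf => by
      rw [LinearMap.mem_ker]; exact bil_left f hf)).flip) (fun f hf => by
      rw [LinearMap.mem_ker]
      apply LinearMap.ext
      intro q
      obtain ⟨q, rfl⟩ := Submodule.Quotient.mk_surjective _ q
      rw [LinearMap.flip_apply, LinearMap.zero_apply]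
      change bil C₁ C₂ n q f = 0
      have := congrArg (fun F => F q) (bil_right (C₁ := C₁) f hf)
      simpa using this)).flip

lemma bilQ_mk [IsCurve C₁] [IsCurve C₂] (f : (Fin n → Pt C₁) →₀ ℚ) (f' : (Fin n → Pt C₂) →₀ ℚ) :
    bilQ C₁ C₂ n ((diagRel (Fin n) (Prin C₁)).mkQ f) ((diagRel (Fin n) (Prin C₂)).mkQ f') =
      bil C₁ C₂ n f f' := rfl

end

/-- The class of the exterior product as a multilinear map. -/
noncomputable def theta (X : Sch k) (n : ℕ) :
    MultilinearMap ℚ (fun _ : Fin n => (Pt X →₀ ℚ)) (CH0 (powS X n)) :=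
  ((cl (powS X n)).comp
    (Finsupp.lmapDomain ℚ ℚ fun x : Fin n → Pt X => liftP x)).compMultilinearMap
    (extProdM (Pt X) (Fin n))

lemma theta_apply {X : Sch k} {n : ℕ} (a : Fin n → (Pt X →₀ ℚ)) :
    theta X n a = cl _ (extCycle a) := rfl

lemma theta_single {X : Sch k} {n : ℕ} (x : Fin n → Pt X) :
    theta X n (fun i => Finsupp.single (x i) 1) = cl _ (Finsupp.single (liftP x) 1) := by
  rw [theta_apply]
  unfold extCycle
  rw [extProd_single, Finsupp.mapDomain_single]
  rfl

/-- The exterior product kills rationally trivial cycles in each slot. -/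
lemma theta_kill {X : Sch k} {n : ℕ} (v : Fin n → (Pt X →₀ ℚ)) (j : Fin n)
    (hj : v j ∈ ratTrivial X) : theta X n v = 0 := by
  classical
  by_cases hne : Nonempty (Pt X)
  swap
  · have : IsEmpty (Pt X) := not_nonempty_iff.1 hne
    have h0 : v j = 0 := by ext x; exact (this.false x).elim
    exact MultilinearMap.map_coord_zero _ j h0
  obtain ⟨p0⟩ := hne
  refine multilinear_eq_zero_of_span (theta X n)
    (fun i => if i = j then {z | ∃ (C : Sch k) (_ : IsCurve C) (f : C ⟶ X)
      (h : C.left.functionField) (D : Pt C →₀ ℚ), IsDivisorOf C h D ∧ z = push f D}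
      else Set.range fun P : Pt X => Finsupp.single P (1 : ℚ)) ?_ v ?_
  · intro v hv
    have hvj := hv j
    simp only [if_true] at hvj
    obtain ⟨C, hC, f, h, D, hD, hvj⟩ := hvj
    have hx : ∀ i, ∃ x : Pt X, i ≠ j → v i = Finsupp.single x 1 := by
      intro i
      by_cases hij : i = j
      · exact ⟨p0, fun h => absurd hij h⟩
      · have := hv i
        rw [if_neg hij] at this
        obtain ⟨P, hP⟩ := this
        exact ⟨P, fun _ => hP.symm⟩
    choose x hx using hx
    have hv' : v = Function.update (fun i => Finsupp.single (x i) (1 : ℚ)) j (push f D) := by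
      funext i
      by_cases hij : i = j
      · subst hij; rw [Function.update_self, hvj]
      · rw [Function.update_of_ne hij, hx i hij]
    let φ : C ⟶ powS X n :=
      liftP fun i => if i = j then f else toBase C ≫ x i
    have hφ : ∀ P : Pt C, P ≫ φ = liftP (Function.update x j (P ≫ f)) := by
      intro P
      apply hom_extP
      intro i
      simp only [φ, Category.assoc, liftP_proj]
      by_cases hij : i = j
      · subst hij; rw [if_pos rfl, Function.update_self]
      · rw [if_neg hij, Function.update_of_ne hij, pt_comp_const]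
    have h1 : theta X n v = cl _ (push φ D) := by
      rw [hv', push, Finsupp.mapDomain, Finsupp.sum, MultilinearMap.map_update_sum, push,
        Finsupp.mapDomain, Finsupp.sum, map_sum]
      apply Finset.sum_congr rfl
      intro P _
      have h2 : (Finsupp.single (P ≫ f) (D P) : Pt X →₀ ℚ) =
          D P • Finsupp.single (P ≫ f) 1 := by simp
      have h3 : (Finsupp.single (P ≫ φ) (D P) : Pt (powS X n) →₀ ℚ) =
          D P • Finsupp.single (P ≫ φ) 1 := by simp
      rw [h2, h3, MultilinearMap.map_update_smul, map_smul, hφ, ← theta_single]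
      congr 2
      funext i
      by_cases hij : i = j
      · subst hij; rw [Function.update_self, Function.update_self]
      · rw [Function.update_of_ne hij, Function.update_of_ne hij]
    rw [h1, cl_eq_zero]
    exact Submodule.subset_span ⟨C, hC, φ, h, D, hD, rfl⟩
  · intro i
    by_cases hij : i = j
    · subst hij
      rw [if_pos rfl]
      exact hj
    · rw [if_neg hij]
      have : Submodule.span ℚ (Set.range fun P : Pt X => Finsupp.single P (1 : ℚ)) = ⊤ :=
        (Finsupp.basisSingleOne (R := ℚ) (ι := Pt X)).span_eq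
      rw [this]
      exact Submodule.mem_top

/-- The diagonal vanishing for bilinear maps and sign-twisted alternating functions. -/
lemma signed_diagonal_linear {n g₁ g₂ : ℕ} (hn : g₁ * g₂ < n) {M₁ M₂ M₃ : Type*}
    [AddCommGroup M₁] [Module ℚ M₁] [AddCommGroup M₂] [Module ℚ M₂] [AddCommGroup M₃]
    [Module ℚ M₃] (B : M₁ →ₗ[ℚ] M₂ →ₗ[ℚ] M₃) {f₁ : Perm (Fin n) → M₁} {f₂ : Perm (Fin n) → M₂}
    (h₁ : AltFun g₁ fun σ => ((Perm.sign σ : ℤˣ) : ℤ) • f₁ σ)
    (h₂ : AltFun g₂ fun σ => ((Perm.sign σ : ℤˣ) : ℤ) • f₂ σ) :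
    ∑ σ : Perm (Fin n), ((Perm.sign σ : ℤˣ) : ℤ) • B (f₁ σ) (f₂ σ) = 0 := by
  have hdiag := signed_diagonal_eq_zero hn
      (AddMonoidHom.mk' (fun x => (B x).toAddMonoidHom) (by
        intro x y; ext z; simp)) h₁ h₂
  rw [← hdiag]
  apply Finset.sum_congr rfl
  intro σ _
  have hsq : ((Perm.sign σ : ℤˣ) : ℤ) * ((Perm.sign σ : ℤˣ) : ℤ) = 1 := by
    rw [← Units.val_mul, Int.units_mul_self]; rfl
  change _ = ((Perm.sign σ : ℤˣ) : ℤ) • B (((Perm.sign σ : ℤˣ) : ℤ) • f₁ σ)
    (((Perm.sign σ : ℤˣ) : ℤ) • f₂ σ)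
  have e1 : B (((Perm.sign σ : ℤˣ) : ℤ) • f₁ σ) (((Perm.sign σ : ℤˣ) : ℤ) • f₂ σ) =
      ((Perm.sign σ : ℤˣ) : ℤ) • ((Perm.sign σ : ℤˣ) : ℤ) • B (f₁ σ) (f₂ σ) := by
    rw [map_zsmul B, map_zsmul, LinearMap.smul_apply]
  rw [e1, smul_smul ((Perm.sign σ : ℤˣ) : ℤ) ((Perm.sign σ : ℤˣ) : ℤ), hsq, one_smul]

section

variable {C₁ C₂ : Sch k} {n : ℕ}

/-- The exterior product of cycles on the two curves. -/
noncomputable def beta (C₁ C₂ : Sch k) :
    (Pt C₁ →₀ ℚ) →ₗ[ℚ] (Pt C₂ →₀ ℚ) →ₗ[ℚ] (Pt (prodS C₁ C₂) →₀ ℚ) :=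
  Finsupp.linearCombination ℚ fun x =>
    Finsupp.linearCombination ℚ fun y => Finsupp.single (liftS x y) 1

lemma beta_single (x : Pt C₁) (y : Pt C₂) :
    beta C₁ C₂ (Finsupp.single x 1) (Finsupp.single y 1) =
      Finsupp.single (liftS x y) 1 := by
  unfold beta
  rw [Finsupp.linearCombination_single, one_smul, Finsupp.linearCombination_single, one_smul]

lemma theta_beta (u : Fin n → (Pt C₁ →₀ ℚ)) (v : Fin n → (Pt C₂ →₀ ℚ)) :
    theta (prodS C₁ C₂) n (fun i => beta C₁ C₂ (u i) (v i)) =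
      bil C₁ C₂ n (extProd u) (extProd v) := by
  classical
  have h1 : ∀ x : Fin n → Pt C₁, (theta (prodS C₁ C₂) n).compLinearMap
      (fun i => beta C₁ C₂ (Finsupp.single (x i) 1)) =
      (bil C₁ C₂ n (Finsupp.single x 1)).compMultilinearMap (extProdM (Pt C₂) (Fin n)) := by
    intro x
    apply Module.Basis.ext_multilinear (fun _ => Finsupp.basisSingleOne)
    intro y
    simp only [MultilinearMap.compLinearMap_apply, LinearMap.compMultilinearMap_apply,
      Finsupp.coe_basisSingleOne, extProdM_apply, extProd_single, beta_single, bil_single]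
    rw [theta_single]
    rfl
  have h2 : (theta (prodS C₁ C₂) n).compLinearMap (fun i => (beta C₁ C₂).flip (v i)) =
      ((bil C₁ C₂ n).flip (extProd v)).compMultilinearMap (extProdM (Pt C₁) (Fin n)) := by
    apply Module.Basis.ext_multilinear (fun _ => Finsupp.basisSingleOne)
    intro x
    have h3 := congrArg (fun F => F v) (h1 x)
    simp only [MultilinearMap.compLinearMap_apply, LinearMap.compMultilinearMap_apply,
      extProdM_apply] at h3
    simp only [MultilinearMap.compLinearMap_apply, LinearMap.compMultilinearMap_apply,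
      Finsupp.coe_basisSingleOne, extProdM_apply, extProd_single, LinearMap.flip_apply]
    exact h3
  have h4 := congrArg (fun F => F u) h2
  simpa only [MultilinearMap.compLinearMap_apply, LinearMap.compMultilinearMap_apply,
      extProdM_apply, LinearMap.flip_apply] using h4

/-- The cycle `((x) - (o₁)) × ((y) - (o₂))` for a point `(x, y)`. -/
noncomputable def qq (o₁ : Pt C₁) (o₂ : Pt C₂) (s : Pt (prodS C₁ C₂)) : Pt (prodS C₁ C₂) →₀ ℚ :=
  beta C₁ C₂ (Finsupp.single (s ≫ fstS C₁ C₂) 1 - Finsupp.single o₁ 1)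
    (Finsupp.single (s ≫ sndS C₁ C₂) 1 - Finsupp.single o₂ 1)

/-- Generators of the Albanese kernel. -/
def genSet (o₁ : Pt C₁) (o₂ : Pt C₂) : Set (Pt (prodS C₁ C₂) →₀ ℚ) :=
  {z | (∃ s, qq o₁ o₂ s = z) ∨ z ∈ ratTrivial (prodS C₁ C₂)}

lemma mem_span_of_albanese (o₁ : Pt C₁) (o₂ : Pt C₂) (a : Pt (prodS C₁ C₂) →₀ ℚ)
    (h₁ : push (fstS C₁ C₂) a ∈ ratTrivial C₁) (h₂ : push (sndS C₁ C₂) a ∈ ratTrivial C₂) :
    a ∈ Submodule.span ℚ (genSet o₁ o₂) := by
  classical
  let i₁ : C₁ ⟶ prodS C₁ C₂ := liftS (𝟙 C₁) (toBase C₁ ≫ o₂)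
  let i₂ : C₂ ⟶ prodS C₁ C₂ := liftS (toBase C₂ ≫ o₁) (𝟙 C₂)
  let c : C₁ ⟶ prodS C₁ C₂ := toBase C₁ ≫ liftS o₁ o₂
  have key : Finsupp.linearCombination ℚ (qq o₁ o₂) + (pushL i₁).comp (pushL (fstS C₁ C₂)) +
      (pushL i₂).comp (pushL (sndS C₁ C₂)) - (pushL c).comp (pushL (fstS C₁ C₂)) = LinearMap.id := by
    apply Finsupp.lhom_ext'
    intro s
    apply LinearMap.ext_ring
    simp only [LinearMap.comp_apply, LinearMap.add_apply, LinearMap.sub_apply,
      Finsupp.lsingle_apply, LinearMap.id_apply, Finsupp.linearCombination_single, one_smul,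
      pushL_apply, push_single]
    have e1 : (s ≫ fstS C₁ C₂) ≫ i₁ = liftS (s ≫ fstS C₁ C₂) o₂ := by
      apply hom_extS
      · simp only [i₁, Category.assoc, liftS_fst, Category.comp_id]
      · simp only [i₁, Category.assoc, liftS_snd]
        rw [← Category.assoc s, pt_comp_const]
    have e2 : (s ≫ sndS C₁ C₂) ≫ i₂ = liftS o₁ (s ≫ sndS C₁ C₂) := by
      apply hom_extS
      · simp only [i₂, Category.assoc, liftS_fst]
        rw [← Category.assoc s, pt_comp_const]
      · simp only [i₂, Category.assoc, liftS_snd, Category.comp_id]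
    have e3 : (s ≫ fstS C₁ C₂) ≫ c = liftS o₁ o₂ := by
      simp only [c]
      rw [pt_comp_const]
    have e4 : liftS (s ≫ fstS C₁ C₂) (s ≫ sndS C₁ C₂) = s := by
      apply hom_extS
      · rw [liftS_fst]
      · rw [liftS_snd]
    rw [e1, e2, e3]
    unfold qq
    simp only [map_sub, LinearMap.sub_apply, beta_single, e4]
    abel
  have ha := congrArg (fun F => F a) key
  simp only [LinearMap.comp_apply, LinearMap.add_apply, LinearMap.sub_apply,
    LinearMap.id_apply, pushL_apply] at ha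
  rw [← ha]
  have hsub : ∀ z ∈ ratTrivial (prodS C₁ C₂), z ∈ Submodule.span ℚ (genSet o₁ o₂) := fun z hz =>
    Submodule.subset_span (Or.inr hz)
  refine Submodule.sub_mem _ (Submodule.add_mem _ (Submodule.add_mem _ ?_ ?_) ?_) ?_
  · rw [Finsupp.linearCombination_apply, Finsupp.sum]
    apply Submodule.sum_mem
    intro s _
    exact Submodule.smul_mem _ _ (Submodule.subset_span (Or.inl ⟨s, rfl⟩))
  · exact hsub _ (push_mem _ h₁)
  · exact hsub _ (push_mem _ h₂)
  · exact hsub _ (push_mem _ h₁)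

/-- The alternating sum of the exterior products, as a multilinear map. -/
noncomputable def altTheta (X : Sch k) (n : ℕ) :
    MultilinearMap ℚ (fun _ : Fin n => (Pt X →₀ ℚ)) (CH0 (powS X n)) :=
  ∑ σ : Perm (Fin n), (((Perm.sign σ : ℤˣ) : ℤ) : ℚ) • (theta X n).domDomCongr σ

lemma altTheta_apply {X : Sch k} (v : Fin n → (Pt X →₀ ℚ)) :
    altTheta X n v = ∑ σ : Perm (Fin n), ((Perm.sign σ : ℤˣ) : ℤ) •
      theta X n (fun i => v (σ i)) := by
  unfold altTheta
  rw [_root_.sum_apply]
  apply Finset.sum_congr rfl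
  intro σ _
  rw [_root_.smul_apply, MultilinearMap.domDomCongr_apply, Int.cast_smul_eq_zsmul]

lemma altTheta_kill {X : Sch k} (v : Fin n → (Pt X →₀ ℚ)) (j : Fin n)
    (hj : v j ∈ ratTrivial X) : altTheta X n v = 0 := by
  rw [altTheta_apply]
  apply Finset.sum_eq_zero
  intro σ _
  rw [theta_kill (fun i => v (σ i)) (σ⁻¹ j) (by simpa using hj), smul_zero]

lemma altTheta_qq [IsCurve C₁] [IsCurve C₂] {g₁ g₂ : ℕ} (hg₁ : genus C₁ = g₁)
    (hg₂ : genus C₂ = g₂) (hn : g₁ * g₂ < n) (o₁ : Pt C₁) (o₂ : Pt C₂)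
    (s : Fin n → Pt (prodS C₁ C₂)) : altTheta (prodS C₁ C₂) n (fun i => qq o₁ o₂ (s i)) = 0 := by
  have hv' : ∀ σ : Perm (Fin n), theta (prodS C₁ C₂) n (fun i => qq o₁ o₂ (s (σ i))) =
      bilQ C₁ C₂ n ((diagRel (Fin n) (Prin C₁)).mkQ
        (extProd fun i => (Finsupp.single (s (σ i) ≫ fstS C₁ C₂) (1 : ℚ) - Finsupp.single o₁ 1)))
        ((diagRel (Fin n) (Prin C₂)).mkQ
        (extProd fun i =>
          (Finsupp.single (s (σ i) ≫ sndS C₁ C₂) (1 : ℚ) - Finsupp.single o₂ 1))) := by
    intro σ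
    rw [bilQ_mk, ← theta_beta]
    rfl
  have A₁ := altFun_extProd (ι := Fin n) (Prin C₁) g₁
    (fun t o ht => exists_effective C₁ hg₁ t o ht) (fun i => s i ≫ fstS C₁ C₂) o₁
  have A₂ := altFun_extProd (ι := Fin n) (Prin C₂) g₂
    (fun t o ht => exists_effective C₂ hg₂ t o ht) (fun i => s i ≫ sndS C₁ C₂) o₂
  have hdiag := signed_diagonal_linear hn (bilQ C₁ C₂ n) A₁ A₂
  rw [altTheta_apply, ← hdiag]
  apply Finset.sum_congr rfl
  intro σ _
  rw [hv' σ]

/-- **Voisin's conjecture for products of two curves.** -/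
theorem voisin_product [IsCurve C₁] [IsCurve C₂] {g₁ g₂ : ℕ} (hg₁ : genus C₁ = g₁)
    (hg₂ : genus C₂ = g₂) (hn : g₁ * g₂ < n) (a : Fin n → (Pt (prodS C₁ C₂) →₀ ℚ))
    (h₁ : ∀ i, push (fstS C₁ C₂) (a i) ∈ ratTrivial C₁)
    (h₂ : ∀ i, push (sndS C₁ C₂) (a i) ∈ ratTrivial C₂) :
    altTheta (prodS C₁ C₂) n a = 0 := by
  classical
  have hn0 : 0 < n := by omega
  by_cases hne : Nonempty (Pt (prodS C₁ C₂))
  swap
  · have hE : IsEmpty (Pt (prodS C₁ C₂)) := not_nonempty_iff.1 hne
    have h0 : a ⟨0, hn0⟩ = 0 := by ext x; exact (hE.false x).elim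
    exact MultilinearMap.map_coord_zero _ (⟨0, hn0⟩ : Fin n) h0
  obtain ⟨s₀⟩ := hne
  have hmem : ∀ i, a i ∈ Submodule.span ℚ (genSet (s₀ ≫ fstS C₁ C₂) (s₀ ≫ sndS C₁ C₂)) :=
    fun i => mem_span_of_albanese _ _ (a i) (h₁ i) (h₂ i)
  refine multilinear_eq_zero_of_span (altTheta (prodS C₁ C₂) n)
    (fun _ => genSet (s₀ ≫ fstS C₁ C₂) (s₀ ≫ sndS C₁ C₂)) ?_ a hmem
  intro v hv
  by_cases hex : ∃ j, v j ∈ ratTrivial (prodS C₁ C₂)
  · obtain ⟨j, hj⟩ := hex
    exact altTheta_kill v j hj
  · push Not at hex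
    have hs : ∀ i, ∃ s, qq (s₀ ≫ fstS C₁ C₂) (s₀ ≫ sndS C₁ C₂) s = v i := by
      intro i
      rcases hv i with h | h
      · exact h
      · exact absurd h (hex i)
    choose s hs using hs
    have hv2 : v = fun i => qq (s₀ ≫ fstS C₁ C₂) (s₀ ≫ sndS C₁ C₂) (s i) := funext fun i => (hs i).symm
    rw [hv2]
    exact altTheta_qq hg₁ hg₂ hn _ _ s

end

end Q58.Chow
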