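import Mathlib

/-!
Gaussian binomials in a commutative semiring and the `q`-identity needed for the
Quot zeta function of the `(2,2m)` link singularity.
-/

namespace Q58QL

open Finset

/-- Gaussian binomial coefficient, by the `q`-Pascal recursion. -/
def gb {S : Type*} [CommSemiring S] (q : S) : ℕ → ℕ → S
  | _, 0 => 1
  | 0, _ + 1 => 0
  | n + 1, k + 1 => gb q n k + q ^ (k + 1) * gb q n (k + 1)

section semiring
variable {S : Type*} [CommSemiring S] (q : S)

@[simp] lemma gb_zero_right (n : ℕ) : gb q n 0 = 1 := by cases n <;> rfl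

@[simp] lemma gb_zero_succ (k : ℕ) : gb q 0 (k + 1) = 0 := rfl

lemma gb_succ_succ (n k : ℕ) :
    gb q (n + 1) (k + 1) = gb q n k + q ^ (k + 1) * gb q n (k + 1) := rfl

lemma gb_eq_zero {n k : ℕ} (h : n < k) : gb q n k = 0 := by
  induction n generalizing k with
  | zero => obtain ⟨k, rfl⟩ := Nat.exists_eq_succ_of_ne_zero (by omega : k ≠ 0); rfl
  | succ n ih =>
    obtain ⟨k, rfl⟩ := Nat.exists_eq_succ_of_ne_zero (by omega : k ≠ 0)
    rw [Nat.succ_eq_add_one, gb_succ_succ, ih (by omega), ih (by omega)]; simp

@[simp] lemma gb_self (n : ℕ) : gb q n n = 1 := by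
  induction n with
  | zero => rfl
  | succ n ih => rw [gb_succ_succ, ih, gb_eq_zero q (by omega)]; simp

lemma map_gb {T : Type*} [CommSemiring T] (f : S →+* T) (n k : ℕ) :
    f (gb q n k) = gb (f q) n k := by
  induction n generalizing k with
  | zero => cases k <;> simp
  | succ n ih => cases k with
    | zero => simp
    | succ k => simp [gb_succ_succ, ih]

end semiring

section ring
variable {S : Type*} [CommRing S] (q : S)

lemma prod_shift (a : S) (k : ℕ) :
    ∏ i ∈ range k, (q * a - q ^ (i + 1)) = q ^ k * ∏ i ∈ range k, (a - q ^ i) := by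
  induction k with
  | zero => simp
  | succ k ih => rw [prod_range_succ, prod_range_succ, ih]; ring

lemma gb_mul_prod (n k : ℕ) :
    gb q n k * ∏ i ∈ range k, (q ^ k - q ^ i) = ∏ i ∈ range k, (q ^ n - q ^ i) := by
  induction n generalizing k with
  | zero =>
    cases k with
    | zero => simp
    | succ k => simp [prod_range_succ']
  | succ n ih =>
    cases k with
    | zero => simp
    | succ k =>
      have h1 : ∏ i ∈ range (k + 1), (q ^ (k + 1) - q ^ i)
          = (q ^ (k + 1) - 1) * (q ^ k * ∏ i ∈ range k, (q ^ k - q ^ i)) := by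
        rw [prod_range_succ', ← prod_shift]
        simp only [pow_succ', pow_zero, Nat.zero_eq]
        ring
      have h2 : ∏ i ∈ range (k + 1), (q ^ (n + 1) - q ^ i)
          = (q ^ (n + 1) - 1) * (q ^ k * ∏ i ∈ range k, (q ^ n - q ^ i)) := by
        rw [prod_range_succ', ← prod_shift]
        simp only [pow_succ', pow_zero, Nat.zero_eq]
        ring
      have h3 := ih k
      have h4 := ih (k + 1)
      rw [h1] at h4
      rw [prod_range_succ] at h4
      rw [gb_succ_succ, add_mul, mul_assoc (q ^ (k + 1)), h1, h2, h4, ← h3]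
      ring

/-- `(t;q)_k` -/
def poch (t : S) (k : ℕ) : S := ∏ i ∈ range k, (1 - q ^ i * t)

@[simp] lemma poch_zero (t : S) : poch q t 0 = 1 := by simp [poch]

lemma poch_succ (t : S) (k : ℕ) : poch q t (k + 1) = poch q t k * (1 - q ^ k * t) := by
  simp [poch, prod_range_succ]

lemma poch_succ' (t : S) (k : ℕ) : poch q t (k + 1) = (1 - t) * poch q (q * t) k := by
  rw [poch, poch, prod_range_succ', mul_comm]
  congr 1
  · simp
  · apply prod_congr rfl; intros; ring

/-- The key `q`-identity. -/
lemma key_identity (d : ℕ) : ∀ (r : ℕ) (t : S),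
    ∑ s ∈ range (d + 1), (q ^ r * t) ^ (d - s) * gb q s r * gb q d s * poch q t s
      = gb q d r * poch q t r := by
  induction d with
  | zero => intro r t; cases r <;> simp
  | succ d ih =>
    intro r t
    -- split by Pascal
    have e1 : ∑ s ∈ range (d + 1 + 1), (q ^ r * t) ^ (d + 1 - s) * gb q s r * gb q (d + 1) s
          * poch q t s
        = ∑ s ∈ range (d + 1), (q ^ r * t) ^ (d - s) * gb q d s * poch q t s *
            (gb q (s + 1) r * (1 - q ^ s * t) + q ^ (r + s) * t * gb q s r) := by
      rw [sum_range_succ' _ (d + 1)]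
      have e2 : ∑ s ∈ range (d + 1), (q ^ r * t) ^ (d - s) * gb q d s * poch q t s *
            (gb q (s + 1) r * (1 - q ^ s * t) + q ^ (r + s) * t * gb q s r)
          = ∑ s ∈ range (d + 1), (q ^ r * t) ^ (d - s) * gb q d s * poch q t s *
            (gb q (s + 1) r * (1 - q ^ s * t)) +
            ∑ s ∈ range (d + 2), (q ^ r * t) ^ (d + 1 - s) * gb q d s * poch q t s *
            (q ^ s * gb q s r) := by
        rw [sum_range_succ _ (d + 1), gb_eq_zero q (Nat.lt_succ_self d)]
        rw [mul_zero, zero_mul, zero_mul, add_zero, ← sum_add_distrib]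
        apply sum_congr rfl
        intro s hs
        have hs' : s ≤ d := by simpa [Nat.lt_succ_iff] using hs
        rw [show d + 1 - s = (d - s) + 1 by omega]
        ring
      rw [e2, sum_range_succ' _ (d + 1)]
      rw [← add_assoc, ← sum_add_distrib]
      congr 1
      · apply sum_congr rfl
        intro s hs
        rw [gb_succ_succ, poch_succ, show d + 1 - (s + 1) = d - s by omega]
        ring
      · simp
    rw [e1]
    cases r with
    | zero =>
      have := ih 0 t
      simp only [pow_zero, one_mul, gb_zero_right, poch_zero, mul_one] at this ⊢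
      refine Eq.trans ?_ this
      apply sum_congr rfl
      intro s _
      ring
    | succ r =>
      have h1 := ih (r + 1) t
      have h2 := ih r (q * t)
      have : gb q (d + 1) (r + 1) * poch q t (r + 1)
          = gb q d r * ((1 - t) * poch q (q * t) r)
            + q ^ (r + 1) * (gb q d (r + 1) * poch q t (r + 1)) := by
        rw [gb_succ_succ, ← poch_succ']; ring
      rw [this, ← h1, show gb q d r * ((1 - t) * poch q (q * t) r)
        = (1 - t) * (gb q d r * poch q (q * t) r) by ring, ← h2, mul_sum, mul_sum,
        ← sum_add_distrib]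
      apply sum_congr rfl
      intro s hs
      rw [gb_succ_succ]
      have h3 : poch q t s * (1 - q ^ s * t) = (1 - t) * poch q (q * t) s := by
        rw [← poch_succ, poch_succ']
      have h4 : (q ^ (r + 1) * t) = q ^ r * (q * t) := by ring
      calc (q ^ (r + 1) * t) ^ (d - s) * gb q d s * poch q t s *
            ((gb q s r + q ^ (r + 1) * gb q s (r + 1)) * (1 - q ^ s * t)
              + q ^ (r + 1 + s) * t * gb q s (r + 1))
          = (q ^ (r + 1) * t) ^ (d - s) * gb q d s * gb q s r * (poch q t s * (1 - q ^ s * t))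
            + q ^ (r + 1) * ((q ^ (r + 1) * t) ^ (d - s) * gb q s (r + 1) * gb q d s
              * poch q t s) := by ring
        _ = _ := by rw [h3, h4]; ring

end ring

end Q58QL
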