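import Pool.Agent.Q58.QLLink

/-!
The number of stable submodules of given index, as the coefficient of a product.
-/

namespace Q58QL

open Finset Module PowerSeries

section
variable {F : Type} [Field F] [Fintype F] {d : ℕ}

/-- the submodules of `K` of index `q^n` in `E` -/
lemma card_below {P : SM F d} (hP : idx P ≠ 0) (n : ℕ) :
    Nat.card {N : SM F d // N ≤ P ∧ idx N = Fintype.card F ^ n} =
      if cod P ≤ n then (lev (fun _ : SM F d => 0) (n - cod P)).card else 0 := by
  classical
  obtain ⟨A, hA, hAP⟩ := exists_param hP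
  have h1 : Nat.card {N : SM F d // N ≤ P ∧ idx N = Fintype.card F ^ n} =
      Nat.card {N : SM F d // idx N * idx P = Fintype.card F ^ n} := by
    symm
    apply Nat.card_congr
    refine ⟨fun N => ⟨N.1.map A, ?_, ?_⟩, fun N => ⟨N.1.comap A, ?_⟩, ?_, ?_⟩
    · exact (LinearMap.map_le_range).trans hAP.le
    · rw [idx_map hA, hAP]; exact N.2
    · have h2 : (N.1.comap A).map A = N.1 := by
        rw [Submodule.map_comap_eq, inf_eq_right, hAP]; exact N.2.1
      have h3 := idx_map hA (N.1.comap A)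
      rw [h2, hAP] at h3
      rw [← h3]; exact N.2.2
    · intro N
      apply Subtype.ext
      exact Submodule.comap_map_eq_of_injective hA _
    · intro N
      apply Subtype.ext
      show (N.1.comap A).map A = N.1
      rw [Submodule.map_comap_eq, inf_eq_right, hAP]; exact N.2.1
  rw [h1, idx_eq hP]
  by_cases hn : cod P ≤ n
  · rw [if_pos hn, ← Nat.card_eq_finsetCard]
    apply Nat.card_congr
    apply Equiv.subtypeEquivRight
    intro N
    rw [mem_lev, add_zero, ← cod_eq_iff]
    constructor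
    · intro h
      have h2 : Fintype.card F ^ n = Fintype.card F ^ (n - cod P) * Fintype.card F ^ cod P := by
        rw [← pow_add]; congr 1; omega
      rw [h2] at h
      exact Nat.eq_of_mul_eq_mul_right (pow_pos Fintype.card_pos _) h
    · intro h
      rw [h, ← pow_add]; congr 1; omega
  · rw [if_neg hn]
    have : IsEmpty {N : SM F d // idx N * Fintype.card F ^ cod P = Fintype.card F ^ n} := by
      constructor
      rintro ⟨N, hN⟩
      have h0 : idx N ≠ 0 := by
        rintro h
        rw [h, zero_mul] at hN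
        exact (pow_ne_zero _ Fintype.card_ne_zero) hN.symm
      rw [idx_eq h0, ← pow_add] at hN
      have := Nat.pow_right_injective Fintype.one_lt_card hN
      omega
    exact Nat.card_of_isEmpty

lemma coeff_ZZ (n : ℕ) : coeff n (ZZ F d) = (lev (fun _ : SM F d => 0) n).card := by
  have h := sum_gs (F := F) (d := d) (fun _ => 0) (fun _ => 1)
  rw [ZZ]
  simp only [FF]
  rw [h, coeff_mk]; simp

omit [Fintype F] in
lemma Sol_le {m : ℕ} {K N : SM F d} {φ : N →ₗ[PowerSeries F] (E F d ⧸ K)}
    (hφ : φ ∈ Sol m K N) : N ≤ Pm m K := by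
  intro v hv
  exact mem_Pm'.2 ⟨φ ⟨v, hv⟩, hφ ⟨v, hv⟩⟩

/-- number of stable submodules with given fibre `K` and `idx (prL L) = q^n` -/
theorem card_stab_fiber (m n : ℕ) {K : SM F d} (hK : idx K ≠ 0) :
    Finite {L : S2 F d // Stab m L ∧ kerL L = K ∧ idx (prL L) = Fintype.card F ^ n} ∧
    Nat.card {L : S2 F d // Stab m L ∧ kerL L = K ∧ idx (prL L) = Fintype.card F ^ n} =
      Fintype.card F ^ (d * cm m K) *
        (if cm m K ≤ n then (lev (fun _ : SM F d => 0) (n - cm m K)).card else 0) := by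
  classical
  have hPm : idx (Pm m K) ≠ 0 := by
    rw [idx_Pm m hK]; exact pow_ne_zero _ Fintype.card_ne_zero
  have hcod : cod (Pm m K) = cm m K := ((cod_eq_iff _).1 (idx_Pm m hK)).2
  have hidx : ∀ N : {N : SM F d // N ≤ Pm m K ∧ idx N = Fintype.card F ^ n}, idx N.1 ≠ 0 := by
    intro N; rw [N.2.2]; exact pow_ne_zero _ Fintype.card_ne_zero
  have hcY : ∀ N : {N : SM F d // N ≤ Pm m K ∧ idx N = Fintype.card F ^ n},
      Nat.card (Yset m K N.1) = Fintype.card F ^ (d * cm m K) := by
    intro N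
    rw [card_Yset, card_Sol m hK (hidx N), if_pos N.2.1]
  have hfinY : ∀ N : {N : SM F d // N ≤ Pm m K ∧ idx N = Fintype.card F ^ n},
      Finite (Yset m K N.1) := by
    intro N
    apply Nat.finite_of_card_ne_zero
    rw [hcY N]
    exact pow_ne_zero _ Fintype.card_ne_zero
  have hfinN : Finite {N : SM F d // N ≤ Pm m K ∧ idx N = Fintype.card F ^ n} := by
    apply Finite.of_injective (β := {N : SM F d // N ∈ lev (fun _ : SM F d => 0) n})
      (fun N => ⟨N.1, by rw [mem_lev, add_zero, ← cod_eq_iff]; exact N.2.2⟩)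
    intro N N' h
    exact Subtype.ext (congrArg (fun z => z.1) h)
  have := Fintype.ofFinite {N : SM F d // N ≤ Pm m K ∧ idx N = Fintype.card F ^ n}
  -- split by projection
  let f : (Σ N : {N : SM F d // N ≤ Pm m K ∧ idx N = Fintype.card F ^ n}, Yset m K N.1) →
      {L : S2 F d // Stab m L ∧ kerL L = K ∧ idx (prL L) = Fintype.card F ^ n} :=
    fun x => ⟨x.2.1, x.2.2.1, x.2.2.2.1, by rw [x.2.2.2.2]; exact x.1.2.2⟩
  have hf : Function.Bijective f := by
    constructor
    · rintro ⟨⟨N, hN⟩, ⟨L, h1, h2, h3⟩⟩ ⟨⟨N', hN'⟩, ⟨L', h1', h2', h3'⟩⟩ h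
      have h4 : L = L' := congrArg Subtype.val h
      subst h4
      have h5 : N = N' := h3.symm.trans h3'
      subst h5
      rfl
    · rintro ⟨L, h1, h2, h3⟩
      subst h2
      obtain ⟨φ, hφ, _⟩ := exists_gr L h1
      exact ⟨⟨⟨prL L, Sol_le hφ, h3⟩, ⟨L, h1, rfl, rfl⟩⟩, rfl⟩
  refine ⟨Finite.of_equiv _ (Equiv.ofBijective f hf), ?_⟩
  rw [← Nat.card_congr (Equiv.ofBijective f hf), Nat.card_sigma,
    Finset.sum_congr rfl (fun N _ => hcY N), Finset.sum_const, Finset.card_univ,
    ← Nat.card_eq_fintype_card, card_below hPm, hcod, smul_eq_mul, mul_comm]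

/-- generating function of stable submodules by codimension -/
noncomputable def ZL (F : Type) [Field F] [Fintype F] (d m : ℕ) : PowerSeries ℤ :=
  PowerSeries.mk fun N => (Nat.card {L : S2 F d // Stab m L ∧
    L.toAddSubgroup.index = Fintype.card F ^ N} : ℤ)

/-- all `K` of codimension at most `N` -/
noncomputable def KN (F : Type) [Field F] [Fintype F] (d N : ℕ) : Finset (SM F d) :=
  (Set.Finite.biUnion (Set.finite_Iic N) (fun n _ => finite_cod (F := F) (d := d) n)).toFinset

lemma mem_KN {N : ℕ} {K : SM F d} : K ∈ KN F d N ↔ idx K ≠ 0 ∧ cod K ≤ N := by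
  rw [KN, Set.Finite.mem_toFinset]
  simp only [Set.mem_iUnion, Set.mem_Iic]
  constructor
  · rintro ⟨n, hn, h1, h2⟩; exact ⟨h1, by omega⟩
  · rintro ⟨h1, h2⟩; exact ⟨cod K, h2, h1, rfl⟩

theorem ZL_eq (m : ℕ) : ZL F d m = (∑ w ∈ range (d + 1), TT F d m w) * ZZ F d := by
  classical
  ext N
  -- left side as a sum over `K`
  have h1 : coeff N (ZL F d m) = ∑ K ∈ KN F d N,
      ((Fintype.card F ^ (d * cm m K) *
        (if cm m K ≤ N - cod K then (lev (fun _ : SM F d => 0) (N - cod K - cm m K)).card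
          else 0) : ℕ) : ℤ) := by
    rw [ZL, coeff_mk, ← Nat.cast_sum]
    congr 1
    have hfin : ∀ K : {K : SM F d // K ∈ KN F d N},
        Finite {L : S2 F d // Stab m L ∧ kerL L = K.1 ∧
          idx (prL L) = Fintype.card F ^ (N - cod K.1)} :=
      fun K => (card_stab_fiber m (N - cod K.1) (mem_KN.1 K.2).1).1
    let f : (Σ K : {K : SM F d // K ∈ KN F d N}, {L : S2 F d // Stab m L ∧ kerL L = K.1 ∧
          idx (prL L) = Fintype.card F ^ (N - cod K.1)}) →
        {L : S2 F d // Stab m L ∧ L.toAddSubgroup.index = Fintype.card F ^ N} :=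
      fun x => ⟨x.2.1, x.2.2.1, by
        have hK := mem_KN.1 x.1.2
        rw [index_L, x.2.2.2.1, x.2.2.2.2, idx_eq hK.1, ← pow_add]
        congr 1
        have := hK.2
        omega⟩
    have hf : Function.Bijective f := by
      constructor
      · rintro ⟨⟨K, hK⟩, ⟨L, h1, h2, h3⟩⟩ ⟨⟨K', hK'⟩, ⟨L', h1', h2', h3'⟩⟩ h
        have h4 : L = L' := congrArg Subtype.val h
        subst h4
        have h5 : K = K' := h2.symm.trans h2'
        subst h5
        rfl
      · rintro ⟨L, h1, h2⟩
        rw [index_L] at h2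
        have hne : idx (kerL L) * idx (prL L) ≠ 0 := by
          rw [h2]; exact pow_ne_zero _ Fintype.card_ne_zero
        have ha := left_ne_zero_of_mul hne
        have hb := right_ne_zero_of_mul hne
        have h3 := h2
        rw [idx_eq ha, idx_eq hb, ← pow_add] at h3
        have h4 := Nat.pow_right_injective Fintype.one_lt_card h3
        refine ⟨⟨⟨kerL L, mem_KN.2 ⟨ha, by omega⟩⟩, ⟨L, h1, rfl, ?_⟩⟩, rfl⟩
        show idx (prL L) = Fintype.card F ^ (N - cod (kerL L))
        rw [idx_eq hb]; congr 1; omega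
    rw [← Nat.card_congr (Equiv.ofBijective f hf), Nat.card_sigma]
    rw [← Finset.sum_coe_sort (KN F d N)]
    apply Finset.sum_congr rfl
    intro K _
    exact (card_stab_fiber m (N - cod K.1) (mem_KN.1 K.2).1).2
  rw [h1]
  -- right side
  let G : PowerSeries ℤ := ∑ K ∈ KN F d N,
    PowerSeries.C ((Fintype.card F : ℤ) ^ (d * cm m K)) * X ^ (cod K + cm m K)
  have hG : ∀ n ≤ N, coeff n (∑ w ∈ range (d + 1), TT F d m w) = coeff n G := by
    intro n hn
    simp only [TT]
    rw [sum_gs, coeff_mk, map_sum]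
    have h2 : ∀ K ∈ KN F d N, coeff n (PowerSeries.C ((Fintype.card F : ℤ) ^ (d * cm m K))
        * X ^ (cod K + cm m K)) = if cod K + cm m K = n then
          (Fintype.card F : ℤ) ^ (d * cm m K) else 0 := by
      intro K _
      rw [coeff_C_mul, coeff_X_pow]
      by_cases h : n = cod K + cm m K
      · rw [if_pos h, if_pos h.symm, mul_one]
      · rw [if_neg h, if_neg (fun h' => h h'.symm), mul_zero]
    rw [Finset.sum_congr rfl h2, ← Finset.sum_filter]
    apply Finset.sum_congr _ (fun _ _ => rfl)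
    ext K
    rw [mem_lev, Finset.mem_filter, mem_KN]
    constructor
    · rintro ⟨h3, h4⟩; exact ⟨⟨h3, by omega⟩, h4⟩
    · rintro ⟨⟨h3, _⟩, h4⟩; exact ⟨h3, h4⟩
  have h2 : coeff N ((∑ w ∈ range (d + 1), TT F d m w) * ZZ F d) = coeff N (G * ZZ F d) := by
    rw [coeff_mul, coeff_mul]
    apply Finset.sum_congr rfl
    intro p hp
    rw [Finset.HasAntidiagonal.mem_antidiagonal] at hp
    rw [hG p.1 (by omega)]
  rw [h2, Finset.sum_mul, map_sum]
  apply Finset.sum_congr rfl
  intro K hK
  have hK2 := (mem_KN.1 hK).2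
  rw [mul_assoc, coeff_C_mul, mul_comm (X ^ _), coeff_mul_X_pow']
  by_cases hc : cm m K ≤ N - cod K
  · rw [if_pos hc, if_pos (by omega), coeff_ZZ]
    rw [show N - cod K - cm m K = N - (cod K + cm m K) by omega]
    push_cast; rfl
  · rw [if_neg hc, if_neg (by omega)]
    simp

end

end Q58QL
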