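import Pool.Agent.Q58.QLLat

/-!
Generating functions of finite index submodules of `F⟦X⟧^d`.
-/

namespace Q58QL

open Finset Module PowerSeries

section
variable {F : Type} [Field F] [Fintype F] {d : ℕ}

/-- shorthand for the type of submodules -/
abbrev SM (F : Type) [Field F] (d : ℕ) := Submodule (PowerSeries F) (E F d)

lemma exists_idx_eq {K : SM F d} (h : idx K ≠ 0) : ∃ n, idx K = Fintype.card F ^ n := by
  have hf := finite_quot h
  refine ⟨finrank F (E F d ⧸ K), ?_⟩
  rw [← Nat.card_eq_fintype_card, ← Module.natCard_eq_pow_finrank (K := F) (V := E F d ⧸ K)]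
  rfl

/-- codimension over `F` of a finite index submodule -/
noncomputable def cod (K : SM F d) : ℕ := Nat.log (Fintype.card F) (idx K)

lemma idx_eq {K : SM F d} (h : idx K ≠ 0) : idx K = Fintype.card F ^ cod K := by
  obtain ⟨n, hn⟩ := exists_idx_eq h
  rw [cod, hn, Nat.log_pow Fintype.one_lt_card]

lemma cod_eq_iff {K : SM F d} (n : ℕ) :
    idx K = Fintype.card F ^ n ↔ idx K ≠ 0 ∧ cod K = n := by
  constructor
  · intro h
    have h0 : idx K ≠ 0 := by rw [h]; exact pow_ne_zero _ Fintype.card_ne_zero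
    refine ⟨h0, ?_⟩
    rw [cod, h, Nat.log_pow Fintype.one_lt_card]
  · rintro ⟨h0, rfl⟩; exact idx_eq h0

omit [Fintype F] in
lemma idx_kap_ne' {K : SM F d} (h : idx K ≠ 0) : idx (kap K) ≠ 0 :=
  idx_ne_zero_of_le (le_kap K) h

lemma cod_kap {K : SM F d} (h : idx K ≠ 0) : cod K = cod (kap K) + (d - rho K) := by
  have h1 := idx_kap h
  rw [idx_eq h, idx_eq (idx_kap_ne' h), ← pow_add] at h1
  exact Nat.pow_right_injective Fintype.one_lt_card h1

omit [Fintype F] in
lemma kap_mono {K : SM F d} (h : kap K = K) (v : E F d) (N : ℕ)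
    (hv : (X : PowerSeries F) ^ N • v ∈ K) : v ∈ K := by
  induction N with
  | zero => simpa using hv
  | succ N ih =>
    apply ih
    rw [← h, mem_kap, smul_smul, ← pow_succ']
    exact hv

lemma eq_top_of_rho {K : SM F d} (h : idx K ≠ 0) (hr : rho K = d) : K = ⊤ := by
  have h1 := idx_kap h
  rw [hr, Nat.sub_self, pow_zero, mul_one] at h1
  have h2 : kap K = K := by
    have h3 : K.toAddSubgroup ≤ (kap K).toAddSubgroup := le_kap K
    have h4 := AddSubgroup.relIndex_mul_index h3
    have h5 : (K.toAddSubgroup).relIndex (kap K).toAddSubgroup = 1 := by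
      have h6 : (K.toAddSubgroup).relIndex (kap K).toAddSubgroup * idx (kap K) = 1 * idx (kap K) := by
        rw [one_mul]
        exact h4.trans h1
      exact Nat.eq_of_mul_eq_mul_right (Nat.pos_of_ne_zero (idx_kap_ne' h)) h6
    rw [AddSubgroup.relIndex_eq_one] at h5
    exact le_antisymm h5 (le_kap K)
  obtain ⟨N, hN⟩ := exists_pow h
  rw [eq_top_iff]
  intro v _
  exact kap_mono h2 v N (hN v)

omit [Fintype F] in
lemma rho_top : rho (⊤ : SM F d) = d := by
  have : red (⊤ : SM F d) = ⊤ := by
    rw [eq_top_iff]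
    intro w _
    exact ⟨lift0 w, trivial, cc_lift0 w⟩
  rw [rho, this, finrank_top, Module.finrank_fin_fun]

omit [Fintype F] in
lemma idx_top : idx (⊤ : SM F d) = 1 := by
  unfold idx
  exact AddSubgroup.index_top

lemma finite_cod (n : ℕ) : {K : SM F d | idx K ≠ 0 ∧ cod K = n}.Finite := by
  induction n using Nat.strong_induction_on with
  | _ n ih =>
    have hsub : {K : SM F d | idx K ≠ 0 ∧ cod K = n} ⊆
        {⊤} ∪ ⋃ m ∈ Set.Iio n, ⋃ K₁ ∈ {K : SM F d | idx K ≠ 0 ∧ cod K = m},
          {K : SM F d | kap K = K₁} := by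
      rintro K ⟨hK, hn⟩
      by_cases hr : rho K = d
      · left; exact eq_top_of_rho hK hr
      · right
        simp only [Set.mem_iUnion]
        have h1 := cod_kap hK
        have h2 := rho_le K
        exact ⟨cod (kap K), by show cod (kap K) < n; omega, kap K, ⟨idx_kap_ne' hK, rfl⟩, rfl⟩
    apply Set.Finite.subset _ hsub
    apply Set.Finite.union (Set.finite_singleton _)
    apply Set.Finite.biUnion (Set.finite_Iio n)
    intro m hm
    apply Set.Finite.biUnion (ih m hm)
    intro K₁ hK₁
    exact finite_fiber hK₁.1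

lemma finite_lev (e : SM F d → ℕ) (N : ℕ) :
    {K : SM F d | idx K ≠ 0 ∧ cod K + e K = N}.Finite := by
  apply Set.Finite.subset (Set.Finite.biUnion (Set.finite_Iic N) (fun n _ => finite_cod n))
  rintro K ⟨h1, h2⟩
  simp only [Set.mem_iUnion]
  exact ⟨cod K, by show cod K ≤ N; omega, h1, rfl⟩

/-- level set as a finset -/
noncomputable def lev (e : SM F d → ℕ) (N : ℕ) : Finset (SM F d) := (finite_lev e N).toFinset

lemma mem_lev {e : SM F d → ℕ} {N : ℕ} {K : SM F d} :
    K ∈ lev e N ↔ idx K ≠ 0 ∧ cod K + e K = N := by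
  simp [lev]

open Classical in
/-- generating function of all `K` with `rho K = w` -/
noncomputable def gs (e : SM F d → ℕ) (wt : SM F d → ℤ) (w : ℕ) : PowerSeries ℤ :=
  PowerSeries.mk fun N => ∑ K ∈ (lev e N).filter (fun K => rho K = w), wt K

lemma sum_gs (e : SM F d → ℕ) (wt : SM F d → ℤ) :
    ∑ w ∈ range (d + 1), gs e wt w = PowerSeries.mk fun N => ∑ K ∈ lev e N, wt K := by
  classical
  ext N
  rw [map_sum, coeff_mk]
  simp only [gs, coeff_mk]
  rw [Finset.sum_fiberwise_of_maps_to]
  intro K _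
  rw [Finset.mem_range]
  have := rho_le K
  omega

theorem gs_rec (e e' : SM F d → ℕ) (wt wt' : SM F d → ℤ) (s w : ℕ) (c : ℤ)
    (h1 : ∀ K : SM F d, idx K ≠ 0 → rho K = w → e K + (d - w) = e' (kap K) + s)
    (h2 : ∀ K : SM F d, idx K ≠ 0 → rho K = w → wt K = c * wt' (kap K)) :
    gs e wt w = PowerSeries.C c * X ^ s * ∑ w₁ ∈ range (d + 1),
      PowerSeries.C (((Fintype.card F : ℤ)) ^ ((d - w₁) * w) * gb (Fintype.card F : ℤ) w₁ w)
        * gs e' wt' w₁ := by
  classical
  ext N
  rw [mul_assoc, coeff_C_mul, mul_comm (X ^ s), coeff_mul_X_pow']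
  -- the fibre counts
  have hfib : ∀ (N' : ℕ), N = N' + s → ∀ K₁ ∈ lev e' N',
      (∑ K ∈ ((lev e N).filter (fun K => rho K = w)).filter (fun K => kap K = K₁), wt K)
        = c * (((Fintype.card F : ℤ) ^ ((d - rho K₁) * w) * gb (Fintype.card F : ℤ) (rho K₁) w)
            * wt' K₁) := by
    intro N' hN' K₁ hK₁
    rw [mem_lev] at hK₁
    have hc : (((lev e N).filter (fun K => rho K = w)).filter (fun K => kap K = K₁)).card
        = Fintype.card F ^ ((d - rho K₁) * w) * gb (Fintype.card F) (rho K₁) w := by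
      rw [← card_fiber hK₁.1 w, ← Nat.card_eq_finsetCard]
      apply Nat.card_congr
      apply Equiv.subtypeEquivRight
      intro K
      rw [Finset.mem_filter, Finset.mem_filter, mem_lev]
      constructor
      · rintro ⟨⟨_, h⟩, h'⟩; exact ⟨h', h⟩
      · rintro ⟨h, h'⟩
        have h0 : idx K ≠ 0 := idx_kap_ne (by rw [h]; exact hK₁.1)
        refine ⟨⟨⟨h0, ?_⟩, h'⟩, h⟩
        have h3 := cod_kap h0
        have h4 := h1 K h0 h'
        rw [h] at h3 h4
        have h5 := hK₁.2
        omega
    have hs : ∀ K ∈ ((lev e N).filter (fun K => rho K = w)).filter (fun K => kap K = K₁),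
        wt K = c * wt' K₁ := by
      intro K hK
      rw [Finset.mem_filter, Finset.mem_filter, mem_lev] at hK
      rw [h2 K hK.1.1.1 hK.1.2, hK.2]
    rw [Finset.sum_congr rfl hs, Finset.sum_const, hc, nsmul_eq_mul]
    have h5 : gb (Fintype.card F : ℤ) (rho K₁) w
        = ((gb (Fintype.card F) (rho K₁) w : ℕ) : ℤ) :=
      (map_gb (Fintype.card F) (Nat.castRingHom ℤ) _ _).symm
    rw [h5]
    push_cast
    ring
  by_cases hsN : s ≤ N
  · rw [if_pos hsN]
    obtain ⟨N', rfl⟩ : ∃ N', N = N' + s := ⟨N - s, by omega⟩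
    rw [Nat.add_sub_cancel]
    have hmap : ∀ K ∈ (lev e (N' + s)).filter (fun K => rho K = w), kap K ∈ lev e' N' := by
      intro K hK
      rw [Finset.mem_filter, mem_lev] at hK
      rw [mem_lev]
      refine ⟨idx_kap_ne' hK.1.1, ?_⟩
      have h3 := cod_kap hK.1.1
      have h4 := h1 K hK.1.1 hK.2
      have h5 := hK.1.2
      have h6 := hK.2
      omega
    rw [gs, coeff_mk, ← Finset.sum_fiberwise_of_maps_to hmap]
    rw [Finset.sum_congr rfl (hfib N' rfl), map_sum, Finset.mul_sum]
    have hmap2 : ∀ K ∈ lev e' N', rho K ∈ range (d + 1) := by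
      intro K _
      rw [Finset.mem_range]
      have := rho_le K
      omega
    rw [← Finset.sum_fiberwise_of_maps_to hmap2]
    apply Finset.sum_congr rfl
    intro w₁ _
    rw [coeff_C_mul, gs, coeff_mk, Finset.mul_sum, Finset.mul_sum]
    apply Finset.sum_congr rfl
    intro K hK
    rw [Finset.mem_filter] at hK
    rw [hK.2]
  · rw [if_neg hsN, mul_zero, gs, coeff_mk]
    apply Finset.sum_eq_zero
    intro K hK
    exfalso
    rw [Finset.mem_filter, mem_lev] at hK
    have h3 := cod_kap hK.1.1
    have h4 := h1 K hK.1.1 hK.2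
    have h5 := hK.1.2
    have h6 := hK.2
    omega

/-- the generating function of all `K` by codimension, `rho K = w` -/
noncomputable def FF (F : Type) [Field F] [Fintype F] (d w : ℕ) : PowerSeries ℤ :=
  gs (F := F) (d := d) (fun _ => 0) (fun _ => 1) w

/-- truncated codimension -/
noncomputable def cm : ℕ → SM F d → ℕ
  | 0, _ => 0
  | m + 1, K => (d - rho K) + cm m (kap K)

/-- refined generating function -/
noncomputable def TT (F : Type) [Field F] [Fintype F] (d m w : ℕ) : PowerSeries ℤ :=
  gs (F := F) (d := d) (cm m) (fun K => (Fintype.card F : ℤ) ^ (d * cm m K)) w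

lemma TT_zero (w : ℕ) : TT F d 0 w = FF F d w := by
  simp only [TT, FF, cm, mul_zero, pow_zero]

lemma FF_rec (w : ℕ) : FF F d w = X ^ (d - w) * ∑ w₁ ∈ range (d + 1),
      PowerSeries.C (((Fintype.card F : ℤ)) ^ ((d - w₁) * w) * gb (Fintype.card F : ℤ) w₁ w)
        * FF F d w₁ := by
  have h := gs_rec (F := F) (d := d) (fun _ => 0) (fun _ => 0) (fun _ => 1) (fun _ => 1)
    (d - w) w 1 (by intros; rfl) (by intros; simp)
  rw [map_one, one_mul] at h
  exact h

lemma TT_rec (m w : ℕ) : TT F d (m + 1) w =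
    PowerSeries.C ((Fintype.card F : ℤ) ^ (d * (d - w))) * X ^ (2 * (d - w)) *
    ∑ w₁ ∈ range (d + 1),
      PowerSeries.C (((Fintype.card F : ℤ)) ^ ((d - w₁) * w) * gb (Fintype.card F : ℤ) w₁ w)
        * TT F d m w₁ := by
  apply gs_rec
  · intro K _ hw
    simp only [cm, hw]
    omega
  · intro K _ hw
    simp only [cm, hw]
    rw [mul_add, pow_add]

lemma FF_top : FF F d d = 1 := by
  classical
  ext N
  rw [FF, gs, coeff_mk, coeff_one]
  by_cases hN : N = 0
  · rw [if_pos hN]
    have : (lev (fun _ : SM F d => 0) N).filter (fun K => rho K = d) = {⊤} := by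
      ext K
      rw [Finset.mem_filter, mem_lev, Finset.mem_singleton]
      constructor
      · rintro ⟨⟨h, _⟩, h'⟩; exact eq_top_of_rho h h'
      · rintro rfl
        refine ⟨⟨by rw [idx_top]; exact one_ne_zero, ?_⟩, rho_top⟩
        rw [cod, idx_top, hN]; simp
    rw [this]; simp
  · rw [if_neg hN]
    apply Finset.sum_eq_zero
    intro K hK
    exfalso
    rw [Finset.mem_filter, mem_lev] at hK
    have h1 := eq_top_of_rho hK.1.1 hK.2
    have h2 := hK.1.2
    rw [h1, cod, idx_top] at h2
    simp at h2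
    exact hN h2.symm

/-- `q` as a power series -/
noncomputable abbrev qq (F : Type) [Field F] [Fintype F] : PowerSeries ℤ :=
  PowerSeries.C (Fintype.card F : ℤ)

lemma C_coef (a w w₁ : ℕ) :
    PowerSeries.C (((Fintype.card F : ℤ)) ^ a * gb (Fintype.card F : ℤ) w₁ w)
      = qq F ^ a * gb (qq F) w₁ w := by
  rw [map_mul, map_pow, map_gb]

theorem FF_formula : ∀ r, r ≤ d → FF F d (d - r) * poch (qq F) X d =
    X ^ r * gb (qq F) d (d - r) * poch (qq F) X (d - r) := by
  intro r
  induction r using Nat.strong_induction_on with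
  | _ r ih =>
    intro hr
    by_cases h0 : r = 0
    · subst h0
      rw [Nat.sub_zero, FF_top]; simp
    · have hrec := FF_rec (F := F) (d := d) (d - r)
      have hdr : d - (d - r) = r := by omega
      rw [hdr] at hrec
      set w := d - r with hw
      have hwd : w < d := by omega
      -- split the sum at w
      have hkey := key_identity (qq F) d w (X : PowerSeries ℤ)
      have hterm : ∀ s ∈ range (d + 1), s ≠ w →
          (C (((Fintype.card F : ℤ)) ^ ((d - s) * w) * gb (Fintype.card F : ℤ) s w)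
            * FF F d s) * poch (qq F) X d = (qq F ^ w * X) ^ (d - s) * gb (qq F) s w *
              gb (qq F) d s * poch (qq F) X s := by
        intro s hs hsw
        rw [Finset.mem_range] at hs
        rw [C_coef]
        by_cases hlt : s < w
        · rw [gb_eq_zero _ hlt]; ring
        · have h3 := ih (d - s) (by omega) (by omega)
          rw [show d - (d - s) = s by omega] at h3
          rw [mul_assoc, h3, mul_pow, ← pow_mul, mul_comm w]
          ring
      have hmem : w ∈ range (d + 1) := by rw [Finset.mem_range]; omega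
      have h4 : FF F d w * poch (qq F) X d = X ^ r * (∑ s ∈ range (d + 1),
          (C (((Fintype.card F : ℤ)) ^ ((d - s) * w) * gb (Fintype.card F : ℤ) s w)
            * FF F d s) * poch (qq F) X d) := by
        rw [← Finset.sum_mul]
        conv_lhs => rw [hrec]
        ring
      rw [← Finset.add_sum_erase _ _ hmem] at h4
      rw [← Finset.add_sum_erase _ _ hmem] at hkey
      rw [Finset.sum_congr rfl (fun s hs => hterm s (Finset.mem_of_mem_erase hs)
        (Finset.ne_of_mem_erase hs))] at h4
      rw [C_coef, gb_self, hdr] at h4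
      rw [gb_self, hdr] at hkey
      set S' := ∑ s ∈ (range (d + 1)).erase w, (qq F ^ w * X) ^ (d - s) * gb (qq F) s w *
              gb (qq F) d s * poch (qq F) X s
      have h6 : S' = gb (qq F) d w * poch (qq F) X w
            - (qq F ^ w * X) ^ r * 1 * gb (qq F) d w * poch (qq F) X w := by
        rw [← hkey]; ring
      have h7 : (qq F ^ w * X) ^ r = qq F ^ (r * w) * X ^ r := by
        rw [mul_pow, ← pow_mul, mul_comm w r]
      have h5 : (1 - (qq F ^ w * X) ^ r) * (FF F d w * poch (qq F) X d)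
          = (1 - (qq F ^ w * X) ^ r) * (X ^ r * gb (qq F) d w * poch (qq F) X w) := by
        linear_combination h4 - (FF F d w * poch (qq F) X d) * h7 + X ^ r * h6
      have h9 : (1 - (qq F ^ w * X) ^ r : PowerSeries ℤ) ≠ 0 := by
        intro h10
        have h11 := congrArg constantCoeff h10
        simp [h0] at h11
      exact mul_left_cancel₀ h9 h5

/-- generating function of all finite index submodules -/
noncomputable def ZZ (F : Type) [Field F] [Fintype F] (d : ℕ) : PowerSeries ℤ :=
  ∑ w ∈ range (d + 1), FF F d w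

theorem ZZ_mul : ZZ F d * poch (qq F) X d = 1 := by
  have hkey := key_identity (qq F) d 0 (X : PowerSeries ℤ)
  rw [gb_zero_right, poch_zero, one_mul] at hkey
  rw [← hkey, ZZ, Finset.sum_mul]
  apply Finset.sum_congr rfl
  intro s hs
  rw [Finset.mem_range] at hs
  have h := FF_formula (F := F) (d := d) (d - s) (by omega)
  rw [show d - (d - s) = s by omega] at h
  rw [h]; simp

/-- the polynomials, in an arbitrary commutative semiring; index `m` stands for `m + 1` -/
def PP {S : Type*} [CommSemiring S] (q τ : S) (d : ℕ) : ℕ → ℕ → S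
  | 0, w => (q ^ d * τ ^ 2) ^ (d - w) * gb q d w * ∏ i ∈ range w, (1 + q ^ i * τ)
  | m + 1, w => (q ^ d * τ ^ 2) ^ (d - w) *
      ∑ w₁ ∈ range (d + 1), q ^ ((d - w₁) * w) * gb q w₁ w * PP q τ d m w₁

lemma map_PP {S T : Type*} [CommSemiring S] [CommSemiring T] (f : S →+* T) (q τ : S)
    (d m w : ℕ) : f (PP q τ d m w) = PP (f q) (f τ) d m w := by
  induction m generalizing w with
  | zero => simp [PP, map_gb]
  | succ m ih => simp [PP, map_gb, ih]

lemma poch_neg (w : ℕ) : poch (qq F) X w = ∏ i ∈ range w, (1 + qq F ^ i * (-X)) := by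
  rw [poch]
  apply Finset.prod_congr rfl
  intros; ring

theorem TT_formula (m w : ℕ) (hw : w ≤ d) :
    TT F d (m + 1) w * poch (qq F) X d = PP (qq F) (-X) d m w := by
  induction m generalizing w with
  | zero =>
    have hkey := key_identity (qq F) d w (X : PowerSeries ℤ)
    rw [TT_rec, PP, ← poch_neg, mul_assoc ((qq F ^ d * (-X) ^ 2) ^ (d - w)), ← hkey]
    rw [mul_assoc, Finset.sum_mul, map_pow]
    have h1 : (qq F) ^ (d * (d - w)) * X ^ (2 * (d - w)) = (qq F ^ d * (-X) ^ 2) ^ (d - w) := by
      rw [neg_sq, mul_pow, ← pow_mul, ← pow_mul]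
    rw [h1]
    congr 1
    apply Finset.sum_congr rfl
    intro s hs
    rw [Finset.mem_range] at hs
    rw [C_coef, TT_zero]
    have h := FF_formula (F := F) (d := d) (d - s) (by omega)
    rw [show d - (d - s) = s by omega] at h
    rw [mul_assoc, h, mul_pow, ← pow_mul, mul_comm w]
    ring
  | succ m ih =>
    rw [TT_rec, PP, mul_assoc, Finset.sum_mul, map_pow]
    have h1 : (qq F) ^ (d * (d - w)) * X ^ (2 * (d - w)) = (qq F ^ d * (-X) ^ 2) ^ (d - w) := by
      rw [neg_sq, mul_pow, ← pow_mul, ← pow_mul]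
    rw [h1]
    refine congrArg (fun z => (qq F ^ d * (-X) ^ 2) ^ (d - w) * z) ?_
    apply Finset.sum_congr rfl
    intro s hs
    rw [Finset.mem_range] at hs
    rw [C_coef, mul_assoc, ih s (by omega)]

end

end Q58QL
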