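import Pool.Agent.Q58.QLGen

/-!
Kernel and cokernel of `X^m` on `E/K`, and the number of solutions of a linear equation in
`Hom(N, E/K)`.
-/

namespace Q58QL

open Finset Module PowerSeries

section
variable {F : Type} [Field F] [Fintype F] {d : ℕ}

/-- `(K : X^m)` -/
def kapn : ℕ → SM F d → SM F d
  | 0, K => K
  | m + 1, K => kapn m (kap K)

omit [Fintype F] in
lemma mem_kapn (m : ℕ) (K : SM F d) (v : E F d) :
    v ∈ kapn m K ↔ (X : PowerSeries F) ^ m • v ∈ K := by
  induction m generalizing K with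
  | zero => simp [kapn]
  | succ m ih => rw [kapn, ih, mem_kap, smul_smul, ← pow_succ']

omit [Fintype F] in
lemma le_kapn (m : ℕ) (K : SM F d) : K ≤ kapn m K := fun v hv => by
  rw [mem_kapn]; exact K.smul_mem _ hv

lemma idx_kapn (m : ℕ) {K : SM F d} (h : idx K ≠ 0) :
    idx K = idx (kapn m K) * Fintype.card F ^ cm m K := by
  induction m generalizing K with
  | zero => simp [kapn, cm]
  | succ m ih =>
    rw [idx_kap h, ih (idx_kap_ne' h), kapn, cm, pow_add]
    ring

/-- multiplication by `X^m` on `E/K` -/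
noncomputable def mulX (m : ℕ) (K : SM F d) : (E F d ⧸ K) →+ (E F d ⧸ K) :=
  DistribSMul.toAddMonoidHom _ ((X : PowerSeries F) ^ m)

omit [Fintype F] in
lemma mulX_apply (m : ℕ) (K : SM F d) (x : E F d ⧸ K) :
    mulX m K x = (X : PowerSeries F) ^ m • x := rfl

omit [Fintype F] in
lemma comap_ker (m : ℕ) (K : SM F d) :
    (mulX m K).ker.comap (K.mkQ : E F d →+ E F d ⧸ K) = (kapn m K).toAddSubgroup := by
  ext v
  rw [AddSubgroup.mem_comap, AddMonoidHom.mem_ker, mulX_apply]
  show (X : PowerSeries F) ^ m • K.mkQ v = 0 ↔ v ∈ kapn m K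
  rw [mem_kapn, ← map_smul, Submodule.mkQ_apply, Submodule.Quotient.mk_eq_zero]

omit [Fintype F] in
lemma card_quot (K : SM F d) : Nat.card (E F d ⧸ K) = idx K := rfl

lemma card_ker (m : ℕ) {K : SM F d} (h : idx K ≠ 0) :
    Nat.card (mulX m K).ker = Fintype.card F ^ cm m K := by
  have h1 := (mulX m K).ker.card_mul_index
  have h2 : (mulX m K).ker.index = idx (kapn m K) := by
    rw [idx, ← comap_ker, AddSubgroup.index_comap_of_surjective]
    exact K.mkQ_surjective
  rw [h2, card_quot, idx_kapn m h, mul_comm] at h1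
  have h3 : idx (kapn m K) ≠ 0 := idx_ne_zero_of_le (le_kapn m K) h
  exact Nat.eq_of_mul_eq_mul_left (Nat.pos_of_ne_zero h3) h1

/-- `K + X^m E` -/
def Pm (m : ℕ) (K : SM F d) : SM F d where
  carrier := {v | ∃ u : E F d, (X : PowerSeries F) ^ m • u + v ∈ K}
  zero_mem' := ⟨0, by simp⟩
  add_mem' := by
    rintro a b ⟨u, hu⟩ ⟨u', hu'⟩
    refine ⟨u + u', ?_⟩
    have : (X : PowerSeries F) ^ m • (u + u') + (a + b)
        = ((X : PowerSeries F) ^ m • u + a) + ((X : PowerSeries F) ^ m • u' + b) := by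
      rw [smul_add]; abel
    rw [this]; exact K.add_mem hu hu'
  smul_mem' := by
    rintro c a ⟨u, hu⟩
    refine ⟨c • u, ?_⟩
    have : (X : PowerSeries F) ^ m • c • u + c • a = c • ((X : PowerSeries F) ^ m • u + a) := by
      rw [smul_add, smul_comm]
    rw [this]; exact K.smul_mem _ hu

omit [Fintype F] in
lemma mem_Pm {m : ℕ} {K : SM F d} {v : E F d} :
    v ∈ Pm m K ↔ ∃ u : E F d, (X : PowerSeries F) ^ m • u + v ∈ K := Iff.rfl

omit [Fintype F] in
lemma mem_Pm' {m : ℕ} {K : SM F d} {v : E F d} :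
    v ∈ Pm m K ↔ ∃ x : E F d ⧸ K, (X : PowerSeries F) ^ m • x + K.mkQ v = 0 := by
  rw [mem_Pm]
  constructor
  · rintro ⟨u, hu⟩
    refine ⟨K.mkQ u, ?_⟩
    rw [← map_smul, ← map_add, Submodule.mkQ_apply, Submodule.Quotient.mk_eq_zero]
    exact hu
  · rintro ⟨x, hx⟩
    obtain ⟨u, rfl⟩ := K.mkQ_surjective x
    refine ⟨u, ?_⟩
    rw [← map_smul, ← map_add, Submodule.mkQ_apply, Submodule.Quotient.mk_eq_zero] at hx
    exact hx

omit [Fintype F] in
lemma comap_range (m : ℕ) (K : SM F d) :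
    (mulX m K).range.comap (K.mkQ : E F d →+ E F d ⧸ K) = (Pm m K).toAddSubgroup := by
  ext v
  rw [AddSubgroup.mem_comap]
  show K.mkQ v ∈ (mulX m K).range ↔ v ∈ Pm m K
  rw [mem_Pm', AddMonoidHom.mem_range]
  constructor
  · rintro ⟨x, hx⟩
    refine ⟨-x, ?_⟩
    rw [mulX_apply] at hx
    rw [smul_neg, hx]; simp
  · rintro ⟨x, hx⟩
    refine ⟨-x, ?_⟩
    rw [mulX_apply, smul_neg]
    exact (eq_neg_of_add_eq_zero_right hx).symm

lemma idx_Pm (m : ℕ) {K : SM F d} (h : idx K ≠ 0) : idx (Pm m K) = Fintype.card F ^ cm m K := by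
  have hfin := finite_quot h
  have h1 : idx (Pm m K) = (mulX m K).range.index := by
    rw [idx, ← comap_range, AddSubgroup.index_comap_of_surjective]
    exact K.mkQ_surjective
  have h2 := (mulX m K).range.card_mul_index
  have h3 := (mulX m K).ker.card_mul_index
  rw [AddSubgroup.index_ker] at h3
  rw [← h3, mul_comm (Nat.card (mulX m K).ker)] at h2
  have h4 : 0 < Nat.card (mulX m K).range := Nat.card_pos
  rw [h1, Nat.eq_of_mul_eq_mul_left h4 h2, card_ker m h]

/-- solutions of `X^m φ = -ι` in `Hom(N, E/K)` -/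
def Sol (m : ℕ) (K N : SM F d) : Set (N →ₗ[PowerSeries F] (E F d ⧸ K)) :=
  {φ | ∀ f : N, (X : PowerSeries F) ^ m • φ f + K.mkQ (f : E F d) = 0}

lemma card_sol_one (m : ℕ) {K : SM F d} (h : idx K ≠ 0) (v : E F d) :
    (v ∈ Pm m K → Nat.card {x : E F d ⧸ K // (X : PowerSeries F) ^ m • x + K.mkQ v = 0}
      = Fintype.card F ^ cm m K) ∧
    (v ∉ Pm m K → Nat.card {x : E F d ⧸ K // (X : PowerSeries F) ^ m • x + K.mkQ v = 0} = 0) := by
  constructor
  · intro hv
    obtain ⟨x₀, hx₀⟩ := mem_Pm'.1 hv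
    rw [← card_ker m h]
    apply Nat.card_congr
    refine ⟨fun x => ⟨x.1 - x₀, ?_⟩, fun y => ⟨y.1 + x₀, ?_⟩, ?_, ?_⟩
    · rw [AddMonoidHom.mem_ker, mulX_apply, smul_sub, sub_eq_zero]
      exact add_right_cancel (x.2.trans hx₀.symm)
    · have h2 : (X : PowerSeries F) ^ m • y.1 = 0 := y.2
      rw [smul_add, h2, zero_add, hx₀]
    · intro x; apply Subtype.ext; simp
    · intro y; apply Subtype.ext; simp
  · intro hv
    have : IsEmpty {x : E F d ⧸ K // (X : PowerSeries F) ^ m • x + K.mkQ v = 0} :=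
      ⟨fun x => hv (mem_Pm'.2 ⟨x.1, x.2⟩)⟩
    exact Nat.card_of_isEmpty

open Classical in
theorem card_Sol (m : ℕ) {K N : SM F d} (hK : idx K ≠ 0) (hN : idx N ≠ 0) :
    Nat.card (Sol m K N) = if N ≤ Pm m K then Fintype.card F ^ (d * cm m K) else 0 := by
  obtain ⟨A, hA, hAN⟩ := exists_param hN
  let eN : E F d ≃ₗ[PowerSeries F] N :=
    (LinearEquiv.ofInjective A hA).trans (LinearEquiv.ofEq _ _ hAN)
  let b : Basis (Fin d) (PowerSeries F) N := (Pi.basisFun (PowerSeries F) (Fin d)).map eN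
  -- solutions correspond to tuples
  have hcong : Nat.card (Sol m K N) = Nat.card (∀ i : Fin d,
      {x : E F d ⧸ K // (X : PowerSeries F) ^ m • x + K.mkQ (b i : E F d) = 0}) := by
    apply Nat.card_congr
    refine ⟨fun φ i => ⟨φ.1 (b i), φ.2 (b i)⟩,
      fun v => ⟨b.constr (PowerSeries F) (fun i => (v i).1), ?_⟩, ?_, ?_⟩
    · -- the linear map `f ↦ X^m φ f + mk f` vanishes on the basis
      intro f
      let g : N →ₗ[PowerSeries F] (E F d ⧸ K) :=
        (X : PowerSeries F) ^ m • (b.constr (PowerSeries F) (fun i => (v i).1)) +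
          K.mkQ ∘ₗ N.subtype
      have hg : g = 0 := by
        apply b.ext
        intro i
        show (X : PowerSeries F) ^ m • (b.constr (PowerSeries F) (fun i => (v i).1)) (b i)
          + K.mkQ (b i : E F d) = 0
        rw [b.constr_basis]; exact (v i).2
      exact LinearMap.congr_fun hg f
    · intro φ
      apply Subtype.ext
      apply b.ext
      intro i
      simp
    · intro v
      funext i
      apply Subtype.ext
      simp
  rw [hcong, Nat.card_pi]
  have hle : N ≤ Pm m K ↔ ∀ i, (b i : E F d) ∈ Pm m K := by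
    constructor
    · intro h i; exact h (b i).2
    · intro h v hv
      have h1 : (⟨v, hv⟩ : N) ∈ Submodule.span (PowerSeries F) (Set.range b) := by
        rw [b.span_eq]; trivial
      have h2 : Submodule.span (PowerSeries F) (Set.range b) ≤ (Pm m K).comap N.subtype := by
        rw [Submodule.span_le]
        rintro _ ⟨i, rfl⟩
        exact h i
      exact h2 h1
  by_cases hc : N ≤ Pm m K
  · rw [if_pos hc]
    rw [hle] at hc
    rw [Finset.prod_congr rfl (fun i _ => (card_sol_one m hK (b i : E F d)).1 (hc i))]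
    rw [Finset.prod_const, Finset.card_univ, Fintype.card_fin, ← pow_mul, mul_comm]
  · rw [if_neg hc]
    rw [hle] at hc
    push Not at hc
    obtain ⟨i, hi⟩ := hc
    exact Finset.prod_eq_zero (Finset.mem_univ i) ((card_sol_one m hK (b i : E F d)).2 hi)

end

end Q58QL
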