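import Pool.Agent.Q58.QLSub

/-!
Finite index submodules of `F⟦X⟧^d`: the map `K ↦ (K : X)` and its fibres.
-/

namespace Q58QL

open Finset Module PowerSeries

section
variable {F : Type} [Field F] {d : ℕ}

/-- the free module `F⟦X⟧^d` -/
abbrev E (F : Type) [Field F] (d : ℕ) := Fin d → PowerSeries F

/-- reduction mod `X` -/
noncomputable def cc : E F d →+ (Fin d → F) where
  toFun v i := constantCoeff (v i)
  map_zero' := by ext; simp
  map_add' := by intros; ext; simp

@[simp] lemma cc_apply (v : E F d) (i : Fin d) : cc v i = constantCoeff (v i) := rfl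

lemma cc_smul (f : PowerSeries F) (v : E F d) : cc (f • v) = constantCoeff f • cc v := by
  ext i; simp

/-- constant lift -/
noncomputable def lift0 (w : Fin d → F) : E F d := fun i => C (w i)

@[simp] lemma cc_lift0 (w : Fin d → F) : cc (lift0 w) = w := by
  ext i; simp [lift0]

lemma cc_surjective : Function.Surjective (cc : E F d → (Fin d → F)) :=
  fun w => ⟨lift0 w, cc_lift0 w⟩

lemma cc_eq_zero {v : E F d} : cc v = 0 ↔ ∃ u : E F d, v = (X : PowerSeries F) • u := by
  constructor
  · intro h
    have h1 : ∀ i, (X : PowerSeries F) ∣ v i := fun i => by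
      rw [X_dvd_iff]; exact congrFun h i
    choose u hu using h1
    exact ⟨u, funext fun i => by rw [hu i]; rfl⟩
  · rintro ⟨u, rfl⟩
    rw [cc_smul]; simp

lemma X_smul_inj {u v : E F d} (h : (X : PowerSeries F) • u = (X : PowerSeries F) • v) :
    u = v := by
  funext i
  have := congrFun h i
  simp only [Pi.smul_apply, smul_eq_mul] at this
  exact mul_left_cancel₀ X_ne_zero this

/-- image of `K` in `F^d` -/
def red (K : Submodule (PowerSeries F) (E F d)) : Submodule F (Fin d → F) where
  carrier := {w | ∃ v ∈ K, cc v = w}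
  zero_mem' := ⟨0, K.zero_mem, map_zero _⟩
  add_mem' := by
    rintro _ _ ⟨v, hv, rfl⟩ ⟨v', hv', rfl⟩
    exact ⟨v + v', K.add_mem hv hv', map_add _ _ _⟩
  smul_mem' := by
    rintro a _ ⟨v, hv, rfl⟩
    exact ⟨(C a : PowerSeries F) • v, K.smul_mem _ hv, by rw [cc_smul]; simp⟩

lemma mem_red {K : Submodule (PowerSeries F) (E F d)} {w : Fin d → F} :
    w ∈ red K ↔ ∃ v ∈ K, cc v = w := Iff.rfl

/-- preimage of `W` -/
def liftW (W : Submodule F (Fin d → F)) : Submodule (PowerSeries F) (E F d) where
  carrier := {v | cc v ∈ W}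
  zero_mem' := by simp
  add_mem' := by
    intro a b ha hb
    simp only [Set.mem_ofPred_eq, map_add] at *
    exact W.add_mem ha hb
  smul_mem' := by
    intro c v hv
    simp only [Set.mem_ofPred_eq, cc_smul] at *
    exact W.smul_mem _ hv

lemma mem_liftW {W : Submodule F (Fin d → F)} {v : E F d} : v ∈ liftW W ↔ cc v ∈ W := Iff.rfl

lemma red_liftW (W : Submodule F (Fin d → F)) : red (liftW W) = W := by
  ext w
  rw [mem_red]
  constructor
  · rintro ⟨v, hv, rfl⟩; exact hv
  · intro hw; exact ⟨lift0 w, by rw [mem_liftW, cc_lift0]; exact hw, cc_lift0 w⟩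

lemma liftW_red {K : Submodule (PowerSeries F) (E F d)}
    (hK : ∀ u : E F d, (X : PowerSeries F) • u ∈ K) : liftW (red K) = K := by
  ext v
  rw [mem_liftW, mem_red]
  constructor
  · rintro ⟨v', hv', h⟩
    have : cc (v - v') = 0 := by rw [map_sub, h, sub_self]
    obtain ⟨u, hu⟩ := cc_eq_zero.1 this
    have h2 : v = v' + (X : PowerSeries F) • u := by rw [← hu]; abel
    rw [h2]; exact K.add_mem hv' (hK u)
  · intro hv; exact ⟨v, hv, rfl⟩

/-- `(K : X)` -/
def kap (K : Submodule (PowerSeries F) (E F d)) : Submodule (PowerSeries F) (E F d) where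
  carrier := {v | (X : PowerSeries F) • v ∈ K}
  zero_mem' := by simp
  add_mem' := by
    intro a b ha hb
    simp only [Set.mem_ofPred_eq, smul_add] at *
    exact K.add_mem ha hb
  smul_mem' := by
    intro c v hv
    simp only [Set.mem_ofPred_eq] at *
    rw [smul_comm]
    exact K.smul_mem _ hv

lemma mem_kap {K : Submodule (PowerSeries F) (E F d)} {v : E F d} :
    v ∈ kap K ↔ (X : PowerSeries F) • v ∈ K := Iff.rfl

lemma le_kap (K : Submodule (PowerSeries F) (E F d)) : K ≤ kap K :=
  fun _ hv => K.smul_mem _ hv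

/-- index -/
noncomputable def idx (K : Submodule (PowerSeries F) (E F d)) : ℕ := K.toAddSubgroup.index

lemma idx_ne_zero_of_le {K L : Submodule (PowerSeries F) (E F d)} (h : K ≤ L) (hK : idx K ≠ 0) :
    idx L ≠ 0 := by
  have h1 : K.toAddSubgroup ≤ L.toAddSubgroup := h
  have := AddSubgroup.index_dvd_of_le h1
  intro h0
  unfold idx at *
  rw [h0] at this
  exact hK (Nat.eq_zero_of_zero_dvd this)

lemma finite_quot {K : Submodule (PowerSeries F) (E F d)} (hK : idx K ≠ 0) :
    Finite (E F d ⧸ K) := by
  have : K.toAddSubgroup.FiniteIndex := ⟨hK⟩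
  exact AddSubgroup.finite_quotient_of_finiteIndex (H := K.toAddSubgroup)

/-- a finite index submodule contains `X^N E` -/
lemma exists_pow {K : Submodule (PowerSeries F) (E F d)} (hK : idx K ≠ 0) :
    ∃ N : ℕ, ∀ v : E F d, (X : PowerSeries F) ^ N • v ∈ K := by
  have := finite_quot hK
  -- multiplication maps by powers of `X`
  let T : ℕ → (E F d ⧸ K → E F d ⧸ K) := fun n m => (X : PowerSeries F) ^ n • m
  have hfin : Finite (E F d ⧸ K → E F d ⧸ K) := inferInstance
  obtain ⟨i, j, hij, hT⟩ : ∃ i j, i < j ∧ T i = T j := by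
    obtain ⟨i, j, hne, h⟩ := Finite.exists_ne_map_eq_of_infinite T
    rcases lt_or_gt_of_ne hne with h1 | h1
    · exact ⟨i, j, h1, h⟩
    · exact ⟨j, i, h1, h.symm⟩
  refine ⟨i, fun v => ?_⟩
  have h1 : (X : PowerSeries F) ^ i • (Submodule.Quotient.mk v : E F d ⧸ K)
      = (X : PowerSeries F) ^ j • (Submodule.Quotient.mk v : E F d ⧸ K) := congrFun hT _
  rw [← Submodule.Quotient.mk_smul, ← Submodule.Quotient.mk_smul, Submodule.Quotient.eq] at h1
  have h2 : (1 - (X : PowerSeries F) ^ (j - i)) • ((X : PowerSeries F) ^ i • v) ∈ K := by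
    rw [smul_smul, sub_mul, one_mul, ← pow_add, Nat.sub_add_cancel hij.le, sub_smul]
    exact h1
  have hu : IsUnit (1 - (X : PowerSeries F) ^ (j - i)) := by
    rw [PowerSeries.isUnit_iff_constantCoeff]
    simp [show j - i ≠ 0 by omega]
  obtain ⟨w, hw⟩ := hu
  have h3 := K.smul_mem ((w⁻¹ : (PowerSeries F)ˣ) : PowerSeries F) h2
  rw [← hw, smul_smul, Units.inv_mul, one_smul] at h3
  exact h3

/-- parametrization of a finite index submodule -/
lemma exists_param {K : Submodule (PowerSeries F) (E F d)} (hK : idx K ≠ 0) :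
    ∃ A : E F d →ₗ[PowerSeries F] E F d, Function.Injective A ∧ LinearMap.range A = K := by
  obtain ⟨N, hN⟩ := exists_pow hK
  have hf : finrank (PowerSeries F) K = finrank (PowerSeries F) (E F d) := by
    apply le_antisymm (Submodule.finrank_le K)
    let g : E F d →ₗ[PowerSeries F] K :=
      LinearMap.codRestrict K (LinearMap.lsmul (PowerSeries F) (E F d) ((X : PowerSeries F) ^ N))
        (fun v => hN v)
    apply LinearMap.finrank_le_finrank_of_injective (f := g)
    intro u v huv
    have h1 : (X : PowerSeries F) ^ N • u = (X : PowerSeries F) ^ N • v := congrArg Subtype.val huv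
    funext i
    have := congrFun h1 i
    simp only [Pi.smul_apply, smul_eq_mul] at this
    exact mul_left_cancel₀ (pow_ne_zero _ X_ne_zero) this
  let e := LinearEquiv.ofFinrankEq (E F d) K hf.symm
  refine ⟨K.subtype ∘ₗ e.toLinearMap, ?_, ?_⟩
  · exact K.injective_subtype.comp e.injective
  · rw [LinearMap.range_comp, LinearEquiv.range, Submodule.map_top, Submodule.range_subtype]

section fiber
variable (A : E F d →ₗ[PowerSeries F] E F d)

/-- reduction of a linear map -/
noncomputable def Abar : (Fin d → F) →ₗ[F] (Fin d → F) where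
  toFun w := cc (A (lift0 w))
  map_add' := by
    intro a b
    have : lift0 (a + b) = lift0 a + lift0 b := by
      funext i; simp [lift0]
    rw [this, map_add, map_add]
  map_smul' := by
    intro c a
    have : lift0 (c • a) = (C c : PowerSeries F) • lift0 a := by
      funext i; simp [lift0]
    rw [this, map_smul, cc_smul]; simp

lemma cc_A (v : E F d) : cc (A v) = Abar A (cc v) := by
  have h : cc (v - lift0 (cc v)) = 0 := by rw [map_sub, cc_lift0, sub_self]
  obtain ⟨u, hu⟩ := cc_eq_zero.1 h
  have h2 : v = lift0 (cc v) + (X : PowerSeries F) • u := by rw [← hu]; abel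
  have h3 : cc (A v) = cc (A (lift0 (cc v)) + A ((X : PowerSeries F) • u)) := by
    rw [← map_add, ← h2]
  rw [h3, map_add, map_smul, cc_smul]
  simp [Abar]

lemma red_range : red (LinearMap.range A) = LinearMap.range (Abar A) := by
  ext w
  rw [mem_red]
  constructor
  · rintro ⟨_, ⟨v, rfl⟩, rfl⟩
    exact ⟨cc v, (cc_A A v).symm⟩
  · rintro ⟨u, rfl⟩
    exact ⟨A (lift0 u), ⟨_, rfl⟩, rfl⟩

lemma red_map (K : Submodule (PowerSeries F) (E F d)) :
    red (K.map A) = (red K).map (Abar A) := by
  ext w
  rw [mem_red, Submodule.mem_map]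
  constructor
  · rintro ⟨_, ⟨v, hv, rfl⟩, rfl⟩
    exact ⟨cc v, ⟨v, hv, rfl⟩, (cc_A A v).symm⟩
  · rintro ⟨_, ⟨v, hv, rfl⟩, rfl⟩
    exact ⟨A v, ⟨v, hv, rfl⟩, cc_A A v⟩

variable {A} (hA : Function.Injective A)
include hA

omit hA in
lemma kap_map_liftW {W : Submodule F (Fin d → F)} (hW : W ⊓ LinearMap.ker (Abar A) = ⊥) :
    kap ((liftW W).map A) = LinearMap.range A := by
  ext v
  rw [mem_kap]
  constructor
  · rintro ⟨u, hu, huv⟩
    have h1 : cc u ∈ W ⊓ LinearMap.ker (Abar A) := by
      refine ⟨hu, ?_⟩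
      show Abar A (cc u) = 0
      rw [← cc_A, huv, cc_smul]; simp
    have h2 : cc u = 0 := by
      have := hW.le h1
      simpa using this
    obtain ⟨u', rfl⟩ := cc_eq_zero.1 h2
    rw [map_smul] at huv
    exact ⟨u', X_smul_inj huv⟩
  · rintro ⟨u, rfl⟩
    refine ⟨(X : PowerSeries F) • u, ?_, by rw [map_smul]⟩
    show cc _ ∈ W
    rw [cc_smul]; simp

lemma comap_facts {K : Submodule (PowerSeries F) (E F d)} (hK : kap K = LinearMap.range A) :
    (liftW (red (K.comap A))).map A = K ∧ red (K.comap A) ⊓ LinearMap.ker (Abar A) = ⊥ := by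
  have h1 : liftW (red (K.comap A)) = K.comap A := by
    apply liftW_red
    intro u
    rw [Submodule.mem_comap, map_smul]
    have : A u ∈ kap K := by rw [hK]; exact ⟨u, rfl⟩
    exact this
  constructor
  · rw [h1, Submodule.map_comap_eq]
    rw [inf_eq_right, ← hK]
    exact le_kap K
  · rw [Submodule.eq_bot_iff]
    rintro w ⟨⟨u, hu, rfl⟩, hw2⟩
    have hw3 : cc (A u) = 0 := by rw [cc_A]; exact hw2
    obtain ⟨v, hv⟩ := cc_eq_zero.1 hw3
    have h2 : v ∈ kap K := by
      rw [mem_kap, ← hv]; exact hu
    rw [hK] at h2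
    obtain ⟨u', rfl⟩ := h2
    rw [← map_smul] at hv
    have := hA hv
    rw [this, cc_smul]; simp

omit hA in
lemma finrank_map_bar {W : Submodule F (Fin d → F)} (hW : W ⊓ LinearMap.ker (Abar A) = ⊥) :
    finrank F (W.map (Abar A)) = finrank F W := by
  have hinj : Function.Injective ((Abar A).domRestrict W) := by
    rw [← LinearMap.ker_eq_bot, LinearMap.ker_eq_bot']
    intro m hm
    have h1 : (m : Fin d → F) ∈ W ⊓ LinearMap.ker (Abar A) := ⟨m.2, hm⟩
    have h2 := hW.le h1
    exact Subtype.ext (by simpa using h2)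
  have h1 := LinearMap.finrank_range_of_inj hinj
  rw [LinearMap.range_domRestrict] at h1
  exact h1

lemma idx_map (K : Submodule (PowerSeries F) (E F d)) :
    idx (K.map A) = idx K * idx (LinearMap.range A) := by
  have h := AddSubgroup.index_map (K.toAddSubgroup) (A : E F d →+ E F d)
  have h2 : (A : E F d →+ E F d).ker = ⊥ := by
    rw [AddMonoidHom.ker_eq_bot_iff]; exact hA
  rw [h2, sup_bot_eq] at h
  exact h

omit hA in
lemma idx_liftW [Fintype F] (W : Submodule F (Fin d → F)) :
    idx (liftW W) = Fintype.card F ^ (d - finrank F W) := by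
  have h1 : (liftW W).toAddSubgroup = W.toAddSubgroup.comap (cc : E F d →+ (Fin d → F)) := by
    ext; rfl
  unfold idx
  rw [h1, AddSubgroup.index_comap_of_surjective _ cc_surjective]
  have h2 : finrank F ((Fin d → F) ⧸ W) = d - finrank F W := by
    rw [Submodule.finrank_quotient]; simp
  rw [← h2, ← Nat.card_eq_fintype_card, ← Module.natCard_eq_pow_finrank]
  rfl

/-- the fibres of `kap`, by dimension of the reduction -/
theorem card_fiber_aux [Fintype F] (w : ℕ) :
    Nat.card {K : Submodule (PowerSeries F) (E F d) // kap K = LinearMap.range A ∧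
      finrank F (red K) = w} = Nat.card (Sub F (LinearMap.ker (Abar A)) w) := by
  let f : {K : Submodule (PowerSeries F) (E F d) // kap K = LinearMap.range A ∧
      finrank F (red K) = w} → Sub F (LinearMap.ker (Abar A)) w := fun K =>
    ⟨red (K.1.comap A), (comap_facts hA K.2.1).2, by
      rw [← finrank_map_bar (comap_facts hA K.2.1).2, ← red_map]
      have h1 := (comap_facts hA K.2.1).1
      have h2 : liftW (red (K.1.comap A)) = K.1.comap A := by
        have : Function.Injective (Submodule.map A) := Submodule.map_injective_of_injective hA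
        apply this
        rw [h1, Submodule.map_comap_eq, eq_comm, inf_eq_right]
        exact (le_kap _).trans K.2.1.le
      rw [← h2, h1]; exact K.2.2⟩
  apply Nat.card_congr (Equiv.ofBijective f ?_)
  constructor
  · rintro K K' h
    have h0 : red (K.1.comap A) = red (K'.1.comap A) := congrArg Subtype.val h
    apply Subtype.ext
    rw [← (comap_facts hA K.2.1).1, h0, (comap_facts hA K'.2.1).1]
  · rintro ⟨W, hW1, hW2⟩
    have h1 : ((liftW W).map A).comap A = liftW W :=
      Submodule.comap_map_eq_of_injective hA _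
    refine ⟨⟨(liftW W).map A, kap_map_liftW hW1, ?_⟩, ?_⟩
    · rw [red_map, red_liftW, finrank_map_bar hW1, hW2]
    · apply Subtype.ext
      show red (((liftW W).map A).comap A) = W
      rw [h1, red_liftW]

end fiber

/-- dimension of the reduction -/
noncomputable def rho (K : Submodule (PowerSeries F) (E F d)) : ℕ := finrank F (red K)

lemma rho_le (K : Submodule (PowerSeries F) (E F d)) : rho K ≤ d := by
  have := Submodule.finrank_le (red K)
  rw [Module.finrank_fin_fun] at this
  exact this

/-- the number of `K` with `(K : X) = K₁` and given `rho` -/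
theorem card_fiber [Fintype F] {K₁ : Submodule (PowerSeries F) (E F d)} (h : idx K₁ ≠ 0) (w : ℕ) :
    Nat.card {K : Submodule (PowerSeries F) (E F d) // kap K = K₁ ∧ rho K = w} =
      Fintype.card F ^ ((d - rho K₁) * w) * gb (Fintype.card F) (rho K₁) w := by
  obtain ⟨A, hA, rfl⟩ := exists_param h
  have h1 := card_fiber_aux hA w
  unfold rho
  rw [h1, card_Sub]
  have h2 := LinearMap.finrank_range_add_finrank_ker (Abar A)
  rw [Module.finrank_fin_fun] at h2
  rw [red_range]
  have h3 : finrank F (LinearMap.ker (Abar A)) = d - finrank F (LinearMap.range (Abar A)) := by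
    omega
  rw [h3, Module.finrank_fin_fun]
  congr 2
  omega

theorem finite_fiber [Fintype F] {K₁ : Submodule (PowerSeries F) (E F d)} (h : idx K₁ ≠ 0) :
    {K : Submodule (PowerSeries F) (E F d) | kap K = K₁}.Finite := by
  obtain ⟨A, hA, rfl⟩ := exists_param h
  apply Set.Finite.of_injOn (f := fun K : Submodule (PowerSeries F) (E F d) => red (K.comap A))
    (t := Set.univ) (by intro _ _; trivial) ?_ Set.finite_univ
  intro K hK K' hK' hKK
  have hKK' : red (K.comap A) = red (K'.comap A) := hKK
  rw [← (comap_facts hA hK).1, hKK', (comap_facts hA hK').1]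

theorem idx_kap [Fintype F] {K : Submodule (PowerSeries F) (E F d)} (h : idx K ≠ 0) :
    idx K = idx (kap K) * Fintype.card F ^ (d - rho K) := by
  have h1 : idx (kap K) ≠ 0 := idx_ne_zero_of_le (le_kap K) h
  obtain ⟨A, hA, hAK⟩ := exists_param h1
  have h2 := comap_facts hA hAK.symm
  have h3 : finrank F (red K) = finrank F (red (K.comap A)) := by
    rw [← finrank_map_bar h2.2, ← red_liftW (red (K.comap A)), ← red_map]
    conv_lhs => rw [← h2.1]
  conv_lhs => rw [← h2.1]
  rw [idx_map hA, idx_liftW, hAK, rho, h3, mul_comm]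

theorem idx_kap_ne [Fintype F] {K : Submodule (PowerSeries F) (E F d)} (h : idx (kap K) ≠ 0) :
    idx K ≠ 0 := by
  obtain ⟨A, hA, hAK⟩ := exists_param h
  have h2 := comap_facts hA hAK.symm
  have h3 : idx K = idx (liftW (red (K.comap A))) * idx (LinearMap.range A) := by
    conv_lhs => rw [← h2.1]
    rw [idx_map hA]
  rw [h3, idx_liftW, hAK]
  have : Fintype.card F ≠ 0 := Fintype.card_ne_zero
  positivity

end

end Q58QL
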