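import Pool.Agent.Q58.QLHom

/-!
Submodules of `E × E` stable under `(f,g) ↦ (0, f + X^m g)`.
-/

namespace Q58QL

open Finset Module PowerSeries

section
variable {F : Type} [Field F] [Fintype F] {d : ℕ}

/-- submodules of `E × E` -/
abbrev S2 (F : Type) [Field F] (d : ℕ) := Submodule (PowerSeries F) (E F d × E F d)

/-- stability under `(f,g) ↦ (0, f + X^m g)` -/
def Stab (m : ℕ) (L : S2 F d) : Prop :=
  ∀ p ∈ L, ((0 : E F d), p.1 + (X : PowerSeries F) ^ m • p.2) ∈ L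

/-- fibre over zero -/
noncomputable def kerL (L : S2 F d) : SM F d := L.comap (LinearMap.inr (PowerSeries F) (E F d) (E F d))

/-- projection -/
noncomputable def prL (L : S2 F d) : SM F d := L.map (LinearMap.fst (PowerSeries F) (E F d) (E F d))

omit [Fintype F] in
lemma mem_kerL {L : S2 F d} {g : E F d} : g ∈ kerL L ↔ ((0 : E F d), g) ∈ L := Iff.rfl

omit [Fintype F] in
lemma mem_prL {L : S2 F d} {f : E F d} : f ∈ prL L ↔ ∃ g, (f, g) ∈ L := by
  constructor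
  · rintro ⟨⟨f', g⟩, h, rfl⟩; exact ⟨g, h⟩
  · rintro ⟨g, h⟩; exact ⟨(f, g), h, rfl⟩

omit [Fintype F] in
lemma index_L (L : S2 F d) : L.toAddSubgroup.index = idx (kerL L) * idx (prL L) := by
  let H : AddSubgroup (E F d × E F d) := (AddMonoidHom.inr (E F d) (E F d)).range
  have h1 : L.toAddSubgroup.relIndex (L.toAddSubgroup ⊔ H) * (L.toAddSubgroup ⊔ H).index
      = L.toAddSubgroup.index := AddSubgroup.relIndex_mul_index le_sup_left
  have h2 : L.toAddSubgroup.relIndex (L.toAddSubgroup ⊔ H) = L.toAddSubgroup.relIndex H :=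
    AddSubgroup.relIndex_sup_left _ _
  have h3 : idx (kerL L) = L.toAddSubgroup.relIndex H := by
    rw [← AddSubgroup.index_comap]; rfl
  have h4 : L.toAddSubgroup ⊔ H = (prL L).toAddSubgroup.comap (AddMonoidHom.fst (E F d) (E F d)) := by
    ext ⟨f, g⟩
    rw [AddSubgroup.mem_comap]
    show _ ↔ f ∈ prL L
    rw [mem_prL, AddSubgroup.mem_sup]
    constructor
    · rintro ⟨⟨f', g'⟩, hy, _, ⟨z, rfl⟩, h⟩
      have h5 : f' = f := by
        have := congrArg Prod.fst h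
        simpa using this
      exact ⟨g', h5 ▸ hy⟩
    · rintro ⟨g', hg'⟩
      refine ⟨(f, g'), hg', (0, g - g'), ⟨g - g', rfl⟩, ?_⟩
      simp
  have h6 : idx (prL L) = (L.toAddSubgroup ⊔ H).index := by
    rw [h4, AddSubgroup.index_comap_of_surjective]
    · rfl
    · intro x; exact ⟨(x, 0), rfl⟩
  rw [h3, h6, ← h2]
  exact h1.symm

/-- the submodule attached to a homomorphism -/
def gr {K N : SM F d} (φ : N →ₗ[PowerSeries F] (E F d ⧸ K)) : S2 F d where
  carrier := {p | ∃ h : p.1 ∈ N, φ ⟨p.1, h⟩ = K.mkQ p.2}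
  zero_mem' := ⟨N.zero_mem, by
    have : (⟨(0 : E F d × E F d).1, N.zero_mem⟩ : N) = 0 := rfl
    rw [this]; simp⟩
  add_mem' := by
    rintro p q ⟨h1, h2⟩ ⟨h3, h4⟩
    refine ⟨N.add_mem h1 h3, ?_⟩
    have : (⟨(p + q).1, N.add_mem h1 h3⟩ : N) = ⟨p.1, h1⟩ + ⟨q.1, h3⟩ := rfl
    rw [this, map_add, h2, h4, ← map_add]; rfl
  smul_mem' := by
    rintro c p ⟨h1, h2⟩
    refine ⟨N.smul_mem c h1, ?_⟩
    have : (⟨(c • p).1, N.smul_mem c h1⟩ : N) = c • ⟨p.1, h1⟩ := rfl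
    rw [this, map_smul, h2, ← map_smul]; rfl

omit [Fintype F] in
lemma mem_gr {K N : SM F d} {φ : N →ₗ[PowerSeries F] (E F d ⧸ K)} {p : E F d × E F d} :
    p ∈ gr φ ↔ ∃ h : p.1 ∈ N, φ ⟨p.1, h⟩ = K.mkQ p.2 := Iff.rfl

omit [Fintype F] in
lemma kerL_gr {K N : SM F d} (φ : N →ₗ[PowerSeries F] (E F d ⧸ K)) : kerL (gr φ) = K := by
  ext g
  rw [mem_kerL, mem_gr]
  have h0 : φ ⟨0, N.zero_mem⟩ = 0 := map_zero φ
  constructor
  · rintro ⟨h, h'⟩
    have h2 : K.mkQ g = 0 := h'.symm.trans h0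
    rwa [Submodule.mkQ_apply, Submodule.Quotient.mk_eq_zero] at h2
  · intro hg
    refine ⟨N.zero_mem, h0.trans ?_⟩
    rw [Submodule.mkQ_apply, eq_comm, Submodule.Quotient.mk_eq_zero]; exact hg

omit [Fintype F] in
lemma prL_gr {K N : SM F d} (φ : N →ₗ[PowerSeries F] (E F d ⧸ K)) : prL (gr φ) = N := by
  ext f
  rw [mem_prL]
  constructor
  · rintro ⟨g, h, _⟩; exact h
  · intro hf
    obtain ⟨g, hg⟩ := K.mkQ_surjective (φ ⟨f, hf⟩)
    exact ⟨g, hf, hg.symm⟩

omit [Fintype F] in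
lemma stab_gr {m : ℕ} {K N : SM F d} {φ : N →ₗ[PowerSeries F] (E F d ⧸ K)} (hφ : φ ∈ Sol m K N) :
    Stab m (gr φ) := by
  rintro ⟨f, g⟩ ⟨h1, h2⟩
  have h3 := hφ ⟨f, h1⟩
  have h4 : f + (X : PowerSeries F) ^ m • g ∈ kerL (gr φ) := by
    rw [kerL_gr]
    have h5 : K.mkQ (f + (X : PowerSeries F) ^ m • g) = 0 := by
      rw [map_add, map_smul, ← h2, add_comm]; exact h3
    rwa [Submodule.mkQ_apply, Submodule.Quotient.mk_eq_zero] at h5
  exact h4

omit [Fintype F] in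
lemma exists_gr {m : ℕ} (L : S2 F d) (hL : Stab m L) :
    ∃ φ ∈ Sol m (kerL L) (prL L), gr φ = L := by
  choose g hg using fun f : prL L => mem_prL.1 f.2
  have huniq : ∀ (f : prL L) (g' : E F d), ((f : E F d), g') ∈ L →
      (kerL L).mkQ (g f) = (kerL L).mkQ g' := by
    intro f g' h'
    rw [Submodule.mkQ_apply, Submodule.mkQ_apply, Submodule.Quotient.eq, mem_kerL]
    have := L.sub_mem (hg f) h'
    simpa using this
  let φ : prL L →ₗ[PowerSeries F] (E F d ⧸ kerL L) :=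
    { toFun := fun f => (kerL L).mkQ (g f)
      map_add' := by
        intro a b
        rw [← map_add]
        apply huniq
        exact L.add_mem (hg a) (hg b)
      map_smul' := by
        intro c a
        rw [RingHom.id_apply, ← map_smul]
        apply huniq
        exact L.smul_mem c (hg a) }
  refine ⟨φ, ?_, ?_⟩
  · intro f
    show (X : PowerSeries F) ^ m • (kerL L).mkQ (g f) + (kerL L).mkQ (f : E F d) = 0
    rw [← map_smul, ← map_add, Submodule.mkQ_apply, Submodule.Quotient.mk_eq_zero, mem_kerL,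
      add_comm]
    exact hL _ (hg f)
  · ext ⟨a, b⟩
    rw [mem_gr]
    constructor
    · rintro ⟨h, h'⟩
      have h2 : (kerL L).mkQ (g ⟨a, h⟩) = (kerL L).mkQ b := h'
      rw [Submodule.mkQ_apply, Submodule.mkQ_apply, Submodule.Quotient.eq, mem_kerL] at h2
      have h3 := L.sub_mem (hg ⟨a, h⟩) h2
      simpa using h3
    · intro h
      have h1 : a ∈ prL L := mem_prL.2 ⟨b, h⟩
      exact ⟨h1, huniq ⟨a, h1⟩ b h⟩

/-- stable submodules with given fibre and projection -/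
def Yset (m : ℕ) (K N : SM F d) : Set (S2 F d) := {L | Stab m L ∧ kerL L = K ∧ prL L = N}

omit [Fintype F] in
theorem card_Yset (m : ℕ) (K N : SM F d) : Nat.card (Yset m K N) = Nat.card (Sol m K N) := by
  symm
  let f : Sol m K N → Yset m K N := fun φ => ⟨gr φ.1, stab_gr φ.2, kerL_gr φ.1, prL_gr φ.1⟩
  apply Nat.card_congr (Equiv.ofBijective f ?_)
  constructor
  · rintro ⟨φ, hφ⟩ ⟨ψ, hψ⟩ h
    have h0 : gr φ = gr ψ := congrArg Subtype.val h
    apply Subtype.ext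
    apply LinearMap.ext
    intro v
    obtain ⟨g, hg⟩ := K.mkQ_surjective (φ v)
    have h1 : ((v : E F d), g) ∈ gr φ := ⟨v.2, hg.symm⟩
    rw [h0] at h1
    obtain ⟨h2, h3⟩ := h1
    show φ v = ψ v
    rw [← hg]; exact h3.symm
  · rintro ⟨L, hL1, rfl, rfl⟩
    obtain ⟨φ, h1, h2⟩ := exists_gr L hL1
    exact ⟨⟨φ, h1⟩, Subtype.ext h2⟩

end

end Q58QL
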