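import Pool.Agent.Q58.QLCount

/-!
The numerator of the Quot zeta function, in terms of stable submodules.
-/

namespace Q58QL

open Finset Module PowerSeries

section
variable {F : Type} [Field F] [Fintype F] {d : ℕ}

theorem main_stab (m : ℕ) :
    (poch (qq F) X d) ^ 2 * ZL F d (m + 1) = ∑ w ∈ range (d + 1), PP (qq F) (-X) d m w := by
  rw [ZL_eq]
  have h1 : (poch (qq F) X d) ^ 2 * ((∑ w ∈ range (d + 1), TT F d (m + 1) w) * ZZ F d)
      = (∑ w ∈ range (d + 1), TT F d (m + 1) w * poch (qq F) X d) *
        (ZZ F d * poch (qq F) X d) := by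
    rw [← Finset.sum_mul]; ring
  rw [h1, ZZ_mul, mul_one]
  apply Finset.sum_congr rfl
  intro w hw
  rw [Finset.mem_range] at hw
  exact TT_formula m w (by omega)

/-- the numerator polynomial, with `t` replaced by `-t`, in the variables `L`, `t` -/
def NP {S : Type*} [CommSemiring S] (L t : S) (d m : ℕ) : S :=
  ∑ w ∈ range (d + 1), PP L t d m w

lemma map_NP {S T : Type*} [CommSemiring S] [CommSemiring T] (f : S →+* T) (L t : S)
    (d m : ℕ) : f (NP L t d m) = NP (f L) (f t) d m := by
  simp [NP, map_PP]

end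

end Q58QL
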