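import Pool.Agent.Q58.QLMain

/-!
The ring `k[[x,y]]/(y(y-x^m))` as a free module with basis `1, y` over `k[[x]]`.
-/

namespace Q58QL

open Finset Module

section
variable {F : Type} [Field F]

open PowerSeries in
/-- auxiliary series -/
noncomputable def Hs (m : ℕ) (g : PowerSeries (PowerSeries F)) (j : ℕ) : PowerSeries F :=
  PowerSeries.mk fun n => ∑ l ∈ range (n + 1), coeff n (X ^ (m * l) * coeff (j + 1 + l) g)

open PowerSeries in
lemma Hs_rec {m : ℕ} (hm : 1 ≤ m) (g : PowerSeries (PowerSeries F)) (j : ℕ) :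
    Hs m g j = coeff (j + 1) g + X ^ m * Hs m g (j + 1) := by
  ext n
  rw [map_add, Hs, coeff_mk, coeff_X_pow_mul']
  have h0 : ∀ (p : PowerSeries F) (l : ℕ), coeff n (X ^ (m * (l + 1)) * p)
      = if m * (l + 1) ≤ n then coeff (n - m * (l + 1)) p else 0 := fun p l => coeff_X_pow_mul' _ _ _
  rw [Finset.sum_range_succ' _ n]
  have h1 : coeff n (X ^ (m * 0) * coeff (j + 1 + 0) g) = coeff n (coeff (j + 1) g) := by simp
  rw [h1, add_comm]
  congr 1
  by_cases hmn : m ≤ n
  · rw [if_pos hmn, Hs, coeff_mk]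
    have hsub : range (n - m + 1) ⊆ range n := by
      intro l hl
      rw [Finset.mem_range] at *
      omega
    rw [← Finset.sum_subset hsub]
    · apply Finset.sum_congr rfl
      intro l _
      rw [h0, coeff_X_pow_mul']
      have h2 : m * (l + 1) = m * l + m := by ring
      by_cases h3 : m * l ≤ n - m
      · rw [if_pos h3, if_pos (by omega)]
        congr 2
        · omega
        · congr 1; ring
      · rw [if_neg h3, if_neg (by omega)]
    · intro l _ hl
      rw [h0, if_neg]
      rw [Finset.mem_range] at hl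
      have h4 : n - m + 1 ≤ l := by omega
      have h5 : m * (n - m + 1 + 1) ≤ m * (l + 1) := Nat.mul_le_mul_left m (by omega)
      have h6 : n < m * (n - m + 1 + 1) := by
        obtain ⟨k, rfl⟩ : ∃ k, n = m + k := ⟨n - m, by omega⟩
        rw [Nat.add_sub_cancel_left]
        have : m * (k + 1 + 1) = m + (m * k + m) := by ring
        have h7 : k ≤ m * k := Nat.le_mul_of_pos_left k hm
        omega
      omega
  · rw [if_neg hmn]
    apply Finset.sum_eq_zero
    intro l _
    rw [h0, if_neg]
    have : m * (l + 1) = m * l + m := by ring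
    omega

open PowerSeries in
lemma div_exists {m : ℕ} (hm : 1 ≤ m) (f : PowerSeries (PowerSeries F)) :
    ∃ (a b : PowerSeries F) (h : PowerSeries (PowerSeries F)),
      f = C a + C b * X + X * (X - C (X : PowerSeries F) ^ m) * h := by
  obtain ⟨g, hg⟩ : ∃ g : PowerSeries (PowerSeries F), f = C (coeff 0 f) + X * g := by
    refine ⟨PowerSeries.mk fun p => coeff (p + 1) f, ?_⟩
    conv_lhs => rw [PowerSeries.eq_X_mul_shift_add_const f]
    rw [add_comm]; simp
  let b : PowerSeries F := coeff 0 g + X ^ m * Hs m g 0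
  let h : PowerSeries (PowerSeries F) := PowerSeries.mk fun j => Hs m g j
  have hgh : g = C b + (X - C (X : PowerSeries F) ^ m) * h := by
    ext1 j
    rw [map_add, sub_mul, map_sub, ← map_pow, coeff_C_mul]
    cases j with
    | zero => simp [b, h]
    | succ j =>
      rw [coeff_succ_X_mul, coeff_C, if_neg (Nat.succ_ne_zero j), zero_add, coeff_mk, coeff_mk,
        Hs_rec hm g j]
      ring
  refine ⟨coeff 0 f, b, h, ?_⟩
  conv_lhs => rw [hg, hgh]
  ring

open PowerSeries in
lemma div_unique {m : ℕ} (hm : 1 ≤ m) {a b : PowerSeries F} {h : PowerSeries (PowerSeries F)}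
    (hab : C a + C b * X = X * (X - C (X : PowerSeries F) ^ m) * h) : a = 0 ∧ b = 0 := by
  have ha : a = 0 := by
    have := congrArg (coeff 0) hab
    simpa using this
  have h1 : X * (C b - (X - C (X : PowerSeries F) ^ m) * h) = 0 := by
    rw [ha, map_zero, zero_add] at hab
    rw [mul_sub, mul_comm X (C b), hab]; ring
  have h2 : C b = (X - C (X : PowerSeries F) ^ m) * h := by
    rcases mul_eq_zero.1 h1 with h3 | h3
    · exact absurd h3 X_ne_zero
    · exact sub_eq_zero.1 h3
  have h3 : ∀ j, coeff j h = X ^ m * coeff (j + 1) h := by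
    intro j
    have := congrArg (coeff (j + 1)) h2
    rw [sub_mul, map_sub, ← map_pow, coeff_C_mul, coeff_succ_X_mul, coeff_C,
      if_neg (Nat.succ_ne_zero j)] at this
    exact (sub_eq_zero.1 this.symm)
  have h4 : ∀ k, coeff 0 h = X ^ (m * k) * coeff k h := by
    intro k
    induction k with
    | zero => simp
    | succ k ih => rw [ih, h3 k, ← mul_assoc, ← pow_add]; congr 1
  have h5 : coeff 0 h = 0 := by
    ext n
    rw [h4 (n + 1), coeff_X_pow_mul', if_neg]
    · simp
    · have : n + 1 ≤ m * (n + 1) := Nat.le_mul_of_pos_left (n + 1) hm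
      omega
  have h6 := congrArg (coeff 0) h2
  rw [sub_mul, map_sub, ← map_pow, coeff_C_mul, h5] at h6
  refine ⟨ha, ?_⟩
  simpa using h6

/-- The ring `R = k[[x,y]]/(y(y-x^m))`, with `x = X 0` and `y = X 1`. -/
abbrev LinkRing (k : Type) [Field k] (m : ℕ) : Type :=
  MvPowerSeries (Fin 2) k ⧸ Ideal.span
    {(MvPowerSeries.X 1 * (MvPowerSeries.X 1 - MvPowerSeries.X 0 ^ m) : MvPowerSeries (Fin 2) k)}

/-- the bijection `Fin 2 ≃ Option Unit` sending `1` to `none` -/
def eFin : Fin 2 ≃ Option Unit where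
  toFun i := if i = 1 then none else some ()
  invFun o := o.elim 1 (fun _ => 0)
  left_inv := by decide
  right_inv := by rintro (_ | _) <;> rfl

/-- `k[[x,y]] ≃ k[[x]][[y]]` -/
noncomputable def Theta (k : Type) [Field k] :
    MvPowerSeries (Fin 2) k ≃+* PowerSeries (PowerSeries k) :=
  ((MvPowerSeries.renameEquiv k eFin).trans (MvPowerSeries.optionEquivLeft Unit k)).toRingEquiv

lemma Theta_X0 : Theta F (MvPowerSeries.X 0) = PowerSeries.C (PowerSeries.X : PowerSeries F) := by
  show MvPowerSeries.optionEquivLeft Unit F (MvPowerSeries.renameEquiv F eFin (MvPowerSeries.X 0)) = _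
  have h1 : MvPowerSeries.renameEquiv F eFin (MvPowerSeries.X 0)
      = MvPowerSeries.X (some ()) := MvPowerSeries.rename_X eFin 0
  rw [h1, MvPowerSeries.optionEquivLeft_X_some]
  rfl

lemma Theta_X1 : Theta F (MvPowerSeries.X 1) = (PowerSeries.X : PowerSeries (PowerSeries F)) := by
  show MvPowerSeries.optionEquivLeft Unit F (MvPowerSeries.renameEquiv F eFin (MvPowerSeries.X 1)) = _
  have h1 : MvPowerSeries.renameEquiv F eFin (MvPowerSeries.X 1)
      = MvPowerSeries.X none := MvPowerSeries.rename_X eFin 1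
  rw [h1, MvPowerSeries.optionEquivLeft_X_none]

lemma Theta_D (m : ℕ) : Theta F (MvPowerSeries.X 1 * (MvPowerSeries.X 1 - MvPowerSeries.X 0 ^ m))
    = PowerSeries.X * (PowerSeries.X - PowerSeries.C (PowerSeries.X : PowerSeries F) ^ m) := by
  rw [map_mul, map_sub, map_pow, Theta_X0, Theta_X1]

/-- `k[[x]] → R` -/
noncomputable def iot (k : Type) [Field k] (m : ℕ) : PowerSeries k →+* LinkRing k m :=
  (Ideal.Quotient.mk _).comp
    (((Theta k).symm : PowerSeries (PowerSeries k) →+* MvPowerSeries (Fin 2) k).comp PowerSeries.C)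

/-- the class of `y` -/
noncomputable def yy (k : Type) [Field k] (m : ℕ) : LinkRing k m :=
  Ideal.Quotient.mk _ (MvPowerSeries.X 1)

lemma iot_X (m : ℕ) : iot F m PowerSeries.X = Ideal.Quotient.mk _ (MvPowerSeries.X 0) := by
  show Ideal.Quotient.mk _ ((Theta F).symm (PowerSeries.C PowerSeries.X)) = _
  rw [← Theta_X0, RingEquiv.symm_apply_apply]

lemma yy_mul (m : ℕ) : yy F m * yy F m = iot F m (PowerSeries.X ^ m) * yy F m := by
  rw [map_pow, iot_X, yy, ← map_pow, ← map_mul, ← map_mul, Ideal.Quotient.eq,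
    Ideal.mem_span_singleton]
  exact ⟨1, by ring⟩

lemma mk_eq (m : ℕ) (a b : PowerSeries F) :
    iot F m a + iot F m b * yy F m = Ideal.Quotient.mk _
      ((Theta F).symm (PowerSeries.C a + PowerSeries.C b * PowerSeries.X)) := by
  rw [map_add, map_mul, ← Theta_X1, RingEquiv.symm_apply_apply, map_add, map_mul]
  rfl

lemma pres_bij {m : ℕ} (hm : 1 ≤ m) :
    Function.Bijective (fun p : PowerSeries F × PowerSeries F =>
      iot F m p.1 + iot F m p.2 * yy F m) := by
  constructor
  · rintro ⟨a, b⟩ ⟨a', b'⟩ h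
    have h1 : iot F m (a - a') + iot F m (b - b') * yy F m = 0 := by
      have h2 : iot F m a + iot F m b * yy F m = iot F m a' + iot F m b' * yy F m := h
      rw [map_sub, map_sub, sub_mul]
      linear_combination h2
    rw [mk_eq, Ideal.Quotient.eq_zero_iff_mem, Ideal.mem_span_singleton] at h1
    obtain ⟨c, hc⟩ := h1
    have h2 := congrArg (Theta F) hc
    rw [RingEquiv.apply_symm_apply, map_mul (Theta F), Theta_D] at h2
    obtain ⟨h3, h4⟩ := div_unique hm h2
    rw [Prod.mk.injEq]
    exact ⟨sub_eq_zero.1 h3, sub_eq_zero.1 h4⟩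
  · intro r
    obtain ⟨z, rfl⟩ := Ideal.Quotient.mk_surjective r
    obtain ⟨a, b, h, hz⟩ := div_exists hm (Theta F z)
    refine ⟨(a, b), ?_⟩
    show iot F m a + iot F m b * yy F m = _
    rw [mk_eq, Ideal.Quotient.eq, Ideal.mem_span_singleton]
    refine ⟨-(Theta F).symm h, ?_⟩
    apply (Theta F).injective
    rw [map_sub, RingEquiv.apply_symm_apply, hz, map_mul (Theta F), Theta_D, map_neg,
      RingEquiv.apply_symm_apply]
    ring

end

end Q58QL
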