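import Pool.Agent.Q58.QLAlg

/-!
Number of subspaces of given dimension meeting a given subspace trivially.
-/

namespace Q58QL

open Finset Module

section
variable {F V : Type*} [Field F] [Fintype F] [AddCommGroup V] [Module F V] [Finite V]

/-- subspaces of dimension `w` meeting `E₀` trivially -/
def Sub (F : Type*) {V : Type*} [Field F] [AddCommGroup V] [Module F V]
    (E₀ : Submodule F V) (w : ℕ) : Set (Submodule F V) :=
  {W | W ⊓ E₀ = ⊥ ∧ finrank F W = w}

/-- tuples that are linearly independent modulo `E₀` -/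
def Tup (F : Type*) {V : Type*} [Field F] [AddCommGroup V] [Module F V]
    (E₀ : Submodule F V) (w : ℕ) : Set (Fin w → V) :=
  {v | LinearIndependent F (E₀.mkQ ∘ v)}

lemma card_fin_pow (E₀ : Submodule F V) (w : ℕ) :
    Nat.card (Fin w → E₀) = (Fintype.card F ^ finrank F E₀) ^ w := by
  classical
  have := Fintype.ofFinite E₀
  rw [Nat.card_eq_fintype_card, Fintype.card_fun, Fintype.card_fin,
    Module.card_eq_pow_finrank (K := F) (V := E₀)]

lemma card_tup (E₀ : Submodule F V) (w : ℕ) (hw : w + finrank F E₀ ≤ finrank F V) :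
    Nat.card (Tup F E₀ w) = (Fintype.card F ^ finrank F E₀) ^ w *
      ∏ i : Fin w, (Fintype.card F ^ (finrank F V - finrank F E₀) - Fintype.card F ^ i.val) := by
  classical
  have : FiniteDimensional F V := Module.Finite.of_finite
  obtain ⟨p, hp⟩ := LinearMap.exists_leftInverse_of_injective E₀.subtype
    (Submodule.ker_subtype E₀)
  have hp' : ∀ x : E₀, p x = x := fun x => by
    have := LinearMap.congr_fun hp x
    simpa using this
  have hinj : ∀ a b : V, E₀.mkQ a = E₀.mkQ b → p a = p b → a = b := by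
    intro a b h1 h2
    have h3 : a - b ∈ E₀ := (Submodule.Quotient.eq E₀).1 h1
    have h4 := hp' ⟨a - b, h3⟩
    simp only [map_sub, h2, sub_self] at h4
    have h5 := congrArg Subtype.val h4
    simp only [ZeroMemClass.coe_zero] at h5
    exact sub_eq_zero.1 h5.symm
  let f : Tup F E₀ w → {u : Fin w → V ⧸ E₀ // LinearIndependent F u} × (Fin w → E₀) :=
    fun v => (⟨E₀.mkQ ∘ v.1, v.2⟩, p ∘ v.1)
  have hf : Function.Bijective f := by
    constructor
    · rintro ⟨v, hv⟩ ⟨v', hv'⟩ h
      simp only [f, Prod.mk.injEq] at h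
      have h1 : (E₀.mkQ ∘ v) = E₀.mkQ ∘ v' := congrArg Subtype.val h.1
      apply Subtype.ext
      funext i
      exact hinj _ _ (congrFun h1 i) (congrFun h.2 i)
    · rintro ⟨⟨u, hu⟩, g⟩
      choose a ha using fun i => E₀.mkQ_surjective (u i)
      have hmk : ∀ i, E₀.mkQ (a i - (p (a i) : V) + (g i : V)) = u i := by
        intro i
        rw [map_add, map_sub, ha]
        have h1 : E₀.mkQ (p (a i) : V) = 0 := by simp
        have h2 : E₀.mkQ (g i : V) = 0 := by simp
        rw [h1, h2]; simp
      refine ⟨⟨fun i => a i - (p (a i) : V) + (g i : V), ?_⟩, ?_⟩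
      · have : E₀.mkQ ∘ (fun i => a i - (p (a i) : V) + (g i : V)) = u := by
          funext i; exact hmk i
        show LinearIndependent F _
        rw [this]; exact hu
      · simp only [f, Prod.mk.injEq]
        refine ⟨?_, ?_⟩
        · apply Subtype.ext
          funext i; exact hmk i
        · funext i
          simp [hp']
  rw [Nat.card_congr (Equiv.ofBijective f hf), Nat.card_prod, card_fin_pow, mul_comm]
  congr 1
  have hfin : Finite (V ⧸ E₀) := Quotient.finite _
  have hq : finrank F (V ⧸ E₀) = finrank F V - finrank F E₀ := Submodule.finrank_quotient E₀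
  have := card_linearIndependent (K := F) (V := V ⧸ E₀) (k := w) (by omega)
  rw [this, hq]

lemma card_tup' (E₀ : Submodule F V) (w : ℕ) :
    Nat.card (Tup F E₀ w) = Nat.card (Sub F E₀ w) *
      ∏ i : Fin w, (Fintype.card F ^ w - Fintype.card F ^ i.val) := by
  classical
  have : FiniteDimensional F V := Module.Finite.of_finite
  let f : (Σ W : Sub F E₀ w, {s : Fin w → W.1 // LinearIndependent F s}) → Tup F E₀ w :=
    fun x => ⟨fun i => (x.2.1 i : V), by
      obtain ⟨⟨W, hW1, hW2⟩, s, hs⟩ := x
      show LinearIndependent F (E₀.mkQ ∘ fun i => (s i : V))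
      have h1 : (E₀.mkQ ∘ fun i => (s i : V)) = (E₀.mkQ ∘ₗ W.subtype) ∘ s := rfl
      rw [h1]
      apply hs.map'
      rw [LinearMap.ker_eq_bot']
      intro m hm
      simp only [LinearMap.coe_comp, Submodule.coe_subtype, Function.comp_apply,
        Submodule.mkQ_apply, Submodule.Quotient.mk_eq_zero] at hm
      have h3 : (m : V) ∈ W ⊓ E₀ := ⟨m.2, hm⟩
      have h4 : (m : V) ∈ (⊥ : Submodule F V) := hW1.le h3
      exact Subtype.ext (by simpa using h4)⟩
  have hspan : ∀ (W : Sub F E₀ w) (s : {s : Fin w → W.1 // LinearIndependent F s}),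
      Submodule.span F (Set.range fun i => (s.1 i : V)) = W.1 := by
    rintro ⟨W, hW1, hW2⟩ ⟨s, hs⟩
    have h1 : (⊤ : Submodule F W) ≤ Submodule.span F (Set.range s) :=
      (hs.span_eq_top_of_card_eq_finrank' (by rw [Fintype.card_fin]; exact hW2.symm)).ge
    have h2 : Submodule.map W.subtype (Submodule.span F (Set.range s)) = W := by
      rw [top_le_iff.1 h1]; simp
    rw [Submodule.map_span, ← Set.range_comp] at h2
    exact h2
  have hf : Function.Bijective f := by
    constructor
    · rintro ⟨W, s⟩ ⟨W', s'⟩ h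
      have h' : (fun i => (s.1 i : V)) = fun i => (s'.1 i : V) := congrArg Subtype.val h
      have hWW : W = W' := by
        apply Subtype.ext
        rw [← hspan W s, ← hspan W' s', h']
      subst hWW
      congr 1
      apply Subtype.ext
      funext i
      exact Subtype.ext (congrFun h' i)
    · rintro ⟨v, hv⟩
      have hli : LinearIndependent F v := LinearIndependent.of_comp E₀.mkQ hv
      let W : Submodule F V := Submodule.span F (Set.range v)
      have hW2 : finrank F W = w := by
        have := finrank_span_eq_card hli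
        simpa using this
      have hW1 : W ⊓ E₀ = ⊥ := by
        rw [Submodule.eq_bot_iff]
        rintro x ⟨hx1, hx2⟩
        obtain ⟨c, rfl⟩ := (Submodule.mem_span_range_iff_exists_fun F).1 hx1
        have h0 : ∑ i, c i • (E₀.mkQ ∘ v) i = 0 := by
          have h3 : E₀.mkQ (∑ i, c i • v i) = 0 := (Submodule.Quotient.mk_eq_zero E₀).2 hx2
          rw [map_sum] at h3
          simpa using h3
        have hc := Fintype.linearIndependent_iff.1 hv c h0
        simp [hc]
      refine ⟨⟨⟨W, hW1, hW2⟩, ⟨fun i => ⟨v i, Submodule.subset_span ⟨i, rfl⟩⟩, ?_⟩⟩, ?_⟩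
      · apply LinearIndependent.of_comp W.subtype
        exact hli
      · rfl
  rw [← Nat.card_congr (Equiv.ofBijective f hf)]
  have := Fintype.ofFinite (Sub F E₀ w)
  rw [Nat.card_sigma]
  have : ∀ W : Sub F E₀ w, Nat.card {s : Fin w → W.1 // LinearIndependent F s} =
      ∏ i : Fin w, (Fintype.card F ^ w - Fintype.card F ^ i.val) := by
    rintro ⟨W, hW1, hW2⟩
    have := card_linearIndependent (K := F) (V := W) (k := w) hW2.ge
    rw [this, hW2]
  simp only [this, sum_const, card_univ, smul_eq_mul, Nat.card_eq_fintype_card]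

lemma prod_cast (q w n : ℕ) (hq : 1 < q) (hw : w ≤ n) :
    ((∏ i : Fin w, (q ^ n - q ^ i.val) : ℕ) : ℤ) = ∏ i ∈ range w, ((q : ℤ) ^ n - (q : ℤ) ^ i) := by
  rw [← Fin.prod_univ_eq_prod_range (fun i => (q : ℤ) ^ n - (q : ℤ) ^ i) w, Nat.cast_prod]
  apply Finset.prod_congr rfl
  intro i _
  rw [Nat.cast_sub (Nat.pow_le_pow_right (by omega) (by omega))]
  push_cast; rfl

/-- the number of `w`-dimensional subspaces meeting `E₀` trivially -/
theorem card_Sub (E₀ : Submodule F V) (w : ℕ) :
    Nat.card (Sub F E₀ w) = Fintype.card F ^ (finrank F E₀ * w) *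
      gb (Fintype.card F) (finrank F V - finrank F E₀) w := by
  classical
  have : FiniteDimensional F V := Module.Finite.of_finite
  have hq1 : 1 < Fintype.card F := Fintype.one_lt_card
  by_cases hw : w + finrank F E₀ ≤ finrank F V
  · have h1 := card_tup E₀ w hw
    rw [card_tup'] at h1
    have h2 : ((Nat.card (Sub F E₀ w) : ℤ)) * ∏ i ∈ range w, ((Fintype.card F : ℤ) ^ w - (Fintype.card F : ℤ) ^ i)
        = ((Fintype.card F : ℤ) ^ finrank F E₀) ^ w * ∏ i ∈ range w,
          ((Fintype.card F : ℤ) ^ (finrank F V - finrank F E₀) - (Fintype.card F : ℤ) ^ i) := by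
      rw [← prod_cast _ w w hq1 le_rfl, ← prod_cast _ w _ hq1 (by omega)]
      exact_mod_cast h1
    rw [← gb_mul_prod (Fintype.card F : ℤ) (finrank F V - finrank F E₀) w, ← mul_assoc] at h2
    have h3 : ∏ i ∈ range w, ((Fintype.card F : ℤ) ^ w - (Fintype.card F : ℤ) ^ i) ≠ 0 := by
      rw [Finset.prod_ne_zero_iff]
      intro i hi
      have : (Fintype.card F : ℤ) ^ i < (Fintype.card F : ℤ) ^ w :=
        pow_lt_pow_right₀ (by exact_mod_cast hq1) (Finset.mem_range.1 hi)
      omega
    have h4 := mul_right_cancel₀ h3 h2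
    have h5 : gb ((Fintype.card F : ℕ) : ℤ) (finrank F V - finrank F E₀) w
        = ((gb (Fintype.card F) (finrank F V - finrank F E₀) w : ℕ) : ℤ) :=
      (map_gb (Fintype.card F) (Nat.castRingHom ℤ) _ _).symm
    rw [h5, ← pow_mul] at h4
    exact_mod_cast h4
  · have h1 : IsEmpty (Sub F E₀ w) := by
      constructor
      rintro ⟨W, hW1, hW2⟩
      have h := Submodule.finrank_add_finrank_le_of_disjoint (disjoint_iff.2 hW1)
      omega
    have h2 := Submodule.finrank_le E₀
    rw [gb_eq_zero _ (by omega)]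
    simp

end

end Q58QL
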