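import Pool.Agent.Q58.QLRing

/-!
`R`-submodules of `R^d` correspond to the stable submodules of `E × E`.
-/

namespace Q58QL

open Finset Module

section
variable {F : Type} [Field F] {d : ℕ}

/-- `E × E ≃ R^d`, `(f,g) ↦ f + g y` -/
noncomputable def ev (F : Type) [Field F] (d m : ℕ) : (E F d × E F d) →+ (Fin d → LinkRing F m) where
  toFun p i := iot F m (p.1 i) + iot F m (p.2 i) * yy F m
  map_zero' := by ext; simp
  map_add' := by
    intro p p'
    funext i
    simp only [Prod.fst_add, Prod.snd_add, Pi.add_apply, map_add]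
    ring

lemma ev_apply (m : ℕ) (p : E F d × E F d) (i : Fin d) :
    ev F d m p i = iot F m (p.1 i) + iot F m (p.2 i) * yy F m := rfl

lemma ev_bij {m : ℕ} (hm : 1 ≤ m) : Function.Bijective (ev F d m) := by
  constructor
  · intro p p' h
    have h1 : ∀ i, (p.1 i, p.2 i) = (p'.1 i, p'.2 i) := fun i =>
      (pres_bij hm).1 (congrFun h i)
    apply Prod.ext
    · funext i; exact congrArg Prod.fst (h1 i)
    · funext i; exact congrArg Prod.snd (h1 i)
  · intro v
    choose p hp using fun i => (pres_bij hm).2 (v i)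
    exact ⟨(fun i => (p i).1, fun i => (p i).2), funext hp⟩

lemma ev_smul (m : ℕ) (c : PowerSeries F) (p : E F d × E F d) :
    ev F d m (c • p) = iot F m c • ev F d m p := by
  funext i
  simp only [ev_apply, Prod.smul_fst, Prod.smul_snd, Pi.smul_apply, smul_eq_mul, map_mul]
  ring

lemma ev_Y (m : ℕ) (p : E F d × E F d) :
    ev F d m ((0 : E F d), p.1 + (PowerSeries.X : PowerSeries F) ^ m • p.2) = yy F m • ev F d m p := by
  funext i
  simp only [ev_apply, Pi.zero_apply, Pi.add_apply, Pi.smul_apply, smul_eq_mul, map_mul, map_add,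
    map_zero, zero_add]
  linear_combination (-(iot F m (p.2 i))) * yy_mul (F := F) m

/-- pull back -/
noncomputable def toS2 {m : ℕ} (L : Submodule (LinkRing F m) (Fin d → LinkRing F m)) : S2 F d where
  carrier := {p | ev F d m p ∈ L}
  zero_mem' := by simp
  add_mem' := by
    intro a b ha hb
    simp only [Set.mem_ofPred_eq, map_add] at *
    exact L.add_mem ha hb
  smul_mem' := by
    intro c a ha
    simp only [Set.mem_ofPred_eq, ev_smul] at *
    exact L.smul_mem _ ha

lemma mem_toS2 {m : ℕ} {L : Submodule (LinkRing F m) (Fin d → LinkRing F m)} {p : E F d × E F d} :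
    p ∈ toS2 L ↔ ev F d m p ∈ L := Iff.rfl

lemma stab_toS2 {m : ℕ} (L : Submodule (LinkRing F m) (Fin d → LinkRing F m)) :
    Stab m (toS2 L) := by
  intro p hp
  rw [mem_toS2, ev_Y]
  exact L.smul_mem _ hp

lemma index_toS2 {m : ℕ} (hm : 1 ≤ m) (L : Submodule (LinkRing F m) (Fin d → LinkRing F m)) :
    (toS2 L).toAddSubgroup.index = Nat.card ((Fin d → LinkRing F m) ⧸ L) := by
  have h1 : (toS2 L).toAddSubgroup = L.toAddSubgroup.comap (ev F d m) := by ext; rfl
  rw [h1, AddSubgroup.index_comap_of_surjective _ (ev_bij hm).2]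
  rfl

/-- push forward -/
noncomputable def ofS2 {m : ℕ} (hm : 1 ≤ m) (L : S2 F d) (hL : Stab m L) :
    Submodule (LinkRing F m) (Fin d → LinkRing F m) where
  carrier := {v | ∃ p ∈ L, ev F d m p = v}
  zero_mem' := ⟨0, L.zero_mem, map_zero _⟩
  add_mem' := by
    rintro _ _ ⟨p, hp, rfl⟩ ⟨p', hp', rfl⟩
    exact ⟨p + p', L.add_mem hp hp', map_add _ _ _⟩
  smul_mem' := by
    rintro r _ ⟨p, hp, rfl⟩
    obtain ⟨⟨a, b⟩, rfl⟩ := (pres_bij hm).2 r
    refine ⟨a • p + b • ((0 : E F d), p.1 + (PowerSeries.X : PowerSeries F) ^ m • p.2),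
      L.add_mem (L.smul_mem a hp) (L.smul_mem b (hL p hp)), ?_⟩
    rw [map_add, ev_smul, ev_smul, ev_Y, smul_smul]
    exact (add_smul (iot F m a) (iot F m b * yy F m) (ev F d m p)).symm

lemma toS2_ofS2 {m : ℕ} (hm : 1 ≤ m) (L : S2 F d) (hL : Stab m L) : toS2 (ofS2 hm L hL) = L := by
  ext p
  rw [mem_toS2]
  constructor
  · rintro ⟨p', hp', h⟩
    rw [(ev_bij hm).1 h] at hp'
    exact hp'
  · intro hp; exact ⟨p, hp, rfl⟩

theorem card_transport {m : ℕ} (hm : 1 ≤ m) (n : ℕ) :
    Nat.card {L : Submodule (LinkRing F m) (Fin d → LinkRing F m) //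
      Nat.card ((Fin d → LinkRing F m) ⧸ L) = n} =
    Nat.card {L : S2 F d // Stab m L ∧ L.toAddSubgroup.index = n} := by
  apply Nat.card_congr
  refine ⟨fun L => ⟨toS2 L.1, stab_toS2 L.1, by rw [index_toS2 hm]; exact L.2⟩,
    fun L => ⟨ofS2 hm L.1 L.2.1, ?_⟩, ?_, ?_⟩
  · rw [← index_toS2 hm, toS2_ofS2]
    exact L.2.2
  · intro L
    apply Subtype.ext
    ext v
    constructor
    · rintro ⟨p, hp, rfl⟩; exact hp
    · intro hv
      obtain ⟨p, rfl⟩ := (ev_bij (d := d) hm).2 v
      exact ⟨p, hv, rfl⟩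
  · intro L
    exact Subtype.ext (toS2_ofS2 hm L.1 L.2.1)

end

end Q58QL
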