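import Mathlib
import Pool.Agent.Q58.ChowDefs

/-!
# The exchange of the factors of `C × C`
-/

namespace Q58.Chow

open CategoryTheory Limits

universe u

variable {k : Type u} [Field k]

/-- The exchange `(x, y) ↦ (y, x)` of the factors of `C × C`. -/
noncomputable def swapS (C : Sch k) : prodS C C ⟶ prodS C C := prod.lift (sndS C C) (fstS C C)

end Q58.Chow
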