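import Mathlib
import Pool.Agent.Q58.ChowDefs
import Pool.Agent.Q58.Product
import Pool.Agent.Q58.SymDefs

/-!
# Zero-cycles on powers of the symmetric square of a curve
-/

namespace Q58

open Finset Equiv

variable {n : ℕ}

/-- The permutation of `Fin n × Bool` given by a permutation of the pairs and flips. -/
def wreath (ρ : Perm (Fin n)) (ε : Fin n → Bool) : Perm (Fin n × Bool) where
  toFun p := (ρ p.1, xor p.2 (ε p.1))
  invFun p := (ρ⁻¹ p.1, xor p.2 (ε (ρ⁻¹ p.1)))
  left_inv p := by simp
  right_inv p := by simp

@[simp] lemma wreath_apply (ρ : Perm (Fin n)) (ε : Fin n → Bool) (p : Fin n × Bool) :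
    wreath ρ ε p = (ρ p.1, xor p.2 (ε p.1)) := rfl

lemma wreath_flip (ρ : Perm (Fin n)) (ε : Fin n → Bool) (i : Fin n) :
    wreath ρ (Function.update ε i (!(ε i))) =
      wreath ρ ε * Equiv.swap (i, false) (i, true) := by
  ext ⟨j, b⟩
  · simp only [Perm.mul_apply, wreath_apply]
    by_cases hij : j = i
    · subst hij
      cases b
      · rw [Equiv.swap_apply_left]
      · rw [Equiv.swap_apply_right]
    · rw [Equiv.swap_apply_of_ne_of_ne]
      · intro h; exact hij (Prod.ext_iff.1 h).1
      · intro h; exact hij (Prod.ext_iff.1 h).1
  · simp only [Perm.mul_apply, wreath_apply]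
    by_cases hij : j = i
    · subst hij
      cases b
      · rw [Equiv.swap_apply_left]; simp
      · rw [Equiv.swap_apply_right]; simp
    · rw [Equiv.swap_apply_of_ne_of_ne]
      · simp [Function.update_of_ne hij]
      · intro h; exact hij (Prod.ext_iff.1 h).1
      · intro h; exact hij (Prod.ext_iff.1 h).1

/-- The flips after exchanging the pairs `i` and `j` with a relative flip `δ`. -/
def swapFlips (ε : Fin n → Bool) (i j : Fin n) (δ : Bool) : Fin n → Bool :=
  Function.update (Function.update ε i (xor δ (ε j))) j (xor δ (ε i))

lemma wreath_swap (ρ : Perm (Fin n)) (ε : Fin n → Bool) {i j : Fin n} (hij : i ≠ j) (δ : Bool) :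
    wreath (ρ * Equiv.swap i j) (swapFlips ε i j δ) =
      wreath ρ ε * (Equiv.swap (i, false) (j, δ) * Equiv.swap (i, true) (j, !δ)) := by
  have hne1 : ∀ b c : Bool, ((i, b) : Fin n × Bool) ≠ (j, c) := fun b c h =>
    hij (Prod.ext_iff.1 h).1
  have key : ∀ (l : Fin n) (b : Bool),
      (Equiv.swap (i, false) (j, δ) * Equiv.swap (i, true) (j, !δ)) (l, b) =
        if l = i then (j, xor b δ) else if l = j then (i, xor b δ) else (l, b) := by
    intro l b
    rw [Perm.mul_apply]
    by_cases h1 : l = i
    · subst h1
      rw [if_pos rfl]
      cases b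
      · rw [Equiv.swap_apply_of_ne_of_ne (by simp) (hne1 _ _), Equiv.swap_apply_left]
        simp
      · rw [Equiv.swap_apply_left, Equiv.swap_apply_of_ne_of_ne (hne1 _ _).symm (by simp)]
        simp
    · rw [if_neg h1]
      by_cases h2 : l = j
      · subst h2
        rw [if_pos rfl]
        by_cases hb : b = δ
        · subst hb
          rw [Equiv.swap_apply_of_ne_of_ne (hne1 _ _).symm (by simp), Equiv.swap_apply_right]
          simp
        · have hb' : b = !δ := by cases b <;> cases δ <;> simp_all
          subst hb'
          rw [Equiv.swap_apply_right, Equiv.swap_apply_of_ne_of_ne (by simp) (hne1 _ _)]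
          simp
      · rw [if_neg h2]
        rw [Equiv.swap_apply_of_ne_of_ne (x := (l, b)) (a := (i, true)) (b := (j, !δ))
          (fun h => h1 (Prod.ext_iff.1 h).1) (fun h => h2 (Prod.ext_iff.1 h).1),
          Equiv.swap_apply_of_ne_of_ne (fun h => h1 (Prod.ext_iff.1 h).1)
            (fun h => h2 (Prod.ext_iff.1 h).1)]
  apply Equiv.ext
  rintro ⟨l, b⟩
  rw [Perm.mul_apply, key]
  simp only [wreath_apply, Perm.mul_apply]
  by_cases h1 : l = i
  · subst h1
    rw [if_pos rfl]
    simp only [Equiv.swap_apply_left, swapFlips]
    rw [Function.update_of_ne hij, Function.update_self]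
    simp [Bool.xor_assoc]
  · rw [if_neg h1]
    by_cases h2 : l = j
    · subst h2
      rw [if_pos rfl]
      simp only [Equiv.swap_apply_right, swapFlips]
      rw [Function.update_self]
      simp [Bool.xor_assoc]
    · rw [if_neg h2]
      simp only [swapFlips]
      rw [Equiv.swap_apply_of_ne_of_ne h1 h2, Function.update_of_ne h2, Function.update_of_ne h1]

/-- The weight of a wreath element: the sign of the permutation of the pairs times the sign of
the whole permutation. -/
def wsgn (p : Perm (Fin n) × (Fin n → Bool)) : ℤ :=
  ((Perm.sign p.1 : ℤˣ) : ℤ) * ((Perm.sign (wreath p.1 p.2) : ℤˣ) : ℤ)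

/-- The wreath-signed sum of an alternating function vanishes when `n > g (g - 1) / 2`. -/
theorem wreath_sum_eq_zero {g : ℕ} (hn : g.choose 2 < n) {M : Type*} [AddCommGroup M]
    {f : Perm (Fin n × Bool) → M} (hf : AltFun g f) :
    ∑ p : Perm (Fin n) × (Fin n → Bool), wsgn p • f (wreath p.1 p.2) = 0 := by
  classical
  have key : ∀ (w w' : Fin n × Bool → Fin g) (m : M),
      ∑ p : Perm (Fin n) × (Fin n → Bool), wsgn p • wordFun w w' m (wreath p.1 p.2) = 0 := by
    intro w w' m
    have hinv : ∀ (θ κ : Perm (Fin n × Bool)), w ∘ κ = w → κ * κ = 1 →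
        wordFun w w' m (θ * κ) = wordFun w w' m θ := by
      intro θ κ hκ hκ2
      have hκi : ∀ x, κ (κ x) = x := fun x => by
        have := congrArg (fun τ : Perm (Fin n × Bool) => τ x) hκ2
        simpa using this
      unfold wordFun
      have hiff : w' ∘ ⇑(θ * κ) = w ↔ w' ∘ ⇑θ = w := by
        constructor
        · intro h
          funext x
          have h1 := congrFun h (κ x)
          have h2 := congrFun hκ x
          simp only [Function.comp_apply, Perm.mul_apply, hκi] at h1 h2 ⊢
          rw [h1, h2]
        · intro h
          funext x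
          have h1 := congrFun h (κ x)
          have h2 := congrFun hκ x
          simp only [Function.comp_apply, Perm.mul_apply] at h1 h2 ⊢
          rw [h1, h2]
      by_cases h : w' ∘ ⇑θ = w
      · rw [if_pos h, if_pos (hiff.2 h)]
      · rw [if_neg h, if_neg (fun h' => h (hiff.1 h'))]
    by_cases hA : ∃ i, w (i, false) = w (i, true)
    · obtain ⟨i, hi⟩ := hA
      refine Finset.sum_involution
        (fun p _ => (p.1, Function.update p.2 i (!(p.2 i)))) ?_ ?_ ?_ ?_
      · intro p _
        have hw : w ∘ ⇑(Equiv.swap (i, false) (i, true)) = w := by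
          funext x
          rw [Function.comp_apply]
          by_cases h1 : x = (i, false)
          · rw [h1, Equiv.swap_apply_left, hi]
          · by_cases h2 : x = (i, true)
            · rw [h2, Equiv.swap_apply_right, hi]
            · rw [Equiv.swap_apply_of_ne_of_ne h1 h2]
        have hs : wsgn (p.1, Function.update p.2 i (!(p.2 i))) = - wsgn p := by
          unfold wsgn
          simp only
          rw [wreath_flip, Perm.sign_mul, Perm.sign_swap (by simp)]
          push_cast; ring
        rw [hs, wreath_flip, hinv _ _ hw (by simp)]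
        simp
      · intro p _ _ h
        have := congrFun (Prod.ext_iff.1 h).2 i
        simp at this
      · intro p _; exact mem_univ _
      · intro p _
        ext
        · rfl
        · rename_i x
          by_cases hx : x = i
          · subst hx; simp
          · simp [Function.update_of_ne hx]
    · push Not at hA
      -- two pairs carry the same unordered pair of letters
      obtain ⟨i, j, hij, hpair⟩ : ∃ i j, i ≠ j ∧
          ({w (i, false), w (i, true)} : Finset (Fin g)) = {w (j, false), w (j, true)} := by
        have hcard : (Finset.powersetCard 2 (univ : Finset (Fin g))).card <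
            (univ : Finset (Fin n)).card := by simpa using hn
        obtain ⟨i, _, j, _, hne, h⟩ := Finset.exists_ne_map_eq_of_card_lt_of_maps_to hcard
          (f := fun i => ({w (i, false), w (i, true)} : Finset (Fin g))) (by
            intro i _
            rw [Finset.mem_coe, Finset.mem_powersetCard]
            exact ⟨subset_univ _, Finset.card_pair (hA i)⟩)
        exact ⟨i, j, hne, h⟩
      obtain ⟨δ, hδ⟩ : ∃ δ : Bool, w (i, false) = w (j, δ) ∧ w (i, true) = w (j, !δ) := by
        have h1 : w (i, false) ∈ ({w (j, false), w (j, true)} : Finset (Fin g)) := by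
          rw [← hpair]; simp
        have h2 : w (i, true) ∈ ({w (j, false), w (j, true)} : Finset (Fin g)) := by
          rw [← hpair]; simp
        rw [mem_insert, mem_singleton] at h1 h2
        rcases h1 with h1 | h1
        · refine ⟨false, h1, ?_⟩
          rcases h2 with h2 | h2
          · exact absurd (h1.trans h2.symm) (hA i)
          · exact h2
        · refine ⟨true, h1, ?_⟩
          rcases h2 with h2 | h2
          · exact h2
          · exact absurd (h1.trans h2.symm) (hA i)
      have hne1 : ∀ b c : Bool, ((i, b) : Fin n × Bool) ≠ (j, c) := fun b c h =>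
        hij (Prod.ext_iff.1 h).1
      set κ : Perm (Fin n × Bool) :=
        Equiv.swap (i, false) (j, δ) * Equiv.swap (i, true) (j, !δ) with hκ
      have hκ2 : κ * κ = 1 := by
        have hdisj : Perm.Disjoint (Equiv.swap ((i, false) : Fin n × Bool) (j, δ))
            (Equiv.swap (i, true) (j, !δ)) := by
          intro x
          by_cases h1 : x = (i, false) ∨ x = (j, δ)
          · right
            rcases h1 with rfl | rfl
            · exact Equiv.swap_apply_of_ne_of_ne (by simp) (hne1 _ _)
            · exact Equiv.swap_apply_of_ne_of_ne (hne1 _ _).symm (by simp)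
          · left
            push Not at h1
            exact Equiv.swap_apply_of_ne_of_ne h1.1 h1.2
        have hc := hdisj.commute
        rw [hκ]
        calc Equiv.swap ((i, false) : Fin n × Bool) (j, δ) * Equiv.swap (i, true) (j, !δ) *
              (Equiv.swap (i, false) (j, δ) * Equiv.swap (i, true) (j, !δ))
            = (Equiv.swap ((i, false) : Fin n × Bool) (j, δ) * Equiv.swap (i, false) (j, δ)) *
              (Equiv.swap (i, true) (j, !δ) * Equiv.swap (i, true) (j, !δ)) := by
              rw [mul_assoc, mul_assoc, ← mul_assoc (Equiv.swap (i, true) (j, !δ)), ← hc.eq,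
                mul_assoc]
          _ = 1 := by simp
      have hwκ : w ∘ κ = w := by
        funext x
        rw [Function.comp_apply, hκ, Perm.mul_apply]
        by_cases h1 : x = (i, true)
        · subst h1
          rw [Equiv.swap_apply_left, Equiv.swap_apply_of_ne_of_ne (hne1 _ _).symm (by simp)]
          exact hδ.2.symm
        · by_cases h2 : x = (j, !δ)
          · subst h2
            rw [Equiv.swap_apply_right, Equiv.swap_apply_of_ne_of_ne (by simp) (hne1 _ _)]
            exact hδ.2
          · rw [Equiv.swap_apply_of_ne_of_ne h1 h2]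
            by_cases h3 : x = (i, false)
            · subst h3; rw [Equiv.swap_apply_left]; exact hδ.1.symm
            · by_cases h4 : x = (j, δ)
              · subst h4; rw [Equiv.swap_apply_right]; exact hδ.1
              · rw [Equiv.swap_apply_of_ne_of_ne h3 h4]
      refine Finset.sum_involution
        (fun p _ => (p.1 * Equiv.swap i j, swapFlips p.2 i j δ)) ?_ ?_ ?_ ?_
      · intro p _
        have hs : wsgn (p.1 * Equiv.swap i j, swapFlips p.2 i j δ) = - wsgn p := by
          unfold wsgn
          simp only
          rw [wreath_swap _ _ hij, Perm.sign_mul, Perm.sign_mul, Perm.sign_mul,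
            Perm.sign_swap hij, Perm.sign_swap (hne1 _ _), Perm.sign_swap (hne1 _ _)]
          push_cast; ring
        rw [hs, wreath_swap _ _ hij, hinv _ _ hwκ hκ2]
        simp
      · intro p _ _ h
        have h1 : p.1 * Equiv.swap i j = p.1 := (Prod.ext_iff.1 h).1
        have : Equiv.swap i j = 1 := by
          have := congrArg (fun x => p.1⁻¹ * x) h1
          simpa using this
        rw [Equiv.swap_eq_one_iff] at this
        exact hij this
      · intro p _; exact mem_univ _
      · intro p _
        ext1
        · simp [mul_assoc]
        · funext x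
          simp only [swapFlips]
          by_cases h1 : x = j
          · subst h1
            rw [Function.update_self, Function.update_of_ne hij, Function.update_self]
            simp [← Bool.xor_assoc]
          · rw [Function.update_of_ne h1]
            by_cases h2 : x = i
            · subst h2
              rw [Function.update_self, Function.update_self]
              simp [← Bool.xor_assoc]
            · rw [Function.update_of_ne h2, Function.update_of_ne h1, Function.update_of_ne h2]
  refine AddSubgroup.closure_induction (p := fun (F : Perm (Fin n × Bool) → M) _ =>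
    ∑ p : Perm (Fin n) × (Fin n → Bool), wsgn p • F (wreath p.1 p.2) = 0)
    ?_ ?_ ?_ ?_ hf.mem_closure
  · rintro _ ⟨w, w', m, rfl⟩
    exact key w w' m
  · simp
  · intro F F' _ _ h h'
    simp only [Pi.add_apply, smul_add, sum_add_distrib, h, h', add_zero]
  · intro F _ h
    simp only [Pi.neg_apply, smul_neg, sum_neg_distrib, h, neg_zero]

end Q58

namespace Q58.Chow

open AlgebraicGeometry CategoryTheory Limits Equiv

universe u

variable {k : Type u} [Field k]

/-- Combining the arguments of a multilinear map in pairs by a bilinear map. -/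
noncomputable def pairComp {n : ℕ} {M M' W : Type*} [AddCommGroup M] [Module ℚ M]
    [AddCommGroup M'] [Module ℚ M'] [AddCommGroup W] [Module ℚ W]
    (T : MultilinearMap ℚ (fun _ : Fin n => M') W) (B : M →ₗ[ℚ] M →ₗ[ℚ] M') :
    MultilinearMap ℚ (fun _ : Fin n × Bool => M) W :=
  MultilinearMap.mk' (fun E => T fun i => B (E (i, false)) (E (i, true)))
    (by
      intro m p x y
      obtain ⟨i, b⟩ := p
      have key : ∀ z : M, (fun j => B ((Function.update m (i, b) z) (j, false))
          ((Function.update m (i, b) z) (j, true))) =
          Function.update (fun j => B (m (j, false)) (m (j, true))) i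
            (if b then B (m (i, false)) z else B z (m (i, true))) := by
        intro z
        funext j
        by_cases hj : j = i
        · subst hj
          cases b <;> simp [Function.update_apply]
        · rw [Function.update_of_ne (by simp [hj]), Function.update_of_ne (by simp [hj]),
            Function.update_of_ne hj]
      simp only [key]
      cases b
      · simp only [Bool.false_eq_true, if_false, map_add, LinearMap.add_apply,
          MultilinearMap.map_update_add]
      · simp only [if_true, map_add, MultilinearMap.map_update_add])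
    (by
      intro m p c x
      obtain ⟨i, b⟩ := p
      have key : ∀ z : M, (fun j => B ((Function.update m (i, b) z) (j, false))
          ((Function.update m (i, b) z) (j, true))) =
          Function.update (fun j => B (m (j, false)) (m (j, true))) i
            (if b then B (m (i, false)) z else B z (m (i, true))) := by
        intro z
        funext j
        by_cases hj : j = i
        · subst hj
          cases b <;> simp [Function.update_apply]
        · rw [Function.update_of_ne (by simp [hj]), Function.update_of_ne (by simp [hj]),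
            Function.update_of_ne hj]
      simp only [key]
      cases b
      · simp only [Bool.false_eq_true, if_false, map_smul, LinearMap.smul_apply,
          MultilinearMap.map_update_smul]
      · simp only [if_true, map_smul, MultilinearMap.map_update_smul])

lemma pairComp_apply {n : ℕ} {M M' W : Type*} [AddCommGroup M] [Module ℚ M]
    [AddCommGroup M'] [Module ℚ M'] [AddCommGroup W] [Module ℚ W]
    (T : MultilinearMap ℚ (fun _ : Fin n => M') W) (B : M →ₗ[ℚ] M →ₗ[ℚ] M')
    (E : Fin n × Bool → M) :
    pairComp T B E = T fun i => B (E (i, false)) (E (i, true)) := rfl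

lemma swapS_eq (C : Sch k) : swapS C = liftS (sndS C C) (fstS C C) := rfl

section

variable {C S : Sch k} {n : ℕ} (π : prodS C C ⟶ S)

/-- The point of `S^n` defined by an array of `2n` points of `C`. -/
noncomputable def ptSq (z : Fin n × Bool → Pt C) : Pt (powS S n) :=
  tuple fun i => liftS (z (i, false)) (z (i, true)) ≫ π

/-- The linear map from cycles of arrays to zero-cycles on `S^n`. -/
noncomputable def sqL (n : ℕ) : ((Fin n × Bool → Pt C) →₀ ℚ) →ₗ[ℚ] CH0 (powS S n) :=
  Finsupp.linearCombination ℚ fun z => cl _ (Finsupp.single (ptSq π z) 1)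

lemma sqL_single (z : Fin n × Bool → Pt C) :
    sqL π n (Finsupp.single z 1) = cl _ (Finsupp.single (ptSq π z) 1) := by
  unfold sqL
  rw [Finsupp.linearCombination_single, one_smul]

lemma sqL_kill [IsCurve C] (f : (Fin n × Bool → Pt C) →₀ ℚ)
    (hf : f ∈ diagRel (Fin n × Bool) (Prin C)) : sqL π n f = 0 := by
  classical
  unfold diagRel at hf
  induction hf using Submodule.span_induction with
  | mem x hx =>
    obtain ⟨z, A, D, ⟨h, hh⟩, rfl⟩ := hx
    let e : Fin n × Bool → (C ⟶ C) := fun p => if p ∈ A then 𝟙 C else toBase C ≫ z p
    have he : ∀ (P : Pt C) (p), P ≫ e p = diagArr z A P p := by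
      intro P p
      simp only [e, diagArr]
      by_cases hp : p ∈ A
      · rw [if_pos hp, if_pos hp, Category.comp_id]
      · rw [if_neg hp, if_neg hp, pt_comp_const]
    let φ : C ⟶ powS S n := liftP fun i => liftS (e (i, false)) (e (i, true)) ≫ π
    have hφ : ∀ P : Pt C, P ≫ φ = ptSq π (diagArr z A P) := by
      intro P
      apply hom_extP
      intro i
      simp only [φ, ptSq, tuple_eq, Category.assoc, liftP_proj]
      rw [← Category.assoc]
      congr 1
      apply hom_extS
      · simp only [Category.assoc, liftS_fst, he]
      · simp only [Category.assoc, liftS_snd, he]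
    have h1 : sqL π n (Finsupp.mapDomain (diagArr z A) D) = cl _ (push φ D) := by
      rw [Finsupp.mapDomain, Finsupp.sum, map_sum, push, Finsupp.mapDomain,
        Finsupp.sum, map_sum]
      apply Finset.sum_congr rfl
      intro P _
      have h2 : (Finsupp.single (diagArr z A P) (D P) : (Fin n × Bool → Pt C) →₀ ℚ) =
          D P • Finsupp.single (diagArr z A P) 1 := by simp
      have h3 : (Finsupp.single (P ≫ φ) (D P) : Pt (powS S n) →₀ ℚ) =
          D P • Finsupp.single (P ≫ φ) 1 := by simp
      rw [h2, h3, map_smul, map_smul, sqL_single, hφ]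
    rw [h1, cl_eq_zero]
    have h4 : push φ (-D) ∈ ratTrivial (powS S n) :=
      Submodule.subset_span ⟨C, inferInstance, φ, h, -D, hh, rfl⟩
    rw [← pushL_apply, map_neg, Submodule.neg_mem_iff] at h4
    exact h4
  | zero => simp
  | add x y _ _ hx hy => rw [map_add, hx, hy, add_zero]
  | smul a x _ hx => rw [map_smul, hx, smul_zero]

/-- The map on the quotient. -/
noncomputable def sqQ [IsCurve C] (n : ℕ) :
    SlotQuot (Fin n × Bool) (Prin C) →ₗ[ℚ] CH0 (powS S n) :=
  (diagRel (Fin n × Bool) (Prin C)).liftQ (sqL π n) (fun f hf => by
    rw [LinearMap.mem_ker]; exact sqL_kill π f hf)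

lemma sqQ_mk [IsCurve C] (f : (Fin n × Bool → Pt C) →₀ ℚ) :
    sqQ π n ((diagRel (Fin n × Bool) (Prin C)).mkQ f) = sqL π n f := rfl

/-- Exterior products in pairs. -/
lemma theta_pair (E : Fin n × Bool → (Pt C →₀ ℚ)) :
    theta S n (fun i => push π (beta C C (E (i, false)) (E (i, true)))) =
      sqL π n (extProd E) := by
  classical
  have h : pairComp (theta S n) ((beta C C).compr₂ (pushL π)) =
      (sqL π n).compMultilinearMap (extProdM (Pt C) (Fin n × Bool)) := by
    apply Module.Basis.ext_multilinear (fun _ => Finsupp.basisSingleOne)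
    intro z
    simp only [pairComp_apply, LinearMap.compr₂_apply, LinearMap.compMultilinearMap_apply,
      Finsupp.coe_basisSingleOne, extProdM_apply, extProd_single, beta_single, pushL_apply,
      push_single, sqL_single]
    rw [theta_single]
    rfl
  have h2 := congrArg (fun F => F E) h
  simpa only [pairComp_apply, LinearMap.compr₂_apply, LinearMap.compMultilinearMap_apply,
    extProdM_apply, pushL_apply] using h2

/-- Invariance under flips of the pairs. -/
lemma sqL_flip (hπ : swapS C ≫ π = π) (E : Fin n × Bool → (Pt C →₀ ℚ)) (ε : Fin n → Bool) :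
    sqL π n (extProd fun p => E (p.1, xor p.2 (ε p.1))) = sqL π n (extProd E) := by
  classical
  rw [← theta_pair, ← theta_pair]
  congr 1
  funext i
  cases hε : ε i
  · simp [hε]
  · simp only [hε, Bool.false_xor, Bool.true_xor, Bool.not_true]
    have h : (beta C C).compr₂ (pushL π) = ((beta C C).compr₂ (pushL π)).flip := by
      apply Finsupp.lhom_ext'
      intro x
      apply LinearMap.ext_ring
      apply Finsupp.lhom_ext'
      intro y
      apply LinearMap.ext_ring
      simp only [LinearMap.comp_apply, Finsupp.lsingle_apply, LinearMap.compr₂_apply,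
        LinearMap.flip_apply, beta_single, pushL_apply, push_single]
      have e : liftS x y ≫ swapS C = liftS y x := by
        apply hom_extS
        · simp [swapS_eq, liftS_fst, liftS_snd]
        · simp [swapS_eq, liftS_fst, liftS_snd]
      rw [← e, Category.assoc, hπ]
    have h2 := congrArg (fun F => F (E (i, true)) (E (i, false))) h
    simpa only [LinearMap.compr₂_apply, LinearMap.flip_apply, pushL_apply] using h2

/-- Combinatorial core: the alternating sum vanishes on generators. -/
lemma altTheta_sq_qq [IsCurve C] {g : ℕ} (hg : genus C = g) (hn : g.choose 2 < n)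
    (hπ : swapS C ≫ π = π) (o : Pt C) (s : Fin n → Pt (prodS C C)) :
    altTheta S n (fun i => push π (qq o o (s i))) = 0 := by
  classical
  let x : Fin n × Bool → Pt C := fun p => if p.2 then s p.1 ≫ sndS C C else s p.1 ≫ fstS C C
  let E : Fin n × Bool → (Pt C →₀ ℚ) := fun p => Finsupp.single (x p) 1 - Finsupp.single o 1
  have hqq : ∀ i, push π (qq o o (s i)) = push π (beta C C (E (i, false)) (E (i, true))) := by
    intro i
    rfl
  have A := altFun_extProd (ι := Fin n × Bool) (Prin C) g
    (fun t o ht => exists_effective C hg t o ht) x o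
  have hsum := wreath_sum_eq_zero hn A
  have hsum2 := congrArg (sqQ π n) hsum
  rw [map_zero, map_sum] at hsum2
  have hterm : ∀ p : Perm (Fin n) × (Fin n → Bool),
      sqQ π n (wsgn p • ((Perm.sign (wreath p.1 p.2) : ℤˣ) : ℤ) •
        (diagRel (Fin n × Bool) (Prin C)).mkQ
          (extProd fun i => (Finsupp.single (x (wreath p.1 p.2 i)) (1 : ℚ) -
            Finsupp.single o 1))) =
      ((Perm.sign p.1 : ℤˣ) : ℤ) • theta S n (fun i => push π (qq o o (s (p.1 i)))) := by
    intro p
    have h1 : sqL π n (extProd fun i => (Finsupp.single (x (wreath p.1 p.2 i)) (1 : ℚ) -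
            Finsupp.single o 1)) = theta S n (fun i => push π (qq o o (s (p.1 i)))) := by
      have h2 := sqL_flip π hπ (fun q => E (p.1 q.1, q.2)) p.2
      have h3 := theta_pair π (fun q => E (p.1 q.1, q.2))
      simp only at h2 h3
      rw [← h3] at h2
      exact h2
    have hsq : ((Perm.sign (wreath p.1 p.2) : ℤˣ) : ℤ) *
        ((Perm.sign (wreath p.1 p.2) : ℤˣ) : ℤ) = 1 := by
      rw [← Units.val_mul, Int.units_mul_self]; rfl
    rw [smul_smul, map_zsmul, sqQ_mk, h1]
    congr 1
    unfold wsgn
    rw [mul_assoc, hsq, mul_one]
  simp only [hterm] at hsum2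
  rw [Fintype.sum_prod_type] at hsum2
  simp only [Finset.sum_const, Finset.card_univ] at hsum2
  rw [← Finset.smul_sum] at hsum2
  rw [altTheta_apply]
  have hne : (Fintype.card (Fin n → Bool) : ℚ) ≠ 0 := by
    exact_mod_cast Fintype.card_ne_zero
  rw [← Nat.cast_smul_eq_nsmul ℚ] at hsum2
  exact (smul_eq_zero.1 hsum2).resolve_left hne

/-- **Voisin's conjecture for symmetric squares of curves.** -/
theorem voisin_sq [IsCurve C] {g : ℕ} (hg : genus C = g) (hn : g.choose 2 < n)
    (hπ : swapS C ≫ π = π) (b : Fin n → (Pt (prodS C C) →₀ ℚ))
    (hb : ∀ i, push (fstS C C) (b i) + push (sndS C C) (b i) ∈ ratTrivial C) :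
    altTheta S n (fun i => push π (b i)) = 0 := by
  classical
  have hn0 : 0 < n := by omega
  by_cases hne : Nonempty (Pt (prodS C C))
  swap
  · have hE : IsEmpty (Pt (prodS C C)) := not_nonempty_iff.1 hne
    have h0 : push π (b ⟨0, hn0⟩) = 0 := by
      have : b ⟨0, hn0⟩ = 0 := by ext x; exact (hE.false x).elim
      rw [this, ← pushL_apply, map_zero]
    exact MultilinearMap.map_coord_zero _ (⟨0, hn0⟩ : Fin n) h0
  obtain ⟨s₀⟩ := hne
  let o : Pt C := s₀ ≫ fstS C C
  have hmem : ∀ i, push π (b i) ∈ Submodule.span ℚ
      {z : Pt S →₀ ℚ | (∃ s, push π (qq o o s) = z) ∨ z ∈ ratTrivial S} := by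
    intro i
    -- symmetrise
    have hs1 : push π (b i) = push π ((1 / 2 : ℚ) • (b i + push (swapS C) (b i))) := by
      rw [← pushL_apply, ← pushL_apply, map_smul, map_add, pushL_apply, pushL_apply, push_push,
        hπ, ← two_smul ℚ (push π (b i)), smul_smul]
      norm_num
    have hf : push (fstS C C) ((1 / 2 : ℚ) • (b i + push (swapS C) (b i))) ∈ ratTrivial C := by
      rw [← pushL_apply, map_smul, map_add, pushL_apply, pushL_apply, push_push]
      have : swapS C ≫ fstS C C = sndS C C := by simp [swapS_eq, liftS_fst]
      rw [this]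
      exact Submodule.smul_mem _ _ (hb i)
    have hsn : push (sndS C C) ((1 / 2 : ℚ) • (b i + push (swapS C) (b i))) ∈ ratTrivial C := by
      rw [← pushL_apply, map_smul, map_add, pushL_apply, pushL_apply, push_push]
      have : swapS C ≫ sndS C C = fstS C C := by simp [swapS_eq, liftS_snd]
      rw [this, add_comm]
      exact Submodule.smul_mem _ _ (hb i)
    have hm := mem_span_of_albanese o o _ hf hsn
    rw [hs1, ← pushL_apply]
    have hm2 := Submodule.mem_map_of_mem (f := pushL π) hm
    rw [Submodule.map_span] at hm2
    refine Submodule.span_mono ?_ hm2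
    rintro _ ⟨z, hz, rfl⟩
    rcases hz with ⟨s, rfl⟩ | hz
    · exact Or.inl ⟨s, rfl⟩
    · exact Or.inr (push_mem π hz)
  refine multilinear_eq_zero_of_span (altTheta S n)
    (fun _ => {z : Pt S →₀ ℚ | (∃ s, push π (qq o o s) = z) ∨ z ∈ ratTrivial S}) ?_ _ hmem
  intro v hv
  by_cases hex : ∃ j, v j ∈ ratTrivial S
  · obtain ⟨j, hj⟩ := hex
    exact altTheta_kill v j hj
  · push Not at hex
    have hs : ∀ i, ∃ s, push π (qq o o s) = v i := by
      intro i
      rcases hv i with h | h
      · exact h
      · exact absurd h (hex i)
    choose s hs using hs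
    have hv2 : v = fun i => push π (qq o o (s i)) := funext fun i => (hs i).symm
    rw [hv2]
    exact altTheta_sq_qq π hg hn hπ o s

end

end Q58.Chow
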